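import Pool.Agent.R671.MP.CubeAux

/-! MP_c03e51_gt, piece T10: reading two levels at a time does not change the limit set. -/

open MeasureTheory Set Filter Topology
open scoped ENNReal NNReal

namespace Pool.Agent.R671.MP

open CubeAux

namespace T10Aux

variable {d n : ℕ}

/-- the word of one-level letters -/
def unb : List (Fin d → Fin (n * n)) → List (Fin d → Fin n)
  | [] => []
  | c :: w => fstL c :: sndL c :: unb w

theorem unb_length (w : List (Fin d → Fin (n * n))) : (unb w).length = 2 * w.length := by
  induction w with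
  | nil => rfl
  | cons c w ih =>
    rw [unb, List.length_cons, List.length_cons, ih, List.length_cons]
    ring

theorem kept_unb (w : List (Fin d → Fin (n * n))) : ∀ ω : Conf d n,
    kept (blk ω) w ↔ kept ω (unb w) := by
  induction w with
  | nil => intro ω; exact Iff.rfl
  | cons c w ih =>
    intro ω
    rw [unb, kept, kept, kept]
    have e1 : shift c (blk ω) = blk (shift (sndL c) (shift (fstL c) ω)) := rfl
    have e2 : blk ω [] c = (ω [] (fstL c) && ω [fstL c] (sndL c)) := rfl
    have e3 : shift (fstL c) ω [] (sndL c) = ω [fstL c] (sndL c) := rfl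
    rw [e1, e2, ih, Bool.and_eq_true, e3, and_assoc]

theorem corner_unb (hn : 1 ≤ n) (w : List (Fin d → Fin (n * n))) (i : Fin d) :
    corner w i = corner (unb w) i := by
  have h0 : (n : ℝ) ≠ 0 := by
    have : (0 : ℝ) < n := by exact_mod_cast hn
    exact this.ne'
  induction w with
  | nil => rfl
  | cons c w ih =>
    have e1 : corner (c :: w) i = (((c i : ℕ) : ℝ) + corner w i) / ((n * n : ℕ) : ℝ) := rfl
    have e2 : corner (unb (c :: w)) i =
        (((fstL c i : ℕ) : ℝ) + (((sndL c i : ℕ) : ℝ) + corner (unb w) i) / (n : ℝ)) / (n : ℝ) := rfl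
    have e3 : ((c i : ℕ) : ℝ) = n * ((fstL c i : ℕ) : ℝ) + ((sndL c i : ℕ) : ℝ) := by
      have h1 : (fstL c i : ℕ) = (c i : ℕ) / n := rfl
      have h2 : (sndL c i : ℕ) = (c i : ℕ) % n := rfl
      have h3 : (c i : ℕ) = n * (fstL c i : ℕ) + (sndL c i : ℕ) := by
        rw [h1, h2]
        exact (Nat.div_add_mod _ _).symm
      exact_mod_cast h3
    rw [e1, e2, e3, ih]
    push_cast
    field_simp
    ring

theorem cube_unb (hn : 1 ≤ n) (w : List (Fin d → Fin (n * n))) : cube w = cube (unb w) := by
  unfold cube
  ext x
  simp only [mem_ofPred_eq]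
  refine forall_congr' fun i => ?_
  rw [corner_unb hn, unb_length, pow_mul]
  push_cast
  rw [sq]

theorem unb_surj (k : ℕ) : ∀ u : List (Fin d → Fin n), u.length = 2 * k →
    ∃ w : List (Fin d → Fin (n * n)), w.length = k ∧ unb w = u := by
  induction k with
  | zero =>
    intro u hu
    rw [mul_zero, List.length_eq_zero_iff] at hu
    exact ⟨[], rfl, hu.symm⟩
  | succ k ih =>
    intro u hu
    cases u with
    | nil => simp at hu
    | cons a u =>
      cases u with
      | nil =>
        rw [List.length_singleton] at hu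
        omega
      | cons b u =>
        rw [List.length_cons, List.length_cons] at hu
        obtain ⟨w, hw, hwu⟩ := ih u (by omega)
        refine ⟨(fun i => finProdFinEquiv (a i, b i)) :: w, by rw [List.length_cons, hw], ?_⟩
        have h1 : ∀ i, finProdFinEquiv.symm (finProdFinEquiv (a i, b i)) = (a i, b i) := fun i =>
          Equiv.symm_apply_apply _ _
        have h2 : fstL (fun i => finProdFinEquiv (a i, b i)) = a := by
          funext i
          exact congrArg Prod.fst (h1 i)
        have h3 : sndL (fun i => finProdFinEquiv (a i, b i)) = b := by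
          funext i
          exact congrArg Prod.snd (h1 i)
        rw [unb, h2, h3, hwu]

theorem level_blk (hn : 1 ≤ n) (ω : Conf d n) (k : ℕ) : level (blk ω) k = level ω (2 * k) := by
  ext x
  rw [level_mem, level_mem]
  constructor
  · rintro ⟨w, hw, hk, hx⟩
    refine ⟨unb w, by rw [unb_length, hw], (kept_unb w ω).1 hk, ?_⟩
    rw [← cube_unb hn]
    exact hx
  · rintro ⟨u, hu, hk, hx⟩
    obtain ⟨w, hw, rfl⟩ := unb_surj k u hu
    refine ⟨w, hw, (kept_unb w ω).2 hk, ?_⟩
    rw [cube_unb hn]
    exact hx

end T10Aux

open T10Aux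

theorem T10 {d n : ℕ} (hn : 1 ≤ n) (ω : Conf d n) : F (blk ω) = F ω := by
  unfold F
  ext x
  rw [mem_iInter, mem_iInter]
  constructor
  · intro h k
    have h1 := h k
    rw [level_blk hn] at h1
    exact level_anti hn ω (by omega : k ≤ 2 * k) h1
  · intro h k
    rw [level_blk hn]
    exact h _

end Pool.Agent.R671.MP
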