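import Pool.Agent.R671.MP.Defs

set_option autoImplicit false

open MeasureTheory Set Filter Topology
open scoped ENNReal NNReal

namespace Pool.Agent.R671.MP

namespace T8

variable {d n : ℕ}

theorem isClosed_cube (w : List (Fin d → Fin n)) : IsClosed (cube w) := by
  have e : cube w = ⋂ i, ({x : EuclideanSpace ℝ (Fin d) | corner w i ≤ x i} ∩
      {x | x i ≤ corner w i + 1 / (n : ℝ) ^ w.length}) := by
    ext x
    simp [cube]
  rw [e]
  refine isClosed_iInter fun i => IsClosed.inter ?_ ?_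
  · exact isClosed_le continuous_const (by fun_prop)
  · exact isClosed_le (by fun_prop) continuous_const

theorem isClosed_level (ω : Conf d n) (k : ℕ) : IsClosed (level ω k) := by
  unfold level
  refine Set.Finite.isClosed_biUnion ?_ fun w _ => isClosed_cube w
  exact (List.finite_length_eq (Fin d → Fin n) k).subset fun w hw => hw.1

theorem level_zero (ω : Conf d n) : level ω 0 = cube ([] : List (Fin d → Fin n)) := by
  ext x
  simp only [level, Set.mem_iUnion, Set.mem_ofPred_eq]
  constructor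
  · rintro ⟨w, ⟨hw, _⟩, hx⟩
    rw [List.length_eq_zero_iff] at hw
    rwa [hw] at hx
  · intro hx
    exact ⟨[], ⟨rfl, trivial⟩, hx⟩

theorem isCompact_cube_nil : IsCompact (cube ([] : List (Fin d → Fin n))) := by
  have e : cube ([] : List (Fin d → Fin n)) =
      (EuclideanSpace.equiv (Fin d) ℝ).toHomeomorph ⁻¹' (Set.Icc 0 1) := by
    ext x
    simp only [cube, corner, List.length_nil, pow_zero, div_one, zero_add, Set.mem_ofPred_eq,
      Set.mem_preimage, Set.mem_Icc, Pi.le_def, forall_and]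
    exact Iff.rfl
  rw [e, Homeomorph.isCompact_preimage]
  exact isCompact_Icc

theorem cube_cons (hn : 1 ≤ n) (a : Fin d → Fin n) (w : List (Fin d → Fin n))
    (x y : EuclideanSpace ℝ (Fin d)) (h : ∀ i, x i = (((a i : ℕ) : ℝ) + y i) / n) :
    x ∈ cube (a :: w) ↔ y ∈ cube w := by
  have hn0 : (0 : ℝ) < n := by exact_mod_cast hn
  simp only [cube, corner, List.length_cons, Set.mem_ofPred_eq]
  refine forall_congr' fun i => ?_
  rw [h i]
  have e : (((a i : ℕ) : ℝ) + corner w i) / n + 1 / (n : ℝ) ^ (w.length + 1) =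
      (((a i : ℕ) : ℝ) + (corner w i + 1 / (n : ℝ) ^ w.length)) / n := by
    rw [pow_succ]
    field_simp
    try ring
  rw [e, div_le_div_iff_of_pos_right hn0, div_le_div_iff_of_pos_right hn0,
    add_le_add_iff_left, add_le_add_iff_left]

/-- the rescaled point -/
noncomputable def resc (a : Fin d → Fin n) (x : EuclideanSpace ℝ (Fin d)) :
    EuclideanSpace ℝ (Fin d) :=
  WithLp.toLp 2 fun i => (n : ℝ) * x i - ((a i : ℕ) : ℝ)

theorem resc_spec (hn : 1 ≤ n) (a : Fin d → Fin n) (x : EuclideanSpace ℝ (Fin d)) (i : Fin d) :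
    x i = (((a i : ℕ) : ℝ) + resc a x i) / n := by
  have hn0 : (n : ℝ) ≠ 0 := by
    have : (0 : ℝ) < n := by exact_mod_cast hn
    exact this.ne'
  show x i = (((a i : ℕ) : ℝ) + ((n : ℝ) * x i - ((a i : ℕ) : ℝ))) / n
  field_simp
  ring

theorem level_succ (hn : 1 ≤ n) (ω : Conf d n) (k : ℕ) (x : EuclideanSpace ℝ (Fin d)) :
    x ∈ level ω (k + 1) ↔ ∃ a : Fin d → Fin n, ω [] a = true ∧ resc a x ∈ level (shift a ω) k := by
  simp only [level, Set.mem_iUnion, Set.mem_ofPred_eq]
  constructor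
  · rintro ⟨w, ⟨hw, hk⟩, hx⟩
    cases w with
    | nil => simp at hw
    | cons a w =>
      refine ⟨a, hk.1, w, ⟨by simpa using hw, hk.2⟩, ?_⟩
      exact (cube_cons hn a w x _ (resc_spec hn a x)).1 hx
  · rintro ⟨a, ha, w, ⟨hw, hk⟩, hx⟩
    exact ⟨a :: w, ⟨by simp [hw], ha, hk⟩, (cube_cons hn a w x _ (resc_spec hn a x)).2 hx⟩

theorem cube_sub_nil (hn : 1 ≤ n) (a : Fin d → Fin n) (x : EuclideanSpace ℝ (Fin d))
    (h : resc a x ∈ cube ([] : List (Fin d → Fin n))) :
    x ∈ cube ([] : List (Fin d → Fin n)) := by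
  have hn0 : (0 : ℝ) < n := by exact_mod_cast hn
  intro i
  have h1 := h i
  simp only [corner, List.length_nil, pow_zero, div_one, zero_add] at h1 ⊢
  rw [resc_spec hn a x i]
  have h2 : ((a i : ℕ) : ℝ) + 1 ≤ n := by exact_mod_cast (a i).2
  constructor
  · exact div_nonneg (add_nonneg (Nat.cast_nonneg _) h1.1) hn0.le
  · rw [div_le_one hn0]
    linarith [h1.2]

theorem level_anti_succ (hn : 1 ≤ n) (k : ℕ) : ∀ ω : Conf d n, level ω (k + 1) ⊆ level ω k := by
  induction k with
  | zero =>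
    intro ω x hx
    obtain ⟨a, _, hx⟩ := (level_succ hn ω 0 x).1 hx
    rw [level_zero] at hx ⊢
    exact cube_sub_nil hn a x hx
  | succ k ih =>
    intro ω x hx
    obtain ⟨a, ha, hx⟩ := (level_succ hn ω (k + 1) x).1 hx
    exact (level_succ hn ω k x).2 ⟨a, ha, ih _ hx⟩

theorem level_anti (hn : 1 ≤ n) (ω : Conf d n) : Antitone (level ω) :=
  antitone_nat_of_succ_le fun k => level_anti_succ hn k ω

theorem cube_nonempty (w : List (Fin d → Fin n)) : (cube w).Nonempty := by
  refine ⟨WithLp.toLp 2 (corner w), fun i => ⟨le_rfl, ?_⟩⟩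
  have : 0 ≤ 1 / (n : ℝ) ^ w.length := by positivity
  show corner w i ≤ corner w i + 1 / (n : ℝ) ^ w.length
  linarith

end T8

open T8

theorem isCompact_F {d n : ℕ} (ω : Conf d n) : IsCompact (F ω) := by
  have h0 : IsCompact (level ω 0) := by
    rw [level_zero]
    exact isCompact_cube_nil
  refine h0.of_isClosed_subset (isClosed_iInter fun k => isClosed_level ω k) ?_
  exact Set.iInter_subset _ 0

theorem F_nonempty_iff {d n : ℕ} (hn : 1 ≤ n) (ω : Conf d n) : (F ω).Nonempty ↔ surv ω := by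
  constructor
  · rintro ⟨x, hx⟩ k
    have h1 : x ∈ level ω k := Set.mem_iInter.1 hx k
    simp only [level, Set.mem_iUnion, Set.mem_ofPred_eq] at h1
    obtain ⟨w, hw, _⟩ := h1
    exact ⟨w, hw⟩
  · intro h
    unfold F
    refine IsCompact.nonempty_iInter_of_sequence_nonempty_isCompact_isClosed (level ω)
      (fun k => level_anti_succ hn k ω) (fun k => ?_) ?_ (fun k => isClosed_level ω k)
    · obtain ⟨w, hw⟩ := h k
      obtain ⟨x, hx⟩ := cube_nonempty w
      refine ⟨x, ?_⟩
      simp only [level, Set.mem_iUnion, Set.mem_ofPred_eq]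
      exact ⟨w, hw, hx⟩
    · rw [level_zero]
      exact isCompact_cube_nil

theorem F_step {d n : ℕ} (hn : 1 ≤ n) (ω : Conf d n) (x : EuclideanSpace ℝ (Fin d)) :
    x ∈ F ω ↔ ∃ (a : Fin d → Fin n) (y : EuclideanSpace ℝ (Fin d)), ω [] a = true ∧
      y ∈ F (shift a ω) ∧ ∀ i, x i = (((a i : ℕ) : ℝ) + y i) / n := by
  constructor
  · intro hx
    have hx' : ∀ k, x ∈ level ω k := fun k => Set.mem_iInter.1 hx k
    by_contra hcon
    push Not at hcon
    have h1 : ∀ a : Fin d → Fin n, ∃ k, ¬ (ω [] a = true ∧ resc a x ∈ level (shift a ω) k) := by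
      intro a
      by_contra hc
      push Not at hc
      obtain ⟨i, hi⟩ := hcon a (resc a x) (hc 0).1 (Set.mem_iInter.2 fun k => (hc k).2)
      exact hi (resc_spec hn a x i)
    choose k hk using h1
    obtain ⟨a, ha, hxa⟩ := (level_succ hn ω (Finset.univ.sup k) x).1 (hx' _)
    exact hk a ⟨ha, level_anti hn _ (Finset.le_sup (Finset.mem_univ a)) hxa⟩
  · rintro ⟨a, y, ha, hy, hxy⟩
    have hn0 : (n : ℝ) ≠ 0 := by
      have : (0 : ℝ) < n := by exact_mod_cast hn
      exact this.ne'
    have e : resc a x = y := by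
      ext i
      show (n : ℝ) * x i - ((a i : ℕ) : ℝ) = y i
      rw [hxy i]
      field_simp
      ring
    refine Set.mem_iInter.2 fun k => ?_
    have h1 : x ∈ level ω (k + 1) := by
      refine (level_succ hn ω k x).2 ⟨a, ha, ?_⟩
      rw [e]
      exact Set.mem_iInter.1 hy k
    exact level_anti_succ hn k ω h1

end Pool.Agent.R671.MP
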