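import Pool.Agent.R671.MP.CubeAux
import Pool.Agent.R671.MP.T8

/-! MP_c03e51_gt, piece T11: covers by words of small radius. -/

open MeasureTheory Set Filter Topology
open scoped ENNReal NNReal

namespace Pool.Agent.R671.MP

open CubeAux

namespace T11Aux

variable {d n : ℕ}

theorem fac_pos (hn : 2 ≤ n) (β : Fin d → Fin n) (κ : Conf d n) : 0 < fac β κ := by
  unfold fac
  have : (0 : ℝ) < n := by exact_mod_cast (by omega : 0 < n)
  split_ifs <;> positivity

theorem rad_cons (β : Fin d → Fin n) (κ : Conf d n) (c : Fin d → Fin n)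
    (w : List (Fin d → Fin n)) : rad β κ (c :: w) = fac β κ * rad β (shift c κ) w := by
  unfold rad fac
  rw [gcount, List.length_cons, pow_succ]
  by_cases h : Good β κ
  · rw [if_pos h, if_pos h, pow_add]
    ring
  · rw [if_neg h, if_neg h, zero_add]
    ring

theorem rad_nil (β : Fin d → Fin n) (κ : Conf d n) : rad β κ [] = 1 := by
  unfold rad
  simp [gcount]

/-- the statement -/
def Cl (β : Fin d → Fin n) (s ε : ℝ) (κ : Conf d n) : Prop :=
  ∃ T : Finset (List (Fin d → Fin n)), (∀ w ∈ T, kept κ w ∧ rad β κ w ≤ ε) ∧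
      (∀ x ∈ F κ, ∃ w ∈ T, x ∈ cube w) ∧
      (T.card : ℝ≥0∞) ≤ ENNReal.ofReal ((2 * n / ε) ^ s) * ∑' k : ℕ, Ssum β s k κ

theorem base (_hn : 2 ≤ n) (β : Fin d → Fin n) (s : ℝ) (hs : 0 < s) (ε : ℝ) (h1 : 1 ≤ ε)
    (h2 : ε ≤ 2 * n) (κ : Conf d n) : Cl β s ε κ := by
  refine ⟨{[]}, ?_, ?_, ?_⟩
  · intro w hw
    rw [Finset.mem_singleton] at hw
    subst hw
    exact ⟨trivial, by rw [rad_nil]; exact h1⟩
  · intro x hx
    refine ⟨[], Finset.mem_singleton_self _, ?_⟩
    have h3 := mem_iInter.1 hx 0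
    rw [level_mem] at h3
    obtain ⟨w, hw, _, hx⟩ := h3
    rw [List.length_eq_zero_iff] at hw
    rwa [hw] at hx
  · rw [Finset.card_singleton, Nat.cast_one]
    have h3 : (1 : ℝ) ≤ (2 * n / ε) ^ s := by
      refine Real.one_le_rpow ?_ hs.le
      rw [le_div_iff₀ (by linarith), one_mul]
      exact h2
    have h4 : (1 : ℝ≥0∞) ≤ ENNReal.ofReal ((2 * n / ε) ^ s) := by
      rw [← ENNReal.ofReal_one]
      exact ENNReal.ofReal_le_ofReal h3
    have h5 : (1 : ℝ≥0∞) ≤ ∑' k : ℕ, Ssum β s k κ := by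
      have := ENNReal.le_tsum (f := fun k => Ssum β s k κ) 0
      exact this
    calc (1 : ℝ≥0∞) = 1 * 1 := (one_mul 1).symm
      _ ≤ _ := mul_le_mul' h4 h5

theorem step (hn : 2 ≤ n) (β : Fin d → Fin n) (s : ℝ) (ε : ℝ) (hε : 0 < ε)
    (κ : Conf d n) (ih : ∀ c, κ [] c = true → Cl β s (ε / fac β κ) (shift c κ)) :
    Cl β s ε κ := by
  classical
  have hf := fac_pos hn β κ
  have ih' : ∀ c, ∃ T : Finset (List (Fin d → Fin n)), κ [] c = true →
      ((∀ w ∈ T, kept (shift c κ) w ∧ rad β (shift c κ) w ≤ ε / fac β κ) ∧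
      (∀ x ∈ F (shift c κ), ∃ w ∈ T, x ∈ cube w) ∧
      (T.card : ℝ≥0∞) ≤ ENNReal.ofReal ((2 * n / (ε / fac β κ)) ^ s) *
        ∑' k : ℕ, Ssum β s k (shift c κ)) := by
    intro c
    by_cases hc : κ [] c = true
    · obtain ⟨T, hT⟩ := ih c hc
      exact ⟨T, fun _ => hT⟩
    · exact ⟨∅, fun h => absurd h hc⟩
  choose T hT using ih'
  refine ⟨(Finset.univ.filter (fun c : Fin d → Fin n => κ [] c = true)).biUnion
    (fun c => (T c).image (fun w => c :: w)), ?_, ?_, ?_⟩
  · intro w hw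
    rw [Finset.mem_biUnion] at hw
    obtain ⟨c, hc, hw⟩ := hw
    rw [Finset.mem_filter] at hc
    rw [Finset.mem_image] at hw
    obtain ⟨w', hw', rfl⟩ := hw
    have h1 := (hT c hc.2).1 w' hw'
    refine ⟨⟨hc.2, h1.1⟩, ?_⟩
    rw [rad_cons]
    calc fac β κ * rad β (shift c κ) w' ≤ fac β κ * (ε / fac β κ) :=
          mul_le_mul_of_nonneg_left h1.2 hf.le
      _ = ε := by field_simp
  · intro x hx
    obtain ⟨c, y, hc, hy, hxy⟩ := (F_step (by omega) κ x).1 hx
    obtain ⟨w, hw, hyw⟩ := (hT c hc).2.1 y hy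
    refine ⟨c :: w, ?_, ?_⟩
    · rw [Finset.mem_biUnion]
      exact ⟨c, Finset.mem_filter.2 ⟨Finset.mem_univ _, hc⟩, Finset.mem_image_of_mem _ hw⟩
    · exact (T8.cube_cons (by omega) c w x y hxy).2 hyw
  · have h1 : (((Finset.univ.filter (fun c : Fin d → Fin n => κ [] c = true)).biUnion
        (fun c => (T c).image (fun w => c :: w))).card : ℝ≥0∞) ≤
        ∑ c ∈ Finset.univ.filter (fun c : Fin d → Fin n => κ [] c = true), ((T c).card : ℝ≥0∞) := by
      have h2 : ((Finset.univ.filter (fun c : Fin d → Fin n => κ [] c = true)).biUnion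
        (fun c => (T c).image (fun w => c :: w))).card ≤
        ∑ c ∈ Finset.univ.filter (fun c : Fin d → Fin n => κ [] c = true), (T c).card :=
        Finset.card_biUnion_le.trans (Finset.sum_le_sum fun c _ => Finset.card_image_le)
      exact_mod_cast h2
    refine h1.trans ?_
    rw [Finset.sum_filter]
    have h3 : ∀ c : Fin d → Fin n, (if κ [] c = true then ((T c).card : ℝ≥0∞) else 0) ≤
        ENNReal.ofReal ((2 * n / ε) ^ s) * ∑' k : ℕ,
          (if κ [] c = true then ENNReal.ofReal (fac β κ ^ s) * Ssum β s k (shift c κ) else 0) := by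
      intro c
      by_cases hc : κ [] c = true
      · simp only [if_pos hc]
        refine ((hT c hc).2.2).trans (le_of_eq ?_)
        rw [ENNReal.tsum_mul_left, ← mul_assoc, ← ENNReal.ofReal_mul (by positivity)]
        congr 2
        rw [← Real.mul_rpow (by positivity) hf.le]
        congr 1
        field_simp
      · simp only [if_neg hc]
        exact zero_le
    refine (Finset.sum_le_sum fun c _ => h3 c).trans ?_
    rw [← Finset.mul_sum]
    refine mul_le_mul_right ?_ _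
    rw [← Summable.tsum_finsetSum (fun _ _ => ENNReal.summable)]
    have h4 : ∀ k, ∑ c : Fin d → Fin n,
        (if κ [] c = true then ENNReal.ofReal (fac β κ ^ s) * Ssum β s k (shift c κ) else 0) =
        Ssum β s (k + 1) κ := fun k => by
      rw [Ssum]
    rw [tsum_congr h4]
    exact ENNReal.tsum_comp_le_tsum_of_injective (Nat.succ_injective) (fun k => Ssum β s k κ)

theorem all (hn : 2 ≤ n) (β : Fin d → Fin n) (s : ℝ) (hs : 0 < s) (j : ℕ) :
    ∀ (ε : ℝ) (κ : Conf d n), 1 / (n : ℝ) ^ j ≤ ε → ε ≤ 2 * n → Cl β s ε κ := by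
  have h0 : (0 : ℝ) < n := by exact_mod_cast (by omega : 0 < n)
  induction j with
  | zero =>
    intro ε κ h1 h2
    rw [pow_zero, div_one] at h1
    exact base hn β s hs ε h1 h2 κ
  | succ j ih =>
    intro ε κ h1 h2
    have hε : 0 < ε := lt_of_lt_of_le (by positivity) h1
    rcases le_or_gt 1 ε with h3 | h3
    · exact base hn β s hs ε h3 h2 κ
    · refine step hn β s ε hε κ fun c _ => ih _ _ ?_ ?_
      · have hf := fac_pos hn β κ
        have hf2 : fac β κ ≤ 1 / n := by
          unfold fac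
          refine div_le_div_of_nonneg_right ?_ h0.le
          split_ifs <;> norm_num
        rw [le_div_iff₀ hf]
        calc 1 / (n : ℝ) ^ j * fac β κ ≤ 1 / (n : ℝ) ^ j * (1 / n) :=
              mul_le_mul_of_nonneg_left hf2 (by positivity)
          _ = 1 / (n : ℝ) ^ (j + 1) := by rw [pow_succ]; field_simp
          _ ≤ ε := h1
      · have hf := fac_pos hn β κ
        have hf2 : 1 / (2 * n : ℝ) ≤ fac β κ := by
          unfold fac
          split_ifs
          · rw [div_div]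
          · refine div_le_div_of_nonneg_left zero_le_one h0 ?_
            linarith
        rw [div_le_iff₀ hf]
        have h4 : (2 * n : ℝ) * (1 / (2 * n)) = 1 := by field_simp
        have h5 : (2 * n : ℝ) * (1 / (2 * n)) ≤ 2 * n * fac β κ :=
          mul_le_mul_of_nonneg_left hf2 (by positivity)
        linarith

end T11Aux

open T11Aux

theorem T11 {d n : ℕ} (hn : 2 ≤ n) (β : Fin d → Fin n) (s : ℝ) (hs : 0 < s) (ε : ℝ) (hε : 0 < ε)
    (hε1 : ε ≤ 1) (κ : Conf d n) :
    ∃ T : Finset (List (Fin d → Fin n)), (∀ w ∈ T, kept κ w ∧ rad β κ w ≤ ε) ∧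
      (∀ x ∈ F κ, ∃ w ∈ T, x ∈ cube w) ∧
      (T.card : ℝ≥0∞) ≤ ENNReal.ofReal ((2 * n / ε) ^ s) * ∑' k : ℕ, Ssum β s k κ := by
  have h1 : (1 : ℝ) < n := by exact_mod_cast (by omega : 1 < n)
  obtain ⟨j, hj⟩ : ∃ j : ℕ, (1 / (n : ℝ)) ^ j < ε :=
    exists_pow_lt_of_lt_one hε (by rw [div_lt_one (by linarith)]; exact h1)
  rw [one_div_pow] at hj
  exact all hn β s hs j ε κ hj.le (by linarith)

end Pool.Agent.R671.MP
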