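import Pool.Agent.R671.MP.Defs

/-!
MP_c03e51_gt, piece T12: the upper box dimension and covering numbers.
-/

set_option autoImplicit false

open MeasureTheory Set Filter Topology
open scoped ENNReal NNReal

namespace Pool.Agent.R671.MP

theorem T12_log_tendsto : Tendsto (fun ε : ℝ => Real.log (1 / ε)) (𝓝[>] (0 : ℝ)) atTop := by
  have h : (fun ε : ℝ => Real.log (1 / ε)) = fun ε => - Real.log ε := by
    funext ε
    rw [one_div, Real.log_inv]
  rw [h]
  exact tendsto_neg_atBot_atTop.comp Real.tendsto_log_nhdsGT_zero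

theorem T12_small : ∀ᶠ ε : ℝ in 𝓝[>] (0 : ℝ), 0 < ε ∧ ε < 1 :=
  Ioo_mem_nhdsGT one_pos

theorem upperBoxDim_le {Y : Type*} [MetricSpace Y] (s C : ℝ) (hC : 0 < C)
    (h : ∀ᶠ ε : ℝ in 𝓝[>] (0 : ℝ), ((coverNum Y ε : ℕ∞) : ℝ≥0∞) ≤ ENNReal.ofReal (C * ε ^ (-s))) :
    upperBoxDim Y ≤ (s : EReal) := by
  have hL := T12_log_tendsto
  set g : ℝ → EReal := fun ε => ((Real.log C / Real.log (1 / ε) + s : ℝ) : EReal) with hg
  have hlim : Tendsto g (𝓝[>] (0 : ℝ)) (𝓝 (s : EReal)) := by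
    have h1 : Tendsto (fun ε : ℝ => Real.log C / Real.log (1 / ε) + s) (𝓝[>] (0 : ℝ))
        (𝓝 (0 + s)) := (hL.const_div_atTop _).add_const s
    rw [zero_add] at h1
    exact (continuous_coe_real_ereal.tendsto s).comp h1
  have hle : (fun ε : ℝ => ENNReal.log ((coverNum Y ε : ℕ∞) : ℝ≥0∞) /
      ((Real.log (1 / ε) : ℝ) : EReal)) ≤ᶠ[𝓝[>] (0 : ℝ)] g := by
    filter_upwards [h, T12_small] with ε h1 h2
    obtain ⟨h3, h4⟩ := h2
    have hLpos : 0 < Real.log (1 / ε) := Real.log_pos (by rw [lt_div_iff₀ h3]; linarith)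
    have hpos : 0 < C * ε ^ (-s) := mul_pos hC (Real.rpow_pos_of_pos h3 _)
    have h5 : ENNReal.log ((coverNum Y ε : ℕ∞) : ℝ≥0∞) ≤ ((Real.log (C * ε ^ (-s)) : ℝ) : EReal) := by
      rw [← ENNReal.log_ofReal_of_pos hpos]
      exact ENNReal.log_le_log h1
    have h6 := EReal.div_le_div_right_of_nonneg (c := ((Real.log (1 / ε) : ℝ) : EReal))
      (by exact_mod_cast hLpos.le) h5
    refine h6.trans (le_of_eq ?_)
    rw [← EReal.coe_div, hg]
    show ((_ : ℝ) : EReal) = ((_ : ℝ) : EReal)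
    congr 1
    rw [Real.log_mul hC.ne' (Real.rpow_pos_of_pos h3 _).ne', Real.log_rpow h3]
    have h7 : -s * Real.log ε = s * Real.log (1 / ε) := by
      rw [one_div, Real.log_inv]; ring
    rw [h7, add_div, mul_div_assoc, div_self hLpos.ne', mul_one]
  calc upperBoxDim Y ≤ limsup g (𝓝[>] (0 : ℝ)) := limsup_le_limsup hle
    _ = s := hlim.limsup_eq

theorem coverNum_le_of_upperBoxDim_lt {Y : Type*} [MetricSpace Y] (s : ℝ)
    (h : upperBoxDim Y < (s : EReal)) :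
    ∀ᶠ ε : ℝ in 𝓝[>] (0 : ℝ), ((coverNum Y ε : ℕ∞) : ℝ≥0∞) ≤ ENNReal.ofReal (ε ^ (-s)) := by
  have h1 := Filter.eventually_lt_of_limsup_lt h
  filter_upwards [h1, T12_small] with ε h2 h3
  obtain ⟨h3, h4⟩ := h3
  have hLpos : 0 < Real.log (1 / ε) := Real.log_pos (by rw [lt_div_iff₀ h3]; linarith)
  rw [EReal.div_lt_iff (by exact_mod_cast hLpos) (EReal.coe_ne_top _), ← EReal.coe_mul] at h2
  have hpos : 0 < ε ^ (-s) := Real.rpow_pos_of_pos h3 _
  have h5 : s * Real.log (1 / ε) = Real.log (ε ^ (-s)) := by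
    rw [Real.log_rpow h3, one_div, Real.log_inv]; ring
  rw [h5, ← ENNReal.log_ofReal_of_pos hpos] at h2
  exact (ENNReal.log_lt_log_iff.1 h2).le

end Pool.Agent.R671.MP
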