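import Pool.Agent.R671.MP.Defs

/-!
# MP_c03e51_gt: good cubes have positive probability, and the piece T3
-/

set_option autoImplicit false

open MeasureTheory Set Filter Topology
open scoped ENNReal NNReal

namespace Pool.Agent.R671.MP

lemma off_singleton_pos (d n : ℕ) (p : unitInterval) (hp : (p : ℝ) < 1) (hp0 : 0 < (p : ℝ))
    (z : (Fin d → Fin n) → Bool) : 0 < off d n p {z} := by
  have h1 : ({z} : Set ((Fin d → Fin n) → Bool)) = Set.univ.pi (fun a => {z a}) := by
    ext w
    simp [funext_iff]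
  rw [h1, off, Measure.pi_pi]
  apply pos_iff_ne_zero.mpr
  rw [Finset.prod_ne_zero_iff]
  intro a _
  apply ne_of_gt
  rw [ProbabilityTheory.bernoulliMeasure_def]
  have hp1 : 0 < unitInterval.toNNReal p := by
    rw [← NNReal.coe_pos]; simpa using hp0
  have hq1 : 0 < unitInterval.toNNReal (unitInterval.symm p) := by
    rw [← NNReal.coe_pos]; simpa using hp
  cases hz : z a
  · simpa using hq1
  · simpa using hp1

theorem law_Good_pos (d n : ℕ) (hn : 1 ≤ n) (p : unitInterval) (hp : (p : ℝ) < 1)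
    (hp0 : 0 < (p : ℝ)) (β : Fin d → Fin (n * n)) :
    0 < (law d n p).real {ω | Good β (blk ω)} := by
  classical
  set a0 := fstL β with ha0
  set b0 := sndL β with hb0
  set x0 : (Fin d → Fin n) → Bool := fun a => decide (a = a0) with hx0
  set y0 : (Fin d → Fin n) → Bool := fun b => decide (b = b0) with hy0
  set t : List (Fin d → Fin n) → Set ((Fin d → Fin n) → Bool) :=
    fun v => if v = [] then {x0} else {y0} with ht
  set S : Finset (List (Fin d → Fin n)) := {[], [a0]} with hS
  have hbox : (law d n p) (Set.pi (S : Set (List (Fin d → Fin n))) t) = ∏ i ∈ S, off d n p (t i) := by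
    unfold law
    apply Measure.infinitePi_pi
    intro i _
    simp only [ht]
    split_ifs <;> exact MeasurableSet.singleton _
  have hpos : 0 < ∏ i ∈ S, off d n p (t i) := by
    apply pos_iff_ne_zero.mpr
    rw [Finset.prod_ne_zero_iff]
    intro i _
    apply ne_of_gt
    simp only [ht]
    split_ifs <;> exact off_singleton_pos d n p hp hp0 _
  have hsub : Set.pi (S : Set (List (Fin d → Fin n))) t ⊆ {ω | Good β (blk ω)} := by
    intro ω hω
    have h1 : ω [] = x0 := by
      have := hω [] (by simp [hS])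
      simpa [ht] using this
    have h2 : ω [a0] = y0 := by
      have := hω [a0] (by simp [hS])
      simpa [ht] using this
    intro c
    show (ω [] (fstL c) && ω [fstL c] (sndL c)) = true ↔ c = β
    rw [Bool.and_eq_true]
    constructor
    · rintro ⟨h3, h4⟩
      rw [h1] at h3
      have h5 : fstL c = a0 := by simpa [hx0] using h3
      rw [h5, h2] at h4
      have h6 : sndL c = b0 := by simpa [hy0] using h4
      funext i
      have h7 : (c i).divNat = (β i).divNat := congrFun h5 i
      have h8 : (c i).modNat = (β i).modNat := congrFun h6 i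
      exact finProdFinEquiv.symm.injective (Prod.ext h7 h8)
    · rintro rfl
      refine ⟨?_, ?_⟩
      · rw [h1]; simp [hx0, ha0]
      · rw [← ha0, h2]; simp [hy0, hb0]
  have h3 : 0 < (law d n p) {ω | Good β (blk ω)} := by
    calc 0 < ∏ i ∈ S, off d n p (t i) := hpos
      _ = _ := hbox.symm
      _ ≤ _ := measure_mono hsub
  exact ENNReal.toReal_pos h3.ne' (measure_ne_top _ _)

/-- T3 with the two inputs from T2 -/
theorem T3_of (d n : ℕ) (hd : 1 ≤ d) (hn : 2 ≤ n) (p : unitInterval) (hp : (p : ℝ) < 1)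
    (hp' : 1 / (n : ℝ) ^ d < p) (β : Fin d → Fin (n * n))
    (hM : ∀ (s : ℝ) (k : ℕ), Measurable fun ω : Conf d n => Ssum β s k (blk ω))
    (hT2 : ∀ (s : ℝ) (k : ℕ), ∫⁻ ω, Ssum β s k (blk ω) ∂(law d n p) =
      ENNReal.ofReal ((((n : ℝ) ^ d * p) ^ 2
        - (1 - (1 / 2 : ℝ) ^ s) * (law d n p).real {ω | Good β (blk ω)}) / ((n : ℝ) * n) ^ s) ^ k) :
    ∃ s : ℝ, 0 < s ∧ s < d + Real.log p / Real.log n ∧
      ∀ᵐ ω ∂(law d n p), ∑' k : ℕ, Ssum β s k (blk ω) < ⊤ := by
  have hn0 : (0 : ℝ) < n := by positivity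
  have hn1 : (1 : ℝ) < n := by exact_mod_cast hn
  have hp0 : 0 < (p : ℝ) := lt_trans (by positivity) hp'
  set g := (law d n p).real {ω | Good β (blk ω)} with hg
  have hgpos : 0 < g := law_Good_pos d n (by omega) p hp hp0 β
  set D : ℝ := d + Real.log p / Real.log n with hD
  set m : ℝ := (n : ℝ) ^ d * p with hm
  have hlogn : 0 < Real.log n := Real.log_pos hn1
  have hm1 : 1 < m := by
    rw [hm]
    rw [div_lt_iff₀ (by positivity)] at hp'
    linarith [hp', mul_comm (p : ℝ) ((n : ℝ) ^ d)]
  have hnD : (n : ℝ) ^ D = m := by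
    rw [hD, Real.rpow_add hn0, Real.rpow_natCast, hm]
    congr 1
    rw [Real.rpow_def_of_pos hn0, mul_div_cancel₀ _ hlogn.ne', Real.exp_log hp0]
  have hDpos : 0 < D := by
    by_contra h
    push Not at h
    have := Real.rpow_le_one_of_one_le_of_nonpos hn1.le h
    rw [hnD] at this
    linarith
  set θ : ℝ → ℝ := fun s => (m ^ 2 - (1 - (1 / 2 : ℝ) ^ s) * g) / ((n : ℝ) * n) ^ s with hθ
  have hcont : Continuous θ := by
    have h2 : ∀ s : ℝ, ((n : ℝ) * n) ^ s ≠ 0 := fun s => (Real.rpow_pos_of_pos (by positivity) s).ne'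
    apply Continuous.div
    · apply Continuous.sub continuous_const
      apply Continuous.mul _ continuous_const
      apply Continuous.sub continuous_const
      exact Real.continuous_const_rpow (by norm_num)
    · exact Real.continuous_const_rpow (by positivity)
    · exact h2
  have hθD : θ D < 1 := by
    have h1 : ((n : ℝ) * n) ^ D = m ^ 2 := by
      rw [Real.mul_rpow hn0.le hn0.le, hnD, sq]
    have h2 : (1 / 2 : ℝ) ^ D < 1 := Real.rpow_lt_one (by norm_num) (by norm_num) hDpos
    simp only [hθ]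
    rw [h1, div_lt_one (by positivity)]
    nlinarith
  have hev : ∀ᶠ s in 𝓝[<] D, θ s < 1 :=
    (hcont.continuousAt.eventually (gt_mem_nhds hθD)).filter_mono nhdsWithin_le_nhds
  have hev2 : ∀ᶠ s in 𝓝[<] D, s ∈ Ioo 0 D := Ioo_mem_nhdsLT hDpos
  obtain ⟨s, hs1, hs2, hs3⟩ := (hev.and hev2).exists
  refine ⟨s, hs2, hs3, ?_⟩
  apply ae_lt_top
  · exact Measurable.ennreal_tsum fun k => hM s k
  · rw [lintegral_tsum fun k => (hM s k).aemeasurable]
    simp_rw [hT2 s]
    rw [ENNReal.tsum_geometric]
    have h1 : ENNReal.ofReal (θ s) < 1 := by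
      rw [ENNReal.ofReal_lt_one]; exact hs1
    rw [ENNReal.inv_ne_top]
    exact (tsub_pos_of_lt h1).ne'

end Pool.Agent.R671.MP
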