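import Pool.Agent.R671.MP.Defs

/-!
# MP_c03e51_gt, piece T1: the shift law of an i.i.d. field on the tree of words
-/

open MeasureTheory Set Filter Topology
open scoped ENNReal NNReal

namespace Pool.Agent.R671.MP

namespace T1aux

variable {A K : Type}

/-- put the root and the subtrees together -/
def G (q : K × (A → List A → K)) : List A → K
  | [] => q.1
  | a :: w => q.2 a w

theorem measurable_G [MeasurableSpace K] : Measurable (G : K × (A → List A → K) → List A → K) := by
  rw [measurable_pi_iff]
  intro l
  cases l with
  | nil => exact measurable_fst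
  | cons a w =>
    exact (measurable_pi_apply w).comp ((measurable_pi_apply a).comp measurable_snd)

/-- the words `w` with `a :: w ∈ s` -/
noncomputable def pre (s : Finset (List A)) (a : A) : Finset (List A) :=
  s.preimage (fun w => a :: w) (by intro x _ y _ h; exact List.tail_eq_of_cons_eq h)

theorem mem_pre {s : Finset (List A)} {a : A} {w : List A} : w ∈ pre s a ↔ a :: w ∈ s :=
  Finset.mem_preimage

theorem prod_regroup [Fintype A] [DecidableEq A] (s : Finset (List A)) (g : List A → ℝ≥0∞) :
    ∏ i ∈ s, g i = (if [] ∈ s then g [] else 1) *
      ∏ a : A, ∏ w ∈ pre s a, g (a :: w) := by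
  classical
  rw [← Finset.prod_filter_mul_prod_filter_not s (fun l => l = [])]
  congr 1
  · by_cases h : [] ∈ s
    · rw [if_pos h]
      have : s.filter (fun l => l = []) = {[]} := by
        ext l
        simp only [Finset.mem_filter, Finset.mem_singleton]
        constructor
        · exact fun h => h.2
        · rintro rfl
          exact ⟨h, rfl⟩
      rw [this, Finset.prod_singleton]
    · rw [if_neg h]
      have : s.filter (fun l => l = []) = ∅ := by
        ext l
        simp only [Finset.mem_filter, Finset.notMem_empty, iff_false]
        rintro ⟨h1, rfl⟩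
        exact h h1
      rw [this, Finset.prod_empty]
  · rw [Finset.prod_sigma']
    symm
    refine Finset.prod_nbij (fun p => p.1 :: p.2) ?_ ?_ ?_ ?_
    · rintro ⟨a, w⟩ h
      simp only [Finset.mem_sigma, Finset.mem_univ, mem_pre, true_and] at h
      simp only [Finset.mem_filter]
      exact ⟨h, by simp⟩
    · rintro ⟨a, w⟩ _ ⟨a', w'⟩ _ h
      simp only [List.cons.injEq] at h
      obtain ⟨rfl, rfl⟩ := h
      rfl
    · intro l hl
      simp only [Finset.coe_filter, Set.mem_ofPred_eq] at hl
      obtain ⟨h1, h2⟩ := hl
      cases l with
      | nil => exact absurd rfl h2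
      | cons a w =>
        refine ⟨⟨a, w⟩, ?_, rfl⟩
        simp only [Finset.coe_sigma, Finset.coe_univ]
        exact ⟨trivial, mem_pre.2 h1⟩
    · intro p _
      rfl

end T1aux

open T1aux in
theorem T1 {A K : Type} [Fintype A] [MeasurableSpace K] (μ : Measure K) [IsProbabilityMeasure μ] :
    MeasurePreserving (fun ω : List A → K => (ω [], fun (a : A) (w : List A) => ω (a :: w)))
      (Measure.infinitePi fun _ : List A => μ)
      (μ.prod (Measure.pi fun _ : A => Measure.infinitePi fun _ : List A => μ)) := by
  classical
  set P := Measure.infinitePi fun _ : List A => μ with hP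
  set Q := μ.prod (Measure.pi fun _ : A => P) with hQ
  have hT : Measurable (fun ω : List A → K => (ω [], fun (a : A) (w : List A) => ω (a :: w))) := by
    refine (measurable_pi_apply _).prodMk ?_
    rw [measurable_pi_iff]
    intro a
    rw [measurable_pi_iff]
    intro w
    exact measurable_pi_apply _
  have hmap : Q.map G = P := by
    refine Measure.eq_infinitePi _ fun s t ht => ?_
    rw [Measure.map_apply measurable_G (MeasurableSet.pi s.countable_toSet fun i _ => ht i)]
    have hpre : G ⁻¹' (Set.pi (s : Set (List A)) t) =
        (if [] ∈ s then t [] else univ) ×ˢ Set.pi univ (fun a : A =>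
          Set.pi (pre s a : Set (List A)) (fun w => t (a :: w))) := by
      ext ⟨x, f⟩
      simp only [mem_preimage, Set.mem_pi, Finset.mem_coe, Set.mem_prod, mem_univ, true_implies,
        mem_pre]
      constructor
      · intro h
        refine ⟨?_, fun a w hw => h (a :: w) hw⟩
        by_cases h0 : [] ∈ s
        · rw [if_pos h0]
          exact h [] h0
        · rw [if_neg h0]
          trivial
      · rintro ⟨h1, h2⟩ l hl
        cases l with
        | nil =>
          rw [if_pos hl] at h1
          exact h1
        | cons a w => exact h2 a w hl
    rw [hpre, hQ, Measure.prod_prod, Measure.pi_pi, prod_regroup s (fun i => μ (t i))]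
    congr 1
    · split_ifs
      · rfl
      · exact measure_univ
    · refine Finset.prod_congr rfl fun a _ => ?_
      rw [hP, Measure.infinitePi_pi]
      intro w _
      exact ht _
  refine ⟨hT, ?_⟩
  rw [← hmap, Measure.map_map hT measurable_G]
  have hid : (fun ω : List A → K => (ω [], fun (a : A) (w : List A) => ω (a :: w))) ∘ G = id := by
    funext q
    rfl
  rw [hid, Measure.map_id]

end Pool.Agent.R671.MP
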