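import Pool.Agent.R671.MP.Base
import Pool.Agent.R671.MP.T1

/-! T4: the second moment method for the number of surviving cubes. -/

open MeasureTheory Set Filter Topology
open scoped ENNReal NNReal

namespace Pool.Agent.R671.MP

namespace T4P

variable {d n : ℕ}

/-! ### integrals over finite products -/

theorem int_pair {ι E : Type*} [Fintype ι] [DecidableEq ι] [MeasurableSpace E] (ν : Measure E)
    [IsProbabilityMeasure ν] (u v : E → ℝ) (a b : ι) (hab : a ≠ b) :
    ∫ x : ι → E, u (x a) * v (x b) ∂(Measure.pi fun _ => ν) = (∫ x, u x ∂ν) * ∫ x, v x ∂ν := by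
  have h := integral_fintype_prod_eq_prod (𝕜 := ℝ) (ι := ι) (E := fun _ => E) (μ := fun _ => ν)
    (fun i => if i = a then u else if i = b then v else fun _ => 1)
  have h1 : ∀ x : ι → E, ∏ i, (if i = a then u else if i = b then v else fun _ => 1) (x i) =
      u (x a) * v (x b) := by
    intro x
    rw [Finset.prod_eq_mul a b hab]
    · rw [if_pos rfl, if_neg hab.symm, if_pos rfl]
    · rintro c - ⟨h1, h2⟩
      rw [if_neg h1, if_neg h2]
    · simp
    · simp
  have h2 : ∏ i, ∫ x, (if i = a then u else if i = b then v else fun _ => 1) x ∂ν =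
      (∫ x, u x ∂ν) * ∫ x, v x ∂ν := by
    rw [Finset.prod_eq_mul a b hab]
    · rw [if_pos rfl, if_neg hab.symm, if_pos rfl]
    · rintro c - ⟨h1, h2⟩
      rw [if_neg h1, if_neg h2]
      simp
    · simp
    · simp
  simp only [h1] at h
  rw [h, h2]

theorem int_single {ι E : Type*} [Fintype ι] [DecidableEq ι] [MeasurableSpace E] (ν : Measure E)
    [IsProbabilityMeasure ν] (u : E → ℝ) (a : ι) :
    ∫ x : ι → E, u (x a) ∂(Measure.pi fun _ => ν) = ∫ x, u x ∂ν := by
  have h := integral_fintype_prod_eq_prod (𝕜 := ℝ) (ι := ι) (E := fun _ => E) (μ := fun _ => ν)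
    (fun i => if i = a then u else fun _ => 1)
  have h1 : ∀ x : ι → E, ∏ i, (if i = a then u else fun _ => 1) (x i) = u (x a) := by
    intro x
    rw [Finset.prod_eq_single a]
    · rw [if_pos rfl]
    · rintro c - h1
      rw [if_neg h1]
    · simp
  have h2 : ∏ i, ∫ x, (if i = a then u else fun _ => 1) x ∂ν = ∫ x, u x ∂ν := by
    rw [Finset.prod_eq_single a]
    · rw [if_pos rfl]
    · rintro c - h1
      rw [if_neg h1]
      simp
    · simp
  simp only [h1] at h
  rw [h, h2]

/-- `[t]` -/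
def br (t : Bool) : ℝ := if t = true then 1 else 0

theorem int_br (p : unitInterval) :
    ∫ t, br t ∂(ProbabilityTheory.bernoulliMeasure true false p) = p := by
  rw [ProbabilityTheory.integral_bernoulliMeasure]
  simp [br]

theorem int_root (p : unitInterval) (a : Fin d → Fin n) :
    ∫ x, br (x a) ∂(off d n p) = p := by
  rw [off, int_single, int_br]

theorem int_root2 (p : unitInterval) (a b : Fin d → Fin n) (hab : a ≠ b) :
    ∫ x, br (x a) * br (x b) ∂(off d n p) = p * p := by
  rw [off, int_pair _ _ _ _ _ hab, int_br]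

/-- splitting off the root -/
theorem int_split (p : unitInterval) (Φ : ((Fin d → Fin n) → Bool) → ℝ)
    (Ψ : ((Fin d → Fin n) → Conf d n) → ℝ) (hΨ : Measurable Ψ) :
    ∫ ω, Φ (ω []) * Ψ (fun a => shift a ω) ∂(law d n p) =
      (∫ x, Φ x ∂(off d n p)) * ∫ y, Ψ y ∂(Measure.pi fun _ => law d n p) := by
  have h := T1 (A := Fin d → Fin n) (K := (Fin d → Fin n) → Bool) (off d n p)
  rw [← integral_prod_mul, law, ← h.map_eq, integral_map]
  · rfl
  · exact h.measurable.aemeasurable
  · have hΦ : Measurable Φ := measurable_of_finite Φ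
    exact ((hΦ.comp measurable_fst).mul (hΨ.comp measurable_snd)).aestronglyMeasurable

/-- the real version of `Zs` -/
noncomputable def Zr (k : ℕ) (ω : Conf d n) : ℝ := (Zs k ω : ℝ)

theorem Zr_nonneg (k : ℕ) (ω : Conf d n) : 0 ≤ Zr k ω := Nat.cast_nonneg _

theorem measurable_Zr (k : ℕ) : Measurable (Zr k : Conf d n → ℝ) :=
  (measurable_from_nat (f := fun m : ℕ => (m : ℝ))).comp (measurable_Zs k)

theorem Zr_succ (k : ℕ) (ω : Conf d n) :
    Zr (k + 1) ω = ∑ a : Fin d → Fin n, br (ω [] a) * Zr k (shift a ω) := by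
  classical
  rw [Zr, Zs]
  push_cast
  refine Finset.sum_congr rfl fun a _ => ?_
  unfold br Zr
  split_ifs <;> simp

theorem br_nonneg (t : Bool) : 0 ≤ br t := by unfold br; split_ifs <;> norm_num
theorem br_le (t : Bool) : br t ≤ 1 := by unfold br; split_ifs <;> norm_num
theorem br_sq (t : Bool) : br t * br t = br t := by unfold br; split_ifs <;> norm_num

theorem Zr_le (k : ℕ) (ω : Conf d n) : Zr k ω ≤ ((n : ℝ) ^ d) ^ k := by
  classical
  induction k generalizing ω with
  | zero =>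
    rw [Zr, Zs]
    split_ifs <;> simp
  | succ k ih =>
    rw [Zr_succ]
    calc ∑ a : Fin d → Fin n, br (ω [] a) * Zr k (shift a ω)
        ≤ ∑ a : Fin d → Fin n, ((n : ℝ) ^ d) ^ k := by
          refine Finset.sum_le_sum fun a _ => ?_
          calc br (ω [] a) * Zr k (shift a ω) ≤ 1 * Zr k (shift a ω) :=
                mul_le_mul_of_nonneg_right (br_le _) (Zr_nonneg _ _)
            _ ≤ ((n : ℝ) ^ d) ^ k := by rw [one_mul]; exact ih _
      _ = ((n : ℝ) ^ d) ^ (k + 1) := by
          rw [Finset.sum_const, Finset.card_univ]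
          simp [pow_succ]
          ring

variable (p : unitInterval)

theorem integrable_bdd {f : Conf d n → ℝ} (hf : Measurable f) (C : ℝ) (hC : ∀ ω, |f ω| ≤ C) :
    Integrable f (law d n p) :=
  Integrable.of_bound hf.aestronglyMeasurable C (Filter.Eventually.of_forall fun ω => hC ω)

theorem int_one (g : Conf d n → ℝ) (hg : Measurable g) (a : Fin d → Fin n) :
    ∫ ω, br (ω [] a) * g (shift a ω) ∂(law d n p) = p * ∫ ω, g ω ∂(law d n p) := by
  classical
  have h := int_split p (fun x => br (x a)) (fun y => g (y a)) (hg.comp (measurable_pi_apply a))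
  rw [h, int_root, int_single (law d n p) g a]

theorem int_two (g : Conf d n → ℝ) (hg : Measurable g) (a b : Fin d → Fin n) (hab : a ≠ b) :
    ∫ ω, (br (ω [] a) * g (shift a ω)) * (br (ω [] b) * g (shift b ω)) ∂(law d n p) =
      (p * p) * ((∫ ω, g ω ∂(law d n p)) * ∫ ω, g ω ∂(law d n p)) := by
  classical
  have h := int_split p (fun x => br (x a) * br (x b)) (fun y => g (y a) * g (y b))
    ((hg.comp (measurable_pi_apply a)).mul (hg.comp (measurable_pi_apply b)))
  rw [int_root2 p a b hab, int_pair (law d n p) g g a b hab] at h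
  rw [← h]
  refine integral_congr_ae (Filter.Eventually.of_forall fun ω => ?_)
  simp only
  ring

/-- first moment -/
noncomputable def uu (d n : ℕ) (p : unitInterval) (k : ℕ) : ℝ := ∫ ω, Zr k ω ∂(law d n p)
/-- second moment -/
noncomputable def vv (d n : ℕ) (p : unitInterval) (k : ℕ) : ℝ := ∫ ω, Zr k ω * Zr k ω ∂(law d n p)

theorem measurable_term (g : Conf d n → ℝ) (hg : Measurable g) (a : Fin d → Fin n) :
    Measurable fun ω : Conf d n => br (ω [] a) * g (shift a ω) := by
  have h1 : Measurable fun ω : Conf d n => br (ω [] a) :=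
    (measurable_of_finite br).comp (measurable_root a)
  exact h1.mul (hg.comp (measurable_shift a))

theorem term_bdd (k : ℕ) (a : Fin d → Fin n) (ω : Conf d n) :
    |br (ω [] a) * Zr k (shift a ω)| ≤ ((n : ℝ) ^ d) ^ k := by
  rw [abs_of_nonneg (mul_nonneg (br_nonneg _) (Zr_nonneg _ _))]
  calc br (ω [] a) * Zr k (shift a ω) ≤ 1 * Zr k (shift a ω) :=
        mul_le_mul_of_nonneg_right (br_le _) (Zr_nonneg _ _)
    _ ≤ ((n : ℝ) ^ d) ^ k := by rw [one_mul]; exact Zr_le _ _

theorem uu_succ (k : ℕ) : uu d n p (k + 1) = ((n : ℝ) ^ d * p) * uu d n p k := by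
  unfold uu
  simp only [Zr_succ]
  rw [integral_finsetSum]
  · simp only [int_one p _ (measurable_Zr k)]
    rw [Finset.sum_const, Finset.card_univ]
    simp
    ring
  · intro a _
    exact integrable_bdd p (measurable_term _ (measurable_Zr k) a) _ (term_bdd k a)

theorem vv_succ (k : ℕ) : vv d n p (k + 1) ≤ ((n : ℝ) ^ d * p) * vv d n p k +
    ((n : ℝ) ^ d * p) ^ 2 * (uu d n p k) ^ 2 := by
  classical
  unfold vv
  simp only [Zr_succ]
  have hint : ∀ a b : Fin d → Fin n, Integrable (fun ω : Conf d n =>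
      (br (ω [] a) * Zr k (shift a ω)) * (br (ω [] b) * Zr k (shift b ω))) (law d n p) := by
    intro a b
    refine integrable_bdd p ((measurable_term _ (measurable_Zr k) a).mul
      (measurable_term _ (measurable_Zr k) b)) (((n : ℝ) ^ d) ^ k * ((n : ℝ) ^ d) ^ k) ?_
    intro ω
    rw [abs_mul]
    exact mul_le_mul (term_bdd k a ω) (term_bdd k b ω) (abs_nonneg _) (by positivity)
  have h1 : ∀ ω : Conf d n, (∑ a : Fin d → Fin n, br (ω [] a) * Zr k (shift a ω)) *
      (∑ b : Fin d → Fin n, br (ω [] b) * Zr k (shift b ω)) =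
      ∑ a : Fin d → Fin n, ∑ b : Fin d → Fin n,
        (br (ω [] a) * Zr k (shift a ω)) * (br (ω [] b) * Zr k (shift b ω)) := by
    intro ω
    rw [Finset.sum_mul_sum]
  simp only [h1]
  rw [integral_finsetSum _ fun a _ => integrable_finsetSum _ fun b _ => hint a b]
  have h2 : ∀ a : Fin d → Fin n, ∫ ω : Conf d n, ∑ b : Fin d → Fin n,
      (br (ω [] a) * Zr k (shift a ω)) * (br (ω [] b) * Zr k (shift b ω)) ∂(law d n p) =
      ∑ b : Fin d → Fin n, ∫ ω : Conf d n,
        (br (ω [] a) * Zr k (shift a ω)) * (br (ω [] b) * Zr k (shift b ω)) ∂(law d n p) :=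
    fun a => integral_finsetSum _ fun b _ => hint a b
  simp only [h2]
  have hp0 : (0 : ℝ) ≤ p := p.2.1
  have h3 : ∀ a b : Fin d → Fin n, ∫ ω : Conf d n,
        (br (ω [] a) * Zr k (shift a ω)) * (br (ω [] b) * Zr k (shift b ω)) ∂(law d n p) ≤
      (if a = b then p * vv d n p k else 0) + (p * p) * (uu d n p k * uu d n p k) := by
    intro a b
    by_cases hab : a = b
    · subst hab
      rw [if_pos rfl]
      have h4 : ∫ ω : Conf d n, (br (ω [] a) * Zr k (shift a ω)) * (br (ω [] a) * Zr k (shift a ω))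
          ∂(law d n p) = p * vv d n p k := by
        unfold vv
        rw [← int_one p (fun ω => Zr k ω * Zr k ω) ((measurable_Zr k).mul (measurable_Zr k)) a]
        refine integral_congr_ae (Filter.Eventually.of_forall fun ω => ?_)
        simp only
        have := br_sq (ω [] a)
        calc br (ω [] a) * Zr k (shift a ω) * (br (ω [] a) * Zr k (shift a ω)) =
            (br (ω [] a) * br (ω [] a)) * (Zr k (shift a ω) * Zr k (shift a ω)) := by ring
          _ = _ := by rw [this]
      rw [h4]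
      have : 0 ≤ (p : ℝ) * p * (uu d n p k * uu d n p k) :=
        mul_nonneg (mul_nonneg hp0 hp0) (mul_self_nonneg _)
      linarith
    · rw [if_neg hab, zero_add, int_two p _ (measurable_Zr k) a b hab]
      rfl
  calc _ ≤ ∑ a : Fin d → Fin n, ∑ b : Fin d → Fin n,
        ((if a = b then p * vv d n p k else 0) + (p * p) * (uu d n p k * uu d n p k)) :=
        Finset.sum_le_sum fun a _ => Finset.sum_le_sum fun b _ => h3 a b
    _ = _ := by
        simp only [Finset.sum_add_distrib, Finset.sum_ite_eq, Finset.mem_univ, if_true, Finset.sum_const,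
          Finset.card_univ]
        simp [vv]
        ring

theorem uu_eq (k : ℕ) : uu d n p k = ((n : ℝ) ^ d * p) ^ k * uu d n p 0 := by
  induction k with
  | zero => simp
  | succ k ih => rw [uu_succ, ih]; ring

theorem uu_zero : uu d n p 0 = (law d n p).real {ω | surv ω} := by
  classical
  unfold uu
  have h1 : ∀ ω : Conf d n, Zr 0 ω = Set.indicator {ω : Conf d n | surv ω} (fun _ => (1 : ℝ)) ω := by
    intro ω
    rw [Zr, Zs, Set.indicator_apply]
    simp only [Set.mem_ofPred_eq]
    split_ifs <;> simp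
  simp only [h1]
  rw [integral_indicator measurableSet_surv]
  simp

theorem vv_zero_le : vv d n p 0 ≤ 1 := by
  have h : vv d n p 0 ≤ ∫ _ω : Conf d n, (1 : ℝ) ∂(law d n p) := by
    unfold vv
    have hb : ∀ ω : Conf d n, Zr 0 ω ≤ 1 := fun ω => by simpa using Zr_le 0 ω
    refine integral_mono ?_ (integrable_const _) ?_
    · refine integrable_bdd p ((measurable_Zr 0).mul (measurable_Zr 0)) 1 ?_
      intro ω
      rw [abs_of_nonneg (mul_self_nonneg _)]
      nlinarith [hb ω, Zr_nonneg 0 ω]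
    · intro ω
      simp only
      nlinarith [hb ω, Zr_nonneg 0 ω]
  simpa using h

theorem vv_le (hm : 1 < (n : ℝ) ^ d * p) (k : ℕ) :
    vv d n p k ≤ ((n : ℝ) ^ d * p) / ((n : ℝ) ^ d * p - 1) * (((n : ℝ) ^ d * p) ^ k) ^ 2 := by
  have hu0 : uu d n p 0 ≤ 1 := by rw [uu_zero]; exact measureReal_le_one
  have hu0' : 0 ≤ uu d n p 0 := by rw [uu_zero]; exact measureReal_nonneg
  have hu : ∀ k, (uu d n p k) ^ 2 ≤ (((n : ℝ) ^ d * p) ^ k) ^ 2 := by
    intro k
    rw [uu_eq]
    have : 0 ≤ ((n : ℝ) ^ d * p) ^ k := by positivity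
    rw [mul_pow]
    nlinarith [sq_nonneg (((n : ℝ) ^ d * p) ^ k), pow_le_one₀ (n := 2) hu0' hu0]
  set m := (n : ℝ) ^ d * p with hmdef
  have hm1 : 0 < m - 1 := by linarith
  induction k with
  | zero =>
    refine (vv_zero_le p).trans ?_
    simp only [pow_zero, one_pow, mul_one]
    rw [le_div_iff₀ hm1]
    linarith
  | succ k ih =>
    have h1 := vv_succ (d := d) (n := n) p k
    rw [← hmdef] at h1
    have h2 := hu k
    have h3 : m * vv d n p k ≤ m * (m / (m - 1) * (m ^ k) ^ 2) :=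
      mul_le_mul_of_nonneg_left ih (by linarith)
    have h4 : m ^ 2 * (uu d n p k) ^ 2 ≤ m ^ 2 * (m ^ k) ^ 2 :=
      mul_le_mul_of_nonneg_left h2 (by positivity)
    have h5 : m * (m / (m - 1) * (m ^ k) ^ 2) + m ^ 2 * (m ^ k) ^ 2 =
        m / (m - 1) * (m ^ (k + 1)) ^ 2 := by
      rw [pow_succ]
      field_simp
      ring
    linarith

theorem ind_int {B : Set (Conf d n)} (hB : MeasurableSet B) :
    ∫ ω, Set.indicator B (fun _ => (1 : ℝ)) ω ∂(law d n p) = (law d n p).real B := by
  rw [integral_indicator hB]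
  simp

theorem key (hm : 1 < (n : ℝ) ^ d * p) {t ε : ℝ} (ht : 0 < t) (hε : 0 < ε) (N k : ℕ)
    {B : Set (Conf d n)} (hB : MeasurableSet B) (hBN : ∀ ω ∈ B, Zr k ω ≤ N * t ^ k) :
    uu d n p 0 * ((n : ℝ) ^ d * p) ^ k ≤ N * t ^ k +
      ε * (((n : ℝ) ^ d * p) / ((n : ℝ) ^ d * p - 1)) / 2 * ((n : ℝ) ^ d * p) ^ k +
      ((n : ℝ) ^ d * p) ^ k / (2 * ε) * (law d n p).real Bᶜ := by
  have hv := vv_le (d := d) (n := n) p hm k
  have hu := uu_eq (d := d) (n := n) p k
  set m := (n : ℝ) ^ d * p with hmdef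
  set K := m / (m - 1) with hK
  have hmk : 0 < m ^ k := pow_pos (by linarith) _
  have hpt : ∀ ω : Conf d n, Zr k ω ≤ (N * t ^ k + ε / (2 * m ^ k) * (Zr k ω * Zr k ω)) +
      m ^ k / (2 * ε) * Set.indicator Bᶜ (fun _ => (1 : ℝ)) ω := by
    intro ω
    have h0 := Zr_nonneg k ω
    have h1 : 0 ≤ ε / (2 * m ^ k) * (Zr k ω * Zr k ω) :=
      mul_nonneg (by positivity) (mul_self_nonneg _)
    have h2 : 0 ≤ (N : ℝ) * t ^ k := by positivity
    by_cases hω : ω ∈ B
    · have h3 : Set.indicator Bᶜ (fun _ => (1 : ℝ)) ω = 0 := by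
        rw [Set.indicator_of_notMem]
        simpa using hω
      rw [h3]
      have := hBN ω hω
      linarith
    · have h3 : Set.indicator Bᶜ (fun _ => (1 : ℝ)) ω = 1 := by
        rw [Set.indicator_of_mem]
        exact hω
      rw [h3, mul_one]
      have h4 : Zr k ω ≤ ε / (2 * m ^ k) * (Zr k ω * Zr k ω) + m ^ k / (2 * ε) := by
        have h5 : ε / (2 * m ^ k) * (Zr k ω * Zr k ω) + m ^ k / (2 * ε) - Zr k ω =
            (ε * Zr k ω - m ^ k) ^ 2 / (2 * ε * m ^ k) := by
          field_simp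
          ring
        have h6 : 0 ≤ (ε * Zr k ω - m ^ k) ^ 2 / (2 * ε * m ^ k) := by positivity
        linarith
      linarith
  have hi1 : Integrable (fun ω : Conf d n => Zr k ω) (law d n p) :=
    integrable_bdd p (measurable_Zr k) (((n : ℝ) ^ d) ^ k) fun ω => by
      rw [abs_of_nonneg (Zr_nonneg _ _)]; exact Zr_le _ _
  have hi2 : Integrable (fun ω : Conf d n => Zr k ω * Zr k ω) (law d n p) :=
    integrable_bdd p ((measurable_Zr k).mul (measurable_Zr k)) (((n : ℝ) ^ d) ^ k * ((n : ℝ) ^ d) ^ k) fun ω => by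
      rw [abs_of_nonneg (mul_self_nonneg _)]
      exact mul_le_mul (Zr_le _ _) (Zr_le _ _) (Zr_nonneg _ _) (by positivity)
  have hi3 : Integrable (fun ω : Conf d n => Set.indicator Bᶜ (fun _ => (1 : ℝ)) ω) (law d n p) :=
    (integrable_const (1 : ℝ)).indicator hB.compl
  have hi4 : Integrable (fun ω : Conf d n => N * t ^ k + ε / (2 * m ^ k) * (Zr k ω * Zr k ω))
      (law d n p) := (integrable_const _).add (hi2.const_mul _)
  have h1 : uu d n p k ≤ ∫ ω : Conf d n, ((N * t ^ k + ε / (2 * m ^ k) * (Zr k ω * Zr k ω)) +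
      m ^ k / (2 * ε) * Set.indicator Bᶜ (fun _ => (1 : ℝ)) ω) ∂(law d n p) := by
    unfold uu
    exact integral_mono hi1 (hi4.add (hi3.const_mul _)) hpt
  rw [integral_add hi4 (hi3.const_mul _), integral_add (integrable_const _) (hi2.const_mul _),
    integral_const_mul (ε / (2 * m ^ k)), integral_const_mul (m ^ k / (2 * ε)), ind_int p hB.compl,
    integral_const] at h1
  have h2 : ε / (2 * m ^ k) * ∫ ω : Conf d n, Zr k ω * Zr k ω ∂(law d n p) ≤ ε * K / 2 * m ^ k := by
    have h3 : ε / (2 * m ^ k) * ∫ ω : Conf d n, Zr k ω * Zr k ω ∂(law d n p) ≤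
        ε / (2 * m ^ k) * (K * (m ^ k) ^ 2) := mul_le_mul_of_nonneg_left hv (by positivity)
    have h4 : ε / (2 * m ^ k) * (K * (m ^ k) ^ 2) = ε * K / 2 * m ^ k := by
      field_simp
    linarith
  rw [hu] at h1
  simp only [probReal_univ, one_smul] at h1
  linarith

end T4P

open T4P in
theorem T4 (d n : ℕ) (hd : 1 ≤ d) (hn : 2 ≤ n) (p : unitInterval) (hp : (p : ℝ) < 1)
    (hp' : 1 / (n : ℝ) ^ d < p) (s : ℝ) (hs : s < d + Real.log p / Real.log n)
    (hsurv : law d n p {ω | surv ω} ≠ 0) :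
    law d n p {ω | Tame s ω} ≠ 1 := by
  intro htame
  have hn1 : (1 : ℝ) < n := by exact_mod_cast hn
  have hn0 : (0 : ℝ) < n := by linarith
  have hnd : (0 : ℝ) < (n : ℝ) ^ d := by positivity
  have hp0 : (0 : ℝ) < p := lt_of_le_of_lt (by positivity) hp'
  have hm : 1 < (n : ℝ) ^ d * p := by
    rw [div_lt_iff₀ hnd] at hp'
    linarith
  have ht : 0 < (n : ℝ) ^ s := Real.rpow_pos_of_pos hn0 s
  have htm : (n : ℝ) ^ s < (n : ℝ) ^ d * p := by
    calc (n : ℝ) ^ s < (n : ℝ) ^ ((d : ℝ) + Real.log p / Real.log n) :=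
          Real.rpow_lt_rpow_of_exponent_lt hn1 hs
      _ = (n : ℝ) ^ d * p := by
          rw [Real.rpow_add hn0, Real.rpow_natCast, Real.log_div_log, Real.rpow_logb hn0 (ne_of_gt hn1) hp0]
  have hq : 0 < uu d n p 0 := by
    rw [uu_zero]
    exact lt_of_le_of_ne measureReal_nonneg (fun h => hsurv (by
      have h' := h.symm
      rw [measureReal_eq_zero_iff] at h'
      exact h'))
  have hKpos : 0 < ((n : ℝ) ^ d * p) / ((n : ℝ) ^ d * p - 1) := div_pos (by linarith) (by linarith)
  -- the sets B N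
  let B : ℕ → Set (Conf d n) := fun N => ⋂ k : ℕ, {ω | Zr k ω ≤ N * ((n : ℝ) ^ s) ^ k}
  have hBm : ∀ N, MeasurableSet (B N) := fun N =>
    MeasurableSet.iInter fun k => measurableSet_le (measurable_Zr k) measurable_const
  have hBmono : Monotone B := by
    intro N N' hNN ω hω
    simp only [B, Set.mem_iInter] at hω ⊢
    intro k
    have h1 := hω k
    have h2 : (N : ℝ) ≤ N' := by exact_mod_cast hNN
    have h3 : (N : ℝ) * ((n : ℝ) ^ s) ^ k ≤ N' * ((n : ℝ) ^ s) ^ k :=
      mul_le_mul_of_nonneg_right h2 (by positivity)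
    exact le_trans h1 h3
  have hBU : ⋃ N, B N = {ω | Tame s ω} := by
    ext ω
    simp only [B, Set.mem_iUnion, Set.mem_iInter]
    exact (Tame_iff_nat s ω).symm
  have hlim : Tendsto (fun N => law d n p (B N)) atTop (𝓝 1) := by
    rw [← htame, ← hBU]
    exact tendsto_measure_iUnion_atTop hBmono
  set q := uu d n p 0 with hqdef
  set K := ((n : ℝ) ^ d * p) / ((n : ℝ) ^ d * p - 1) with hKdef
  set ε : ℝ := q / (2 * K) with hεdef
  have hε : 0 < ε := by positivity
  -- choose N with P(B N)ᶜ small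
  have hlim2 : Tendsto (fun N => (law d n p).real (B N)ᶜ) atTop (𝓝 0) := by
    have h1 : ∀ N, (law d n p).real (B N)ᶜ = 1 - (law d n p).real (B N) := fun N =>
      probReal_compl_eq_one_sub (hBm N)
    simp only [h1]
    have h2 : Tendsto (fun N => (law d n p).real (B N)) atTop (𝓝 1) := by
      exact (ENNReal.tendsto_toReal ENNReal.one_ne_top).comp hlim
    have h3 : Tendsto (fun N => 1 - (law d n p).real (B N)) atTop (𝓝 (1 - 1)) :=
      tendsto_const_nhds.sub h2
    rwa [sub_self] at h3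
  obtain ⟨N, hN⟩ := (hlim2.eventually (gt_mem_nhds (show (0 : ℝ) < q * ε / 2 by positivity))).exists
  have hkey : ∀ k : ℕ, q / 2 * ((n : ℝ) ^ d * p) ^ k ≤ N * ((n : ℝ) ^ s) ^ k := by
    intro k
    have h1 := key (d := d) (n := n) p hm ht hε N k (hBm N) (fun ω hω => by
      simp only [B, Set.mem_iInter] at hω
      exact hω k)
    rw [← hqdef, ← hKdef] at h1
    have hmk : 0 < ((n : ℝ) ^ d * p) ^ k := pow_pos (by linarith) _
    have h2 : ε * K / 2 = q / 4 := by
      rw [hεdef]; field_simp; ring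
    have h3 : ((n : ℝ) ^ d * p) ^ k / (2 * ε) * (law d n p).real (B N)ᶜ ≤
        ((n : ℝ) ^ d * p) ^ k / (2 * ε) * (q * ε / 2) :=
      mul_le_mul_of_nonneg_left hN.le (by positivity)
    have h4 : ((n : ℝ) ^ d * p) ^ k / (2 * ε) * (q * ε / 2) = q / 4 * ((n : ℝ) ^ d * p) ^ k := by
      field_simp
      ring
    rw [h2] at h1
    linarith
  obtain ⟨k, hk⟩ := pow_unbounded_of_one_lt ((N : ℝ) / (q / 2))
    (show 1 < ((n : ℝ) ^ d * p) / (n : ℝ) ^ s by rwa [one_lt_div ht])
  have h1 := hkey k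
  rw [div_pow, div_lt_div_iff₀ (by positivity) (by positivity)] at hk
  linarith

end Pool.Agent.R671.MP
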