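import Pool.Agent.R671.MP.T1

/-!
# MP_c03e51_gt, piece T5: zero-one law for the growth of the numbers of surviving cubes
-/

set_option autoImplicit false

open MeasureTheory Set Filter Topology
open scoped ENNReal NNReal

namespace Pool.Agent.R671.MP

namespace ZO

variable {d n : ℕ}

theorem meas_shift (a : Fin d → Fin n) : Measurable (shift a : Conf d n → Conf d n) :=
  measurable_pi_lambda _ (fun v => measurable_pi_apply (a :: v))

theorem meas_root (a : Fin d → Fin n) : MeasurableSet {ω : Conf d n | ω [] a = true} := by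
  have h : Measurable (fun ω : Conf d n => ω [] a) :=
    (measurable_pi_apply a).comp (measurable_pi_apply [])
  exact h (measurableSet_singleton true)

theorem meas_kept (w : List (Fin d → Fin n)) : MeasurableSet {ω : Conf d n | kept ω w} := by
  induction w with
  | nil => exact MeasurableSet.univ
  | cons a w ih => exact (meas_root a).inter (meas_shift a ih)

theorem meas_surv : MeasurableSet {ω : Conf d n | surv ω} := by
  have e : {ω : Conf d n | surv ω} = ⋂ k : ℕ, ⋃ w : List (Fin d → Fin n),
      ({_ω : Conf d n | w.length = k} ∩ {ω : Conf d n | kept ω w}) := by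
    ext ω
    simp only [mem_iInter, mem_iUnion]
    exact Iff.rfl
  rw [e]
  exact MeasurableSet.iInter fun k => MeasurableSet.iUnion fun w =>
    (MeasurableSet.const _).inter (meas_kept w)

theorem meas_Zs (k : ℕ) : Measurable (Zs k : Conf d n → ℕ) := by
  classical
  induction k with
  | zero =>
    have : (Zs 0 : Conf d n → ℕ) = fun ω => if surv ω then 1 else 0 := by
      funext ω
      simp only [Zs]
    rw [this]
    exact Measurable.ite meas_surv measurable_const measurable_const
  | succ k ih =>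
    have : (Zs (k + 1) : Conf d n → ℕ) = fun ω => ∑ a : Fin d → Fin n,
        if ω [] a = true then Zs k (shift a ω) else 0 := by
      funext ω
      simp only [Zs]
    rw [this]
    exact Finset.measurable_sum _ fun a _ =>
      Measurable.ite (meas_root a) (ih.comp (meas_shift a)) measurable_const

theorem pos_pow (s : ℝ) (k : ℕ) : 0 ≤ ((n : ℝ) ^ s) ^ k :=
  pow_nonneg (Real.rpow_nonneg (Nat.cast_nonneg n) s) k

theorem meas_Tame (s : ℝ) : MeasurableSet {ω : Conf d n | Tame s ω} := by
  have e : {ω : Conf d n | Tame s ω} = ⋃ C : ℕ, ⋂ k : ℕ,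
      {ω : Conf d n | (Zs k ω : ℝ) ≤ (C : ℝ) * ((n : ℝ) ^ s) ^ k} := by
    ext ω
    simp only [mem_iUnion, mem_iInter]
    constructor
    · rintro ⟨C, hC⟩
      obtain ⟨m, hm⟩ := exists_nat_ge C
      exact ⟨m, fun k => (hC k).trans (mul_le_mul_of_nonneg_right hm (pos_pow s k))⟩
    · rintro ⟨C, hC⟩
      exact ⟨C, hC⟩
  rw [e]
  refine MeasurableSet.iUnion fun C => MeasurableSet.iInter fun k => ?_
  have h : Measurable (fun ω : Conf d n => (Zs k ω : ℝ)) :=
    (measurable_from_nat (f := fun m : ℕ => (m : ℝ))).comp (meas_Zs k)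
  exact measurableSet_le h measurable_const

/-! ### Recursions -/

theorem Zs_succ (k : ℕ) (ω : Conf d n) [∀ a, Decidable (ω [] a = true)] :
    Zs (k + 1) ω = ∑ a : Fin d → Fin n, if ω [] a = true then Zs k (shift a ω) else 0 := by
  rw [Zs]
  refine Finset.sum_congr rfl fun a _ => ?_
  congr 1

theorem Zs_zero_le (ω : Conf d n) : Zs 0 ω ≤ 1 := by
  rw [Zs]
  split_ifs <;> norm_num

theorem Tame_iff (s : ℝ) (hn : 2 ≤ n) (ω : Conf d n) :
    Tame s ω ↔ ∀ a, ω [] a = true → Tame s (shift a ω) := by
  classical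
  have hn0 : (0 : ℝ) < (n : ℝ) ^ s := Real.rpow_pos_of_pos (by exact_mod_cast (by omega : 0 < n)) s
  constructor
  · rintro ⟨C, hC⟩ a ha
    refine ⟨C * (n : ℝ) ^ s, fun k => ?_⟩
    have h1 : Zs k (shift a ω) ≤ Zs (k + 1) ω := by
      rw [Zs_succ]
      have := Finset.single_le_sum (f := fun a : Fin d → Fin n =>
        if ω [] a = true then Zs k (shift a ω) else 0) (fun _ _ => Nat.zero_le _)
        (Finset.mem_univ a)
      simp only [ha, if_true] at this
      exact this
    have h2 := hC (k + 1)
    have h3 : ((Zs k (shift a ω) : ℕ) : ℝ) ≤ Zs (k + 1) ω := by exact_mod_cast h1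
    calc ((Zs k (shift a ω) : ℕ) : ℝ) ≤ C * ((n : ℝ) ^ s) ^ (k + 1) := h3.trans h2
      _ = C * (n : ℝ) ^ s * ((n : ℝ) ^ s) ^ k := by rw [pow_succ]; ring
  · intro h
    have h' : ∀ a, ∃ C : ℝ, 0 ≤ C ∧ (ω [] a = true → ∀ k : ℕ,
        (Zs k (shift a ω) : ℝ) ≤ C * ((n : ℝ) ^ s) ^ k) := by
      intro a
      by_cases ha : ω [] a = true
      · obtain ⟨C, hC⟩ := h a ha
        exact ⟨max C 0, le_max_right _ _, fun _ k =>
          (hC k).trans (mul_le_mul_of_nonneg_right (le_max_left _ _) (pos_pow s k))⟩
      · exact ⟨0, le_rfl, fun h0 => absurd h0 ha⟩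
    choose C hC0 hC using h'
    refine ⟨1 + (∑ a, C a) / (n : ℝ) ^ s, fun k => ?_⟩
    have hS : 0 ≤ (∑ a, C a) := Finset.sum_nonneg fun a _ => hC0 a
    have hS2 : 0 ≤ (∑ a, C a) / (n : ℝ) ^ s := div_nonneg hS hn0.le
    cases k with
    | zero =>
      have h1 : ((Zs 0 ω : ℕ) : ℝ) ≤ 1 := by exact_mod_cast Zs_zero_le ω
      rw [pow_zero, mul_one]
      linarith
    | succ k =>
      rw [Zs_succ]
      push_cast
      have h1 : ∑ a : Fin d → Fin n, ((if ω [] a = true then Zs k (shift a ω) else 0 : ℕ) : ℝ) ≤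
          ∑ a, C a * ((n : ℝ) ^ s) ^ k := by
        refine Finset.sum_le_sum fun a _ => ?_
        split_ifs with ha
        · exact hC a ha k
        · rw [Nat.cast_zero]
          exact mul_nonneg (hC0 a) (pos_pow s k)
      push_cast at h1
      refine h1.trans ?_
      rw [← Finset.sum_mul]
      have h2 : (1 + (∑ a, C a) / (n : ℝ) ^ s) * ((n : ℝ) ^ s) ^ (k + 1) =
          ((n : ℝ) ^ s) ^ (k + 1) + (∑ a, C a) * ((n : ℝ) ^ s) ^ k := by
        rw [pow_succ]
        field_simp
      rw [h2]
      have := pos_pow (n := n) s (k + 1)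
      linarith

theorem kept_take (ω : Conf d n) (w : List (Fin d → Fin n)) (k : ℕ) (h : kept ω w) :
    kept ω (w.take k) := by
  induction w generalizing ω k with
  | nil => simp [kept]
  | cons a w ih =>
    cases k with
    | zero => simp [kept]
    | succ k => exact ⟨h.1, ih (shift a ω) k h.2⟩

theorem not_surv_iff (ω : Conf d n) :
    ¬ surv ω ↔ ∀ a, ω [] a = true → ¬ surv (shift a ω) := by
  classical
  constructor
  · intro h a ha hs
    apply h
    intro k
    cases k with
    | zero => exact ⟨[], rfl, trivial⟩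
    | succ k =>
      obtain ⟨w, hw, hk⟩ := hs k
      exact ⟨a :: w, by simp [hw], ha, hk⟩
  · intro h hs
    have h' : ∀ a, ∃ K : ℕ, ω [] a = true → ∀ w : List (Fin d → Fin n), w.length = K →
        ¬ kept (shift a ω) w := by
      intro a
      by_cases ha : ω [] a = true
      · have := h a ha
        unfold surv at this
        push Not at this
        obtain ⟨K, hK⟩ := this
        exact ⟨K, fun _ w hw => hK w hw⟩
      · exact ⟨0, fun h0 => absurd h0 ha⟩
    choose K hK using h'
    obtain ⟨w, hw, hk⟩ := hs ((∑ a, K a) + 1)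
    cases w with
    | nil => simp at hw
    | cons a w =>
      have hlen : w.length = ∑ a, K a := by simpa using hw
      have hle : K a ≤ ∑ a, K a :=
        Finset.single_le_sum (f := K) (fun _ _ => Nat.zero_le _) (Finset.mem_univ a)
      refine hK a hk.1 (w.take (K a)) ?_ (kept_take _ _ _ hk.2)
      rw [List.length_take, hlen]
      exact min_eq_left hle

theorem Zs_eq_zero (k : ℕ) : ∀ ω : Conf d n, ¬ surv ω → Zs k ω = 0 := by
  classical
  induction k with
  | zero =>
    intro ω h
    rw [Zs, if_neg h]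
  | succ k ih =>
    intro ω h
    rw [Zs_succ]
    refine Finset.sum_eq_zero fun a _ => ?_
    split_ifs with ha
    · exact ih _ ((not_surv_iff ω).1 h a ha)
    · rfl

theorem Tame_of_not_surv (s : ℝ) (ω : Conf d n) (h : ¬ surv ω) : Tame s ω := by
  refine ⟨0, fun k => ?_⟩
  rw [Zs_eq_zero k ω h]
  simp

/-! ### The generating function -/

theorem meas_all (p : unitInterval) (E : Set (Conf d n)) (hE : MeasurableSet E) :
    (law d n p).real {ω | ∀ a, ω [] a = true → shift a ω ∈ E} =
      ((p : ℝ) * (law d n p).real E + (1 - p)) ^ (n ^ d) := by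
  let R : Set (Bool × Conf d n) := {q | q.1 = true → q.2 ∈ E}
  have hR : MeasurableSet R := by
    have e : R = (Prod.fst ⁻¹' {true}ᶜ) ∪ (Prod.snd ⁻¹' E) := by
      ext q
      simp only [R, mem_union, mem_preimage, mem_compl_iff, mem_singleton_iff]
      exact imp_iff_not_or
    rw [e]
    exact (measurable_fst (measurableSet_singleton true).compl).union (measurable_snd hE)
  let S : Set (((Fin d → Fin n) → Bool) × ((Fin d → Fin n) → Conf d n)) :=
    {q | ∀ a, q.1 a = true → q.2 a ∈ E}
  have hS : MeasurableSet S := by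
    have e : S = ⋂ a : Fin d → Fin n, (fun q : ((Fin d → Fin n) → Bool) ×
        ((Fin d → Fin n) → Conf d n) => (q.1 a, q.2 a)) ⁻¹' R := by
      ext q
      simp only [mem_iInter]
      exact Iff.rfl
    rw [e]
    refine MeasurableSet.iInter fun a => ?_
    refine Measurable.prodMk ?_ ?_ hR
    · exact (measurable_pi_apply a).comp measurable_fst
    · exact (measurable_pi_apply a).comp measurable_snd
  have h1 : law d n p {ω | ∀ a, ω [] a = true → shift a ω ∈ E} =
      ((off d n p).prod (Measure.pi fun _ : Fin d → Fin n => law d n p)) S := by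
    have := (T1 (A := Fin d → Fin n) (off d n p)).measure_preimage hS.nullMeasurableSet
    exact this
  have h2 : ((off d n p).prod (Measure.pi fun _ : Fin d → Fin n => law d n p)) S =
      (Measure.pi fun _ : Fin d → Fin n =>
        (ProbabilityTheory.bernoulliMeasure true false p).prod (law d n p))
          (Set.univ.pi fun _ => R) := by
    have := (measurePreserving_arrowProdEquivProdArrow Bool (Conf d n) (Fin d → Fin n)
      (fun _ => ProbabilityTheory.bernoulliMeasure true false p)
      (fun _ => law d n p)).measure_preimage hS.nullMeasurableSet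
    rw [off, ← this]
    congr 1
    ext q
    simp only [Set.mem_pi, mem_univ, forall_true_left]
    exact Iff.rfl
  have h3 : ((ProbabilityTheory.bernoulliMeasure true false p).prod (law d n p)) R =
      ENNReal.ofReal ((p : ℝ) * (law d n p).real E + (1 - p)) := by
    rw [Measure.prod_apply hR, ProbabilityTheory.bernoulliMeasure_def, lintegral_add_measure,
      lintegral_smul_measure, lintegral_smul_measure, lintegral_dirac, lintegral_dirac]
    have e1 : Prod.mk true ⁻¹' R = E := by
      ext y; simp [R]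
    have e2 : Prod.mk false ⁻¹' R = univ := by
      ext y; simp [R]
    rw [e1, e2, measure_univ]
    have hp0 : (0 : ℝ) ≤ p := p.2.1
    have hp1 : (0 : ℝ) ≤ 1 - p := by have := p.2.2; linarith
    rw [ENNReal.ofReal_add (mul_nonneg hp0 measureReal_nonneg) hp1, ENNReal.ofReal_mul hp0,
      ofReal_measureReal]
    congr 1
    · rw [ENNReal.smul_def, smul_eq_mul]
      congr 1
      rw [ENNReal.ofReal]
      congr 1
      apply NNReal.eq
      rw [Real.coe_toNNReal _ hp0]
      rfl
    · rw [ENNReal.smul_def, smul_eq_mul, mul_one, ENNReal.ofReal]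
      congr 1
      apply NNReal.eq
      rw [Real.coe_toNNReal _ hp1]
      rfl
  have hp0 : (0 : ℝ) ≤ p := p.2.1
  have hp1 : (0 : ℝ) ≤ 1 - p := by have := p.2.2; linarith
  unfold Measure.real at *
  rw [h1, h2, Measure.pi_pi, Finset.prod_const, h3, Finset.card_univ, Fintype.card_fun,
    Fintype.card_fin, Fintype.card_fin, ENNReal.toReal_pow, ENNReal.toReal_ofReal]
  exact add_nonneg (mul_nonneg hp0 ENNReal.toReal_nonneg) hp1

end ZO

open ZO in
theorem T5 (d n : ℕ) (hd : 1 ≤ d) (hn : 2 ≤ n) (p : unitInterval)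
    (hp0 : (0 : ℝ) < p) (s : ℝ) (h : law d n p {ω | Tame s ω} ≠ 1) :
    ∀ᵐ ω ∂(law d n p), surv ω → ¬ Tame s ω := by
  set P := law d n p with hP
  set t : ℝ := P.real {ω | Tame s ω} with ht
  set q : ℝ := P.real {ω | ¬ surv ω} with hq
  have hmT : MeasurableSet {ω : Conf d n | Tame s ω} := meas_Tame s
  have hmS : MeasurableSet {ω : Conf d n | ¬ surv ω} := meas_surv.compl
  have e1 : t = ((p : ℝ) * t + (1 - p)) ^ (n ^ d) := by
    have := meas_all p {ω : Conf d n | Tame s ω} hmT
    have e : {ω : Conf d n | ∀ a, ω [] a = true → shift a ω ∈ {ω : Conf d n | Tame s ω}} =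
        {ω : Conf d n | Tame s ω} := by
      ext ω
      exact (Tame_iff s hn ω).symm
    rw [e] at this
    exact this
  have e2 : q = ((p : ℝ) * q + (1 - p)) ^ (n ^ d) := by
    have := meas_all p {ω : Conf d n | ¬ surv ω} hmS
    have e : {ω : Conf d n | ∀ a, ω [] a = true → shift a ω ∈ {ω : Conf d n | ¬ surv ω}} =
        {ω : Conf d n | ¬ surv ω} := by
      ext ω
      exact (not_surv_iff ω).symm
    rw [e] at this
    exact this
  have hsub : {ω : Conf d n | ¬ surv ω} ⊆ {ω : Conf d n | Tame s ω} :=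
    fun ω hω => Tame_of_not_surv s ω hω
  have hqt : q ≤ t := measureReal_mono hsub
  have ht1 : t < 1 := by
    refine lt_of_le_of_ne measureReal_le_one ?_
    intro h1
    apply h
    have h2 : P {ω | Tame s ω} = ENNReal.ofReal t := by
      rw [ht, ofReal_measureReal]
    rw [h2, h1, ENNReal.ofReal_one]
  have hq0 : 0 ≤ q := measureReal_nonneg
  have hM : 2 ≤ n ^ d := by
    calc 2 ≤ n := hn
      _ = n ^ 1 := (pow_one n).symm
      _ ≤ n ^ d := Nat.pow_le_pow_right (by omega) hd
  have hqt' : q = t := by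
    by_contra hne
    have hlt : q < t := lt_of_le_of_ne hqt hne
    have hsc := strictConvexOn_pow hM
    have hp1 : (0 : ℝ) ≤ 1 - p := by have := p.2.2; linarith
    -- t = α q + β 1
    set α : ℝ := (1 - t) / (1 - q) with hα
    set γ : ℝ := (t - q) / (1 - q) with hγ
    have h1q : 0 < 1 - q := by linarith
    have hα0 : 0 < α := div_pos (by linarith) h1q
    have hγ0 : 0 < γ := div_pos (by linarith) h1q
    have hsum : α + γ = 1 := by
      rw [hα, hγ, ← add_div, div_eq_one_iff_eq h1q.ne']
      ring
    have htc : t = α * q + γ * 1 := by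
      rw [hα, hγ]
      field_simp
      ring
    have hx : (p : ℝ) * q + (1 - p) ∈ Ici (0 : ℝ) := by
      rw [mem_Ici]
      exact add_nonneg (mul_nonneg hp0.le hq0) hp1
    have hne2 : (p : ℝ) * q + (1 - p) ≠ 1 := by
      intro h3
      have : (p : ℝ) * (1 - q) = 0 := by linarith
      rcases mul_eq_zero.1 this with h4 | h4
      · exact hp0.ne' h4
      · linarith
    have h5 := hsc.2 hx (mem_Ici.2 (zero_le_one (α := ℝ))) hne2 hα0 hγ0 hsum
    simp only [smul_eq_mul, one_pow, mul_one] at h5
    rw [← e2] at h5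
    have h6 : α * ((p : ℝ) * q + (1 - p)) + γ = (p : ℝ) * t + (1 - p) := by
      rw [htc]
      linear_combination ((1 : ℝ) - p) * hsum
    rw [h6, ← e1] at h5
    linarith
  have h7 : P.real ({ω : Conf d n | Tame s ω} \ {ω : Conf d n | ¬ surv ω}) = 0 := by
    rw [measureReal_sdiff hsub hmS]
    linarith
  rw [ae_iff]
  have e3 : {ω : Conf d n | ¬ (surv ω → ¬ Tame s ω)} =
      {ω : Conf d n | Tame s ω} \ {ω : Conf d n | ¬ surv ω} := by
    ext ω
    change ¬ (surv ω → ¬ Tame s ω) ↔ (Tame s ω ∧ ¬ ¬ surv ω)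
    tauto
  rw [e3]
  exact (measureReal_eq_zero_iff).1 h7

end Pool.Agent.R671.MP
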