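import Pool.Agent.R671.MP.Defs

/-!
MP_c03e51_gt, piece T6: the new metric of a system of isolated nested pieces.
-/

set_option autoImplicit false

open MeasureTheory Set Filter Topology
open scoped ENNReal NNReal

namespace Pool.Agent.R671.MP

namespace PT6

variable {X : Type} [MetricSpace X] (S : PieceSystem X)

open Classical in
/-- a point of the piece -/
noncomputable def rep (i : S.ι) (x0 : X) : X := if h : (S.piece i).Nonempty then h.some else x0

open Classical in
/-- collapse the pieces of rank `j` -/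
noncomputable def pj (j : ℕ) (x : X) : X :=
  if h : ∃ i, S.rank i = j ∧ x ∈ S.piece i then rep S h.choose x else x

/-- a common piece of rank `j` -/
def Com (j : ℕ) (x y : X) : Prop := ∃ i, S.rank i = j ∧ x ∈ S.piece i ∧ y ∈ S.piece i

variable {S}

theorem Com.symm {j : ℕ} {x y : X} (h : Com S j x y) : Com S j y x := by
  obtain ⟨i, h1, h2, h3⟩ := h
  exact ⟨i, h1, h3, h2⟩

theorem rep_mem {i : S.ι} (h : (S.piece i).Nonempty) (x0 : X) : rep S i x0 ∈ S.piece i := by
  unfold rep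
  rw [dif_pos h]
  exact h.some_mem

theorem rep_const {i : S.ι} (h : (S.piece i).Nonempty) (x0 x1 : X) : rep S i x0 = rep S i x1 := by
  unfold rep
  rw [dif_pos h, dif_pos h]

theorem pj_eq {j : ℕ} {x : X} {i : S.ι} (hi : S.rank i = j) (hx : x ∈ S.piece i) :
    pj S j x = rep S i x := by
  have hex : ∃ i, S.rank i = j ∧ x ∈ S.piece i := ⟨i, hi, hx⟩
  have h1 : hex.choose = i :=
    S.unique _ _ (hex.choose_spec.1.trans hi.symm) ⟨x, hex.choose_spec.2, hx⟩
  unfold pj
  rw [dif_pos hex, h1]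

theorem pj_mem {j : ℕ} {x : X} {i : S.ι} (hi : S.rank i = j) (hx : x ∈ S.piece i) :
    pj S j x ∈ S.piece i := by
  rw [pj_eq hi hx]
  exact rep_mem ⟨x, hx⟩ x

theorem pj_com {j : ℕ} {x y : X} (h : Com S j x y) : pj S j x = pj S j y := by
  obtain ⟨i, hi, hx, hy⟩ := h
  rw [pj_eq hi hx, pj_eq hi hy]
  exact rep_const ⟨x, hx⟩ x y

theorem pj_not {j : ℕ} {x : X} (h : ¬ ∃ i, S.rank i = j ∧ x ∈ S.piece i) : pj S j x = x := by
  unfold pj
  rw [dif_neg h]

theorem nest' (g : ℕ) : ∀ (k : ℕ) (i : S.ι), S.rank i = g + k → ∃ i', S.rank i' = g ∧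
    S.piece i ⊆ S.piece i' ∧ S.scale i ≤ S.scale i' * (1 / 2) ^ k := by
  intro k
  induction k with
  | zero =>
    intro i hi
    exact ⟨i, hi, Subset.rfl, by simp⟩
  | succ k ih =>
    intro i hi
    obtain ⟨j, hj1, hj2, hj3⟩ := S.nest i (g + k) (by omega)
    obtain ⟨i', h1, h2, h3⟩ := ih j hj1
    refine ⟨i', h1, hj2.trans h2, ?_⟩
    rw [pow_succ]
    linarith

theorem com_anti {g j : ℕ} (hgj : g ≤ j) {x y : X} (h : Com S j x y) : Com S g x y := by
  obtain ⟨k, rfl⟩ := Nat.exists_eq_add_of_le hgj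
  obtain ⟨i, hi, hx, hy⟩ := h
  obtain ⟨i', h1, h2, _⟩ := nest' g k i hi
  exact ⟨i', h1, h2 hx, h2 hy⟩

theorem exists_not_com {x y : X} (hxy : x ≠ y) : ∃ g, ¬ Com S g x y := by
  by_contra hcon
  push Not at hcon
  obtain ⟨i0, hi0, hx0, hy0⟩ := hcon 0
  have key : ∀ j : ℕ, dist x y ≤ S.D * (S.scale i0 * (1 / 2) ^ j) := by
    intro j
    obtain ⟨i, hi, hx, hy⟩ := hcon j
    obtain ⟨i', h1, h2, h3⟩ := nest' 0 j i (by omega)
    have h4 : i' = i0 := S.unique _ _ (h1.trans hi0.symm) ⟨x, h2 hx, hx0⟩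
    rw [h4] at h3
    have h5 := S.dist_le i x hx y hy
    have h6 := S.one_le_D
    nlinarith
  have hlim : Tendsto (fun j : ℕ => S.D * (S.scale i0 * (1 / 2 : ℝ) ^ j)) atTop
      (𝓝 (S.D * (S.scale i0 * 0))) := by
    refine Tendsto.const_mul _ (Tendsto.const_mul _ ?_)
    exact tendsto_pow_atTop_nhds_zero_of_lt_one (by norm_num) (by norm_num)
  have h0 : dist x y ≤ S.D * (S.scale i0 * 0) := ge_of_tendsto' hlim key
  rw [mul_zero, mul_zero] at h0
  exact hxy (dist_le_zero.1 h0)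

variable (S) in
/-- the first rank without common piece -/
noncomputable def gg (x y : X) : ℕ := sInf {g | ¬ Com S g x y}

theorem gg_not {x y : X} (hxy : x ≠ y) : ¬ Com S (gg S x y) x y :=
  Nat.sInf_mem (s := {g | ¬ Com S g x y}) (exists_not_com hxy)

theorem gg_lt {x y : X} {j : ℕ} (h : j < gg S x y) : Com S j x y := by
  by_contra hcon
  exact Nat.notMem_of_lt_sInf h hcon

/-- moving into the piece -/
theorem key1 {x y : X} {g j : ℕ} (hg : ¬ Com S g x y) (hgj : g ≤ j) :
    dist x (pj S j x) ≤ S.D * dist x y := by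
  have hD := S.one_le_D
  by_cases h : ∃ i, S.rank i = j ∧ x ∈ S.piece i
  · obtain ⟨i, hi, hx⟩ := h
    obtain ⟨k, rfl⟩ := Nat.exists_eq_add_of_le hgj
    obtain ⟨i', h1, h2, h3⟩ := nest' g k i hi
    have hy : y ∉ S.piece i' := fun hy => hg ⟨i', h1, h2 hx, hy⟩
    have h4 := S.sep i' x (h2 hx) y hy
    have h5 := S.dist_le i x hx _ (pj_mem hi hx)
    have h6 : S.scale i ≤ S.scale i' := by
      refine h3.trans ?_
      have h7 : (1 / 2 : ℝ) ^ k ≤ 1 := pow_le_one₀ (by norm_num) (by norm_num)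
      have h8 := S.scale_pos i'
      nlinarith
    nlinarith
  · rw [pj_not h, dist_self]
    positivity

theorem key2 {x y : X} {g : ℕ} (hg : ¬ Com S g x y) :
    dist x (pj S g x) ≤ S.D * dist (pj S g x) (pj S g y) := by
  have hD := S.one_le_D
  by_cases h : ∃ i, S.rank i = g ∧ x ∈ S.piece i
  · obtain ⟨i, hi, hx⟩ := h
    have hy : pj S g y ∉ S.piece i := by
      intro hmem
      by_cases h' : ∃ i, S.rank i = g ∧ y ∈ S.piece i
      · obtain ⟨i', hi', hy'⟩ := h'
        have h1 : i = i' := S.unique _ _ (hi.trans hi'.symm) ⟨_, hmem, pj_mem hi' hy'⟩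
        rw [← h1] at hy'
        exact hg ⟨i, hi, hx, hy'⟩
      · rw [pj_not h'] at hmem
        exact hg ⟨i, hi, hx, hmem⟩
    have h4 := S.sep i _ (pj_mem hi hx) _ hy
    have h5 := S.dist_le i x hx _ (pj_mem hi hx)
    nlinarith
  · rw [pj_not h, dist_self]
    positivity

variable (S) in
/-- the new distance -/
noncomputable def rho (x y : X) : ℝ := ∑' j : ℕ, (1 / 2 : ℝ) ^ j * dist (pj S j x) (pj S j y)

variable [CompactSpace X]

theorem summ (x y : X) : Summable fun j : ℕ => (1 / 2 : ℝ) ^ j * dist (pj S j x) (pj S j y) := by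
  refine Summable.of_nonneg_of_le (fun j => by positivity) (fun j => ?_)
    (summable_geometric_two.mul_right (Metric.diam (univ : Set X)))
  refine mul_le_mul_of_nonneg_left ?_ (by positivity)
  exact Metric.dist_le_diam_of_mem isCompact_univ.isBounded (mem_univ _) (mem_univ _)

theorem rho_nonneg (x y : X) : 0 ≤ rho S x y := tsum_nonneg fun j => by positivity

theorem rho_self (x : X) : rho S x x = 0 := by
  unfold rho
  simp

theorem rho_comm (x y : X) : rho S x y = rho S y x := by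
  unfold rho
  simp only [dist_comm]

theorem rho_triangle (x y z : X) : rho S x z ≤ rho S x y + rho S y z := by
  unfold rho
  rw [← (summ x y).tsum_add (summ y z)]
  refine (summ x z).tsum_le_tsum (fun j => ?_) ((summ x y).add (summ y z))
  rw [← mul_add]
  exact mul_le_mul_of_nonneg_left (dist_triangle _ _ _) (by positivity)

theorem rho_upper {x y : X} (hxy : x ≠ y) :
    rho S x y ≤ 2 * (1 + 2 * S.D) * (1 / 2) ^ gg S x y * dist x y := by
  set g := gg S x y with hg
  have hD := S.one_le_D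
  have h1 := (summ (S := S) x y).sum_add_tsum_nat_add g
  have h2 : ∑ j ∈ Finset.range g, (1 / 2 : ℝ) ^ j * dist (pj S j x) (pj S j y) = 0 := by
    refine Finset.sum_eq_zero fun j hj => ?_
    rw [pj_com (gg_lt (Finset.mem_range.1 hj)), dist_self, mul_zero]
  have h3 : rho S x y = ∑' j : ℕ, (1 / 2 : ℝ) ^ (j + g) * dist (pj S (j + g) x) (pj S (j + g) y) := by
    unfold rho
    rw [← h1, h2, zero_add]
  rw [h3]
  have hterm : ∀ j : ℕ, (1 / 2 : ℝ) ^ (j + g) * dist (pj S (j + g) x) (pj S (j + g) y) ≤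
      (1 / 2 : ℝ) ^ j * ((1 / 2) ^ g * ((1 + 2 * S.D) * dist x y)) := by
    intro j
    rw [pow_add, mul_assoc]
    refine mul_le_mul_of_nonneg_left (mul_le_mul_of_nonneg_left ?_ (by positivity)) (by positivity)
    have a1 := key1 (gg_not hxy) (Nat.le_add_left g j)
    have hn : ¬ Com S g y x := fun h => gg_not hxy h.symm
    have a2 := key1 hn (Nat.le_add_left g j)
    rw [dist_comm y x] at a2
    have a3 := dist_triangle4 (pj S (j + g) x) x y (pj S (j + g) y)
    rw [dist_comm (pj S (j + g) x) x] at a3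
    linarith
  have hs1 : Summable fun j : ℕ => (1 / 2 : ℝ) ^ (j + g) * dist (pj S (j + g) x) (pj S (j + g) y) :=
    (summable_nat_add_iff (f := fun j : ℕ => (1 / 2 : ℝ) ^ j * dist (pj S j x) (pj S j y)) g).2
      (summ x y)
  have hs2 : Summable fun j : ℕ => (1 / 2 : ℝ) ^ j * ((1 / 2) ^ g * ((1 + 2 * S.D) * dist x y)) :=
    summable_geometric_two.mul_right _
  refine (hs1.tsum_le_tsum hterm hs2).trans (le_of_eq ?_)
  rw [tsum_mul_right, tsum_geometric_two]
  ring

theorem rho_lower {x y : X} (hxy : x ≠ y) :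
    (1 / 2) ^ gg S x y * dist x y ≤ (1 + 2 * S.D) * rho S x y := by
  set g := gg S x y with hg
  have hD := S.one_le_D
  have h1 : (1 / 2 : ℝ) ^ g * dist (pj S g x) (pj S g y) ≤ rho S x y :=
    (summ (S := S) x y).le_tsum g (fun j _ => by positivity)
  have hn : ¬ Com S g y x := fun h => gg_not hxy h.symm
  have a1 := key2 (S := S) (gg_not hxy)
  have a2 := key2 hn
  rw [dist_comm (pj S g y) (pj S g x)] at a2
  have a3 := dist_triangle4 x (pj S g x) (pj S g y) y
  rw [dist_comm (pj S g y) y] at a3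
  have h2 : dist x y ≤ (1 + 2 * S.D) * dist (pj S g x) (pj S g y) := by linarith
  calc (1 / 2 : ℝ) ^ g * dist x y
      ≤ (1 / 2 : ℝ) ^ g * ((1 + 2 * S.D) * dist (pj S g x) (pj S g y)) :=
        mul_le_mul_of_nonneg_left h2 (by positivity)
    _ = (1 + 2 * S.D) * ((1 / 2 : ℝ) ^ g * dist (pj S g x) (pj S g y)) := by ring
    _ ≤ (1 + 2 * S.D) * rho S x y := mul_le_mul_of_nonneg_left h1 (by positivity)

theorem eq_of_rho {x y : X} (h : rho S x y = 0) : x = y := by
  by_contra hxy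
  have h1 := rho_lower (S := S) hxy
  rw [h, mul_zero] at h1
  have h2 : 0 < (1 / 2 : ℝ) ^ gg S x y * dist x y := mul_pos (by positivity) (dist_pos.2 hxy)
  linarith

end PT6

/-- the new space -/
def YY {X : Type} [MetricSpace X] (_ : PieceSystem X) : Type := X

open PT6 in
/-- the new metric -/
@[instance_reducible]
noncomputable def mY {X : Type} [MetricSpace X] [CompactSpace X] (S : PieceSystem X) :
    MetricSpace (YY S) where
  dist x y := rho S (X := X) x y
  dist_self x := rho_self (X := X) x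
  dist_comm x y := rho_comm (X := X) x y
  dist_triangle x y z := rho_triangle (X := X) x y z
  eq_of_dist_eq_zero {x y} h := eq_of_rho (X := X) h

theorem eta_exists (c1 c2 : ℝ≥0) (h1 : 0 < c1) :
    ∃ η : ℝ≥0 ≃ₜ ℝ≥0, ∀ t, η t = c1 * t + c2 * t ^ 2 := by
  have hmono : StrictMono fun t : ℝ≥0 => c1 * t + c2 * t ^ 2 := by
    intro a b hab
    have h2 : c1 * a < c1 * b := mul_lt_mul_of_pos_left hab h1
    have h3 : c2 * a ^ 2 ≤ c2 * b ^ 2 := by gcongr
    exact add_lt_add_of_lt_of_le h2 h3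
  have hcont : Continuous fun t : ℝ≥0 => c1 * t + c2 * t ^ 2 := by fun_prop
  have hsurj : Function.Surjective fun t : ℝ≥0 => c1 * t + c2 * t ^ 2 := by
    intro y
    have h4 := intermediate_value_Icc (zero_le (a := y / c1)) hcont.continuousOn
    have h5 : y ∈ Icc (c1 * 0 + c2 * 0 ^ 2) (c1 * (y / c1) + c2 * (y / c1) ^ 2) := by
      refine ⟨by simp, ?_⟩
      rw [mul_div_cancel₀ y h1.ne']
      exact le_self_add
    obtain ⟨t, _, ht⟩ := h4 h5
    exact ⟨t, ht⟩
  exact ⟨(hmono.orderIsoOfSurjective _ hsurj).toHomeomorph, fun t => rfl⟩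

open PT6 in
theorem T6 {X : Type} [MetricSpace X] [CompactSpace X] (S : PieceSystem X) :
    ∃ (Y : Type) (_ : MetricSpace Y) (f : X ≃ₜ Y), IsQuasisymmetric f ∧
      ∃ C : ℝ, 0 < C ∧ ∀ (x y : X) (k : ℕ),
        (∀ j < k, ∃ i, S.rank i = j ∧ x ∈ S.piece i ∧ y ∈ S.piece i) →
          dist (f x) (f y) ≤ C * (1 / 2) ^ k * dist x y := by
  have hD := S.one_le_D
  letI : MetricSpace (YY S) := mY S
  let e : X ≃ YY S := Equiv.refl X
  have hdist : ∀ x y : X, dist (e x) (e y) = rho S x y := fun x y => rfl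
  have hCpos : 0 < 2 * (1 + 2 * S.D) := by positivity
  have hupper : ∀ x y : X, rho S x y ≤ 2 * (1 + 2 * S.D) * dist x y := by
    intro x y
    by_cases hxy : x = y
    · rw [hxy, rho_self, dist_self, mul_zero]
    · refine (rho_upper hxy).trans ?_
      have h7 : (1 / 2 : ℝ) ^ gg S x y ≤ 1 := pow_le_one₀ (by norm_num) (by norm_num)
      have h8 : 2 * (1 + 2 * S.D) * (1 / 2 : ℝ) ^ gg S x y ≤ 2 * (1 + 2 * S.D) * 1 :=
        mul_le_mul_of_nonneg_left h7 hCpos.le
      rw [mul_one] at h8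
      exact mul_le_mul_of_nonneg_right h8 dist_nonneg
  have hcont : Continuous e := by
    refine (LipschitzWith.of_dist_le_mul (K := ⟨2 * (1 + 2 * S.D), hCpos.le⟩) ?_).continuous
    intro x y
    exact hupper x y
  let f : X ≃ₜ YY S := Continuous.homeoOfEquivCompactToT2 hcont
  have hf : ∀ x y : X, dist (f x) (f y) = rho S x y := fun x y => rfl
  refine ⟨YY S, mY S, f, ?_, 2 * (1 + 2 * S.D), hCpos, ?_⟩
  · obtain ⟨η, hη⟩ := eta_exists ⟨2 * (1 + 2 * S.D) ^ 2, by positivity⟩
      ⟨4 * S.D * (1 + 2 * S.D) ^ 2, by positivity⟩ (by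
        refine NNReal.coe_pos.1 ?_
        show (0 : ℝ) < 2 * (1 + 2 * S.D) ^ 2
        positivity)
    refine ⟨η, fun x a b t ht hd => ?_⟩
    rw [hf, hf, hη]
    show rho S x a ≤ (2 * (1 + 2 * S.D) ^ 2 * (t : ℝ) + 4 * S.D * (1 + 2 * S.D) ^ 2 * (t : ℝ) ^ 2) *
      rho S x b
    have ht0 : (0 : ℝ) < t := ht
    by_cases hxa : x = a
    · rw [hxa, rho_self]
      have := rho_nonneg (S := S) a b
      positivity
    have hxa' : 0 < dist x a := dist_pos.2 hxa
    have hxb : x ≠ b := by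
      rintro rfl
      rw [dist_self, mul_zero] at hd
      linarith
    have hxb' : 0 < dist x b := dist_pos.2 hxb
    have hu := rho_upper (S := S) hxa
    have hl := rho_lower (S := S) hxb
    have hrb := rho_nonneg (S := S) x b
    set g := gg S x a with hg
    set h := gg S x b with hh
    have hpg : (0 : ℝ) < (1 / 2) ^ g := by positivity
    have hph : (0 : ℝ) < (1 / 2) ^ h := by positivity
    rcases le_or_gt h g with hle | hlt
    · have h1 : (1 / 2 : ℝ) ^ g ≤ (1 / 2) ^ h :=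
        pow_le_pow_of_le_one (by norm_num) (by norm_num) hle
      have h2 : (1 / 2 : ℝ) ^ g * dist x a ≤ t * ((1 + 2 * S.D) * rho S x b) := by
        calc (1 / 2 : ℝ) ^ g * dist x a ≤ (1 / 2) ^ h * (t * dist x b) := by gcongr
          _ = t * ((1 / 2) ^ h * dist x b) := by ring
          _ ≤ _ := mul_le_mul_of_nonneg_left hl ht0.le
      have h3 : rho S x a ≤ 2 * (1 + 2 * S.D) * (t * ((1 + 2 * S.D) * rho S x b)) := by
        refine hu.trans ?_
        rw [mul_assoc]
        exact mul_le_mul_of_nonneg_left h2 hCpos.le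
      have h4 : 0 ≤ 4 * S.D * (1 + 2 * S.D) ^ 2 * (t : ℝ) ^ 2 * rho S x b := by positivity
      nlinarith
    · -- a common piece of rank `h - 1` for `x` and `b`
      obtain ⟨m, hm⟩ : ∃ m, h = g + m + 1 := ⟨h - g - 1, by omega⟩
      obtain ⟨i, hi, hx, hb⟩ := gg_lt (S := S) (x := x) (y := b) (j := g + m) (by omega)
      obtain ⟨i', h1, h2, h3⟩ := nest' g m i hi
      have ha : a ∉ S.piece i' := fun ha => gg_not hxa ⟨i', h1, h2 hx, ha⟩
      have h4 := S.sep i' x (h2 hx) a ha
      have h5 := S.dist_le i x hx b hb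
      have hpm : (0 : ℝ) < (1 / 2) ^ m := by positivity
      -- dist x b ≤ D (1/2)^m dist x a
      have h6 : dist x b ≤ S.D * (1 / 2) ^ m * dist x a := by
        calc dist x b ≤ S.D * S.scale i := h5
          _ ≤ S.D * (S.scale i' * (1 / 2) ^ m) := by gcongr
          _ ≤ S.D * (dist x a * (1 / 2) ^ m) := by gcongr
          _ = _ := by ring
      -- hence 1 ≤ D (1/2)^m t
      have h7 : 1 ≤ S.D * (1 / 2) ^ m * t := by
        have h8 : dist x b ≤ S.D * (1 / 2) ^ m * (t * dist x b) :=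
          h6.trans (mul_le_mul_of_nonneg_left hd (by positivity))
        have h9 : 1 * dist x b ≤ (S.D * (1 / 2) ^ m * t) * dist x b := by
          rw [one_mul]; linarith
        exact le_of_mul_le_mul_right h9 hxb'
      have hpow : (1 / 2 : ℝ) ^ h = (1 / 2) ^ g * ((1 / 2) ^ m * (1 / 2)) := by
        rw [hm, pow_succ, pow_add]; ring
      -- (1/2)^g ≤ 2 D t (1/2)^h
      have h8 : (1 / 2 : ℝ) ^ g ≤ 2 * S.D * t * (1 / 2) ^ h := by
        rw [hpow]
        have h9 : (1 / 2 : ℝ) ^ g * 1 ≤ (1 / 2 : ℝ) ^ g * (S.D * (1 / 2) ^ m * t) :=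
          mul_le_mul_of_nonneg_left h7 hpg.le
        linarith
      have h10 : (1 / 2 : ℝ) ^ g * dist x a ≤ 2 * S.D * t * (t * ((1 + 2 * S.D) * rho S x b)) := by
        calc (1 / 2 : ℝ) ^ g * dist x a ≤ (2 * S.D * t * (1 / 2) ^ h) * (t * dist x b) := by gcongr
          _ = 2 * S.D * t * (t * ((1 / 2) ^ h * dist x b)) := by ring
          _ ≤ _ := by gcongr
      have h11 : rho S x a ≤
          2 * (1 + 2 * S.D) * (2 * S.D * t * (t * ((1 + 2 * S.D) * rho S x b))) := by
        refine hu.trans ?_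
        rw [mul_assoc]
        exact mul_le_mul_of_nonneg_left h10 hCpos.le
      have h12 : 0 ≤ 2 * (1 + 2 * S.D) ^ 2 * (t : ℝ) * rho S x b := by positivity
      have h13 : 2 * (1 + 2 * S.D) * (2 * S.D * t * (t * ((1 + 2 * S.D) * rho S x b))) =
          4 * S.D * (1 + 2 * S.D) ^ 2 * (t : ℝ) ^ 2 * rho S x b := by ring
      rw [h13] at h11
      calc rho S x a ≤ 4 * S.D * (1 + 2 * S.D) ^ 2 * (t : ℝ) ^ 2 * rho S x b := h11
        _ ≤ 2 * (1 + 2 * S.D) ^ 2 * (t : ℝ) * rho S x b +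
            4 * S.D * (1 + 2 * S.D) ^ 2 * (t : ℝ) ^ 2 * rho S x b := le_add_of_nonneg_left h12
        _ = _ := by ring
  · intro x y k hk
    rw [hf]
    by_cases hxy : x = y
    · rw [hxy, rho_self, dist_self, mul_zero]
    · have hgk : k ≤ gg S x y := by
        by_contra hcon
        exact gg_not hxy (hk _ (not_le.1 hcon))
      have h1 : (1 / 2 : ℝ) ^ gg S x y ≤ (1 / 2) ^ k :=
        pow_le_pow_of_le_one (by norm_num) (by norm_num) hgk
      refine (rho_upper hxy).trans ?_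
      gcongr

end Pool.Agent.R671.MP
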