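import Pool.Agent.R671.MP.CubeAux

/-! MP_c03e51_gt, piece T7: isolated pieces of the limit set form a piece system. -/

open MeasureTheory Set Filter Topology
open scoped ENNReal NNReal

namespace Pool.Agent.R671.MP

open CubeAux

namespace T7Aux

variable {d n : ℕ}

theorem interior (hn : 3 ≤ n) (β : Fin d → Fin n)
    (hβ : ∀ i, 1 ≤ (β i : ℕ) ∧ (β i : ℕ) + 2 ≤ n) (v : List (Fin d → Fin n)) :
    ∀ z : Fin d → ℝ, inC z (v ++ [β]) → ∀ i,
      1 / (n : ℝ) ^ (v.length + 1) ≤ z i ∧ z i ≤ 1 - 1 / (n : ℝ) ^ (v.length + 1) := by
  have h0 : (0 : ℝ) < n := by exact_mod_cast (by omega : 0 < n)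
  induction v with
  | nil =>
    intro z hz i
    rw [List.nil_append, inC_cons (by omega), inC_nil_iff] at hz
    have h1 := hz i
    have h2 : (1 : ℝ) ≤ ((β i : ℕ) : ℝ) := by exact_mod_cast (hβ i).1
    have h3 : ((β i : ℕ) : ℝ) + 2 ≤ n := by exact_mod_cast (hβ i).2
    simp only [List.length_nil, zero_add, pow_one]
    constructor
    · rw [div_le_iff₀ h0]
      linarith [h1.1]
    · rw [le_sub_iff_add_le, ← le_sub_iff_add_le', div_le_iff₀ h0]
      linarith [h1.2]
  | cons a v ih =>
    intro z hz i
    rw [List.cons_append, inC_cons (by omega)] at hz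
    have h1 := ih _ hz i
    have h2 : (0 : ℝ) ≤ ((a i : ℕ) : ℝ) := Nat.cast_nonneg _
    have h3 : ((a i : ℕ) : ℝ) + 1 ≤ n := by exact_mod_cast (a i).2
    rw [List.length_cons, pow_succ (n : ℝ) (v.length + 1)]
    set δ : ℝ := 1 / (n : ℝ) ^ (v.length + 1) with hδ
    have e1 : 1 / ((n : ℝ) ^ (v.length + 1) * n) = δ / n := by
      rw [hδ]
      field_simp
    rw [e1]
    constructor
    · rw [div_le_iff₀ h0]
      linarith [h1.1]
    · rw [le_sub_iff_add_le, ← le_sub_iff_add_le', div_le_iff₀ h0]
      linarith [h1.2]

/-- the geometric estimate -/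
theorem far (hn : 3 ≤ n) (β : Fin d → Fin n)
    (hβ : ∀ i, 1 ≤ (β i : ℕ) ∧ (β i : ℕ) + 2 ≤ n) (v : List (Fin d → Fin n)) :
    ∀ (u : List (Fin d → Fin n)) (x y : Fin d → ℝ), u.length = v.length → u ≠ v →
      inC x (v ++ [β]) → inC y u → ∃ i, 1 / (n : ℝ) ^ (v.length + 1) ≤ |x i - y i| := by
  have h0 : (0 : ℝ) < n := by exact_mod_cast (by omega : 0 < n)
  induction v with
  | nil =>
    intro u x y hl hne
    rw [List.length_nil, List.length_eq_zero_iff] at hl
    exact absurd hl hne
  | cons a v ih =>
    intro u x y hl hne hx hy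
    cases u with
    | nil => simp at hl
    | cons a' u =>
      rw [List.cons_append, inC_cons (by omega)] at hx
      rw [inC_cons (by omega)] at hy
      rw [List.length_cons, List.length_cons] at hl
      have hl' : u.length = v.length := by omega
      rw [List.length_cons, pow_succ (n : ℝ) (v.length + 1)]
      set δ : ℝ := 1 / (n : ℝ) ^ (v.length + 1) with hδ
      have e1 : 1 / ((n : ℝ) ^ (v.length + 1) * n) = δ / n := by
        rw [hδ]
        field_simp
      rw [e1]
      have key : ∀ i, δ ≤ |(n : ℝ) * x i - n * y i| → δ / n ≤ |x i - y i| := by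
        intro i hi
        rw [← mul_sub, abs_mul, abs_of_pos h0] at hi
        rw [div_le_iff₀ h0]
        linarith
      by_cases haa : a' = a
      · subst haa
        have hne' : u ≠ v := fun h => hne (by rw [h])
        obtain ⟨i, hi⟩ := ih u _ _ hl' hne' hx hy
        refine ⟨i, key i ?_⟩
        simp only [sub_sub_sub_cancel_right] at hi
        exact hi
      · obtain ⟨i, hi⟩ : ∃ i, a' i ≠ a i := by
          by_contra hcon
          push Not at hcon
          exact haa (funext hcon)
        have h1 := interior hn β hβ v _ hx i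
        have h2 := inC_unit (by omega) hy i
        have hv : (a' i : ℕ) ≠ (a i : ℕ) := fun h => hi (Fin.ext h)
        refine ⟨i, key i ?_⟩
        rcases Nat.lt_or_gt_of_ne hv with h3 | h3
        · have h4 : ((a' i : ℕ) : ℝ) + 1 ≤ ((a i : ℕ) : ℝ) := by exact_mod_cast h3
          refine le_trans ?_ (le_abs_self _)
          linarith [h1.1, h2.2]
        · have h4 : ((a i : ℕ) : ℝ) + 1 ≤ ((a' i : ℕ) : ℝ) := by exact_mod_cast h3
          refine le_trans ?_ (neg_le_abs _)
          linarith [h1.2, h2.1]

/-- good strict prefixes -/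
theorem prefix_good (β : Fin d → Fin n) (w : List (Fin d → Fin n)) :
    ∀ (κ : Conf d n) (j : ℕ), kept κ w → j < gcount β κ w →
      ∃ u t, w = u ++ β :: t ∧ kept κ u ∧ Good β (drp κ u) ∧ gcount β κ u = j := by
  classical
  induction w with
  | nil =>
    intro κ j _ hj
    simp [gcount] at hj
  | cons c w ih =>
    intro κ j hk hj
    rw [kept] at hk
    rw [gcount] at hj
    by_cases hG : Good β κ
    · have hc : c = β := (hG c).1 hk.1
      rw [if_pos hG] at hj
      rcases Nat.eq_zero_or_pos j with h0 | h0
      · subst h0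
        refine ⟨[], w, by rw [hc]; rfl, trivial, hG, rfl⟩
      · obtain ⟨u, t, h1, h2, h3, h4⟩ := ih (shift c κ) (j - 1) hk.2 (by omega)
        refine ⟨c :: u, t, by rw [h1]; rfl, ⟨hk.1, h2⟩, h3, ?_⟩
        rw [gcount, if_pos hG, h4]
        omega
    · rw [if_neg hG, zero_add] at hj
      obtain ⟨u, t, h1, h2, h3, h4⟩ := ih (shift c κ) j hk.2 hj
      refine ⟨c :: u, t, by rw [h1]; rfl, ⟨hk.1, h2⟩, h3, ?_⟩
      rw [gcount, if_neg hG, h4, zero_add]

theorem coord_le (x y : EuclideanSpace ℝ (Fin d)) (i : Fin d) : |x i - y i| ≤ dist x y := by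
  rw [dist_eq_norm]
  have := PiLp.norm_apply_le (x - y) i
  rwa [Real.norm_eq_abs] at this

end T7Aux

open T7Aux

theorem T7 {d n : ℕ} (hn : 3 ≤ n) (β : Fin d → Fin n)
    (hβ : ∀ i, 1 ≤ (β i : ℕ) ∧ (β i : ℕ) + 2 ≤ n) (κ : Conf d n) :
    ∃ S : PieceSystem (F κ), ∀ (w : List (Fin d → Fin n)), kept κ w → ∀ x y : F κ,
      (x : EuclideanSpace ℝ (Fin d)) ∈ cube w → (y : EuclideanSpace ℝ (Fin d)) ∈ cube w →
        ∀ j < gcount β κ w, ∃ i, S.rank i = j ∧ x ∈ S.piece i ∧ y ∈ S.piece i := by
  classical
  have hn1 : 1 ≤ n := by omega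
  have h0 : (0 : ℝ) < n := by exact_mod_cast (by omega : 0 < n)
  have happ : ∀ (u t : List (Fin d → Fin n)), u ++ β :: t = (u ++ [β]) ++ t := fun u t => by simp
  let S : PieceSystem (F κ) :=
    { ι := {v : List (Fin d → Fin n) // kept κ v ∧ Good β (drp κ v)}
      piece := fun v => {x | inC (fun i => (x : EuclideanSpace ℝ (Fin d)) i) (v.1 ++ [β])}
      rank := fun v => gcount β κ v.1
      scale := fun v => 1 / (n : ℝ) ^ (v.1.length + 1)
      D := d + 1
      one_le_D := by
        have : (0 : ℝ) ≤ d := Nat.cast_nonneg d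
        linarith
      scale_pos := fun v => by positivity
      dist_le := by
        intro v x hx y hy
        have hx' : inC (fun i => (x : EuclideanSpace ℝ (Fin d)) i) (v.1 ++ [β]) := hx
        have hy' : inC (fun i => (y : EuclideanSpace ℝ (Fin d)) i) (v.1 ++ [β]) := hy
        set r : ℝ := 1 / (n : ℝ) ^ (v.1.length + 1) with hr
        have hr0 : 0 ≤ r := by positivity
        have hd : ∀ i, dist ((x : EuclideanSpace ℝ (Fin d)) i)
            ((y : EuclideanSpace ℝ (Fin d)) i) ≤ r := by
          intro i
          have h1 := hx' i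
          have h2 := hy' i
          rw [List.length_append, List.length_singleton] at h1 h2
          rw [Real.dist_eq, abs_le]
          constructor <;> linarith [h1.1, h1.2, h2.1, h2.2]
        rw [Subtype.dist_eq, EuclideanSpace.dist_eq]
        refine Real.sqrt_le_iff.2 ⟨by positivity, ?_⟩
        calc ∑ i, dist ((x : EuclideanSpace ℝ (Fin d)) i) ((y : EuclideanSpace ℝ (Fin d)) i) ^ 2
            ≤ ∑ _i : Fin d, r ^ 2 :=
              Finset.sum_le_sum fun i _ => pow_le_pow_left₀ dist_nonneg (hd i) 2
          _ = d * r ^ 2 := by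
              rw [Finset.sum_const, Finset.card_univ, Fintype.card_fin, nsmul_eq_mul]
          _ ≤ ((d + 1) * r) ^ 2 := by
              have : (0 : ℝ) ≤ d := Nat.cast_nonneg d
              nlinarith [sq_nonneg r, mul_nonneg this (sq_nonneg r), sq_nonneg ((d : ℝ) * r)]
      sep := by
        intro v x hx y hy
        have hx' : inC (fun i => (x : EuclideanSpace ℝ (Fin d)) i) (v.1 ++ [β]) := hx
        have hyF : (y : EuclideanSpace ℝ (Fin d)) ∈ level κ (v.1.length + 1) :=
          mem_iInter.1 y.2 _
        rw [level_mem] at hyF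
        obtain ⟨w, hwl, hwk, hyw⟩ := hyF
        rw [mem_cube] at hyw
        set u := w.take v.1.length with hu
        have hul : u.length = v.1.length := by
          rw [hu, List.length_take]
          omega
        obtain ⟨c, hc⟩ : ∃ c, w.drop v.1.length = [c] := by
          rw [← List.length_eq_one_iff, List.length_drop]
          omega
        have hw : w = u ++ [c] := by
          rw [hu, ← hc]
          exact (List.take_append_drop _ _).symm
        have hne : u ≠ v.1 := by
          intro huv
          apply hy
          rw [hw, kept_append] at hwk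
          have h1 : drp κ u [] c = true := hwk.2.1
          rw [huv] at h1
          have h2 : c = β := (v.2.2 c).1 h1
          rw [hw, huv, h2] at hyw
          exact hyw
        have hyu : inC (fun i => (y : EuclideanSpace ℝ (Fin d)) i) u := by
          rw [hw] at hyw
          exact inC_append hn1 _ _ _ hyw
        obtain ⟨i, hi⟩ := far hn β hβ v.1 u _ _ hul hne hx' hyu
        exact hi.trans (coord_le _ _ i)
      unique := by
        have main : ∀ (v v' : List (Fin d → Fin n)) (x : Fin d → ℝ), v.length ≤ v'.length →
            Good β (drp κ v) → gcount β κ v = gcount β κ v' → inC x (v ++ [β]) →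
            inC x (v' ++ [β]) → v = v' := by
          intro v v' x hl hG hg hx hx'
          have hv' : inC x v' := inC_append hn1 _ _ _ hx'
          set u := v'.take v.length with hu
          have hul : u.length = v.length := by
            rw [hu, List.length_take]
            omega
          have hdec : v' = u ++ v'.drop v.length := by
            rw [hu]
            exact (List.take_append_drop _ _).symm
          by_cases huv : u = v
          · cases ht : v'.drop v.length with
            | nil =>
              rw [ht, List.append_nil, huv] at hdec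
              exact hdec.symm
            | cons c t =>
              rw [ht, huv] at hdec
              rw [hdec, gcount_append, gcount, if_pos hG] at hg
              omega
          · have hxu : inC x u := by
              rw [hdec] at hv'
              exact inC_append hn1 _ _ _ hv'
            obtain ⟨i, hi⟩ := far hn β hβ v u x x hul huv hx hxu
            rw [sub_self, abs_zero] at hi
            have : (0 : ℝ) < 1 / (n : ℝ) ^ (v.length + 1) := by positivity
            linarith
        rintro v v' hr ⟨x, hx, hx'⟩
        rcases le_total v.1.length v'.1.length with h | h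
        · exact Subtype.ext (main _ _ _ h v.2.2 hr hx hx')
        · exact Subtype.ext (main _ _ _ h v'.2.2 hr.symm hx' hx).symm
      nest := by
        intro v k hk
        obtain ⟨u, t, h1, h2, h3, h4⟩ := prefix_good β v.1 κ k v.2.1 (by rw [hk]; omega)
        refine ⟨⟨u, h2, h3⟩, h4, ?_, ?_⟩
        · intro x hx
          have hx' : inC (fun i => (x : EuclideanSpace ℝ (Fin d)) i) (v.1 ++ [β]) := hx
          have h5 := inC_append hn1 _ _ _ hx'
          rw [h1, happ] at h5
          exact inC_append hn1 _ _ _ h5
        · have h5 : u.length + 1 ≤ v.1.length := by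
            rw [h1, List.length_append, List.length_cons]
            omega
          have h6 : (2 : ℝ) ≤ n := by exact_mod_cast (by omega : 2 ≤ n)
          have h1n : (1 : ℝ) ≤ n := by linarith
          have h7 : (n : ℝ) ^ (u.length + 1) * 2 ≤ (n : ℝ) ^ (v.1.length + 1) := by
            calc (n : ℝ) ^ (u.length + 1) * 2 ≤ (n : ℝ) ^ (u.length + 1) * n :=
                  mul_le_mul_of_nonneg_left h6 (by positivity)
              _ = (n : ℝ) ^ (u.length + 2) := by ring
              _ ≤ _ := pow_le_pow_right₀ h1n (by omega)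
          rw [div_div]
          exact one_div_le_one_div_of_le (by positivity) h7 }
  refine ⟨S, fun w hw x y hx hy j hj => ?_⟩
  obtain ⟨u, t, h1, h2, h3, h4⟩ := prefix_good β w κ j hw hj
  rw [mem_cube] at hx hy
  rw [h1, happ] at hx hy
  exact ⟨⟨u, h2, h3⟩, h4, inC_append hn1 _ _ _ hx, inC_append hn1 _ _ _ hy⟩

end Pool.Agent.R671.MP
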