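import Pool.Agent.R671.MP.T8

/-!
# T9: the number of surviving cubes is at most `4 ^ d` times the covering number
-/

open MeasureTheory Set Filter Topology
open scoped ENNReal NNReal

namespace Pool.Agent.R671.MP

namespace T9aux

variable {d n : ℕ}

/-- integer coordinates of the lower corner of a word -/
def J : List (Fin d → Fin n) → Fin d → ℕ
  | [] => fun _ => 0
  | a :: w => fun i => (a i : ℕ) * n ^ w.length + J w i

lemma J_lt (w : List (Fin d → Fin n)) (i : Fin d) : J w i < n ^ w.length := by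
  induction w with
  | nil => simp [J]
  | cons a w ih =>
    simp only [J, List.length_cons]
    have h1 : (a i : ℕ) + 1 ≤ n := (a i).2
    calc (a i : ℕ) * n ^ w.length + J w i < (a i : ℕ) * n ^ w.length + n ^ w.length := by omega
      _ = ((a i : ℕ) + 1) * n ^ w.length := by ring
      _ ≤ n * n ^ w.length := Nat.mul_le_mul_right _ h1
      _ = n ^ (w.length + 1) := by rw [pow_succ]; ring

lemma J_inj (w v : List (Fin d → Fin n)) (hl : w.length = v.length) (h : J w = J v) : w = v := by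
  induction w generalizing v with
  | nil =>
    cases v with
    | nil => rfl
    | cons b v => simp at hl
  | cons a w ih =>
    cases v with
    | nil => simp at hl
    | cons b v =>
      simp only [List.length_cons, Nat.add_right_cancel_iff] at hl
      have key : ∀ i, (a i : ℕ) = (b i : ℕ) ∧ J w i = J v i := by
        intro i
        have h1 := congrFun h i
        simp only [J] at h1
        rw [hl] at h1
        have h2 := J_lt w i
        rw [hl] at h2
        have h3 := J_lt v i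
        have hpos : 0 < n ^ v.length := lt_of_le_of_lt (Nat.zero_le _) h3
        have e1 : ((a i : ℕ) * n ^ v.length + J w i) / n ^ v.length = (a i : ℕ) := by
          rw [Nat.mul_comm, Nat.mul_add_div hpos, Nat.div_eq_of_lt h2, Nat.add_zero]
        have e2 : ((b i : ℕ) * n ^ v.length + J v i) / n ^ v.length = (b i : ℕ) := by
          rw [Nat.mul_comm, Nat.mul_add_div hpos, Nat.div_eq_of_lt h3, Nat.add_zero]
        have e3 : (a i : ℕ) = (b i : ℕ) := by rw [← e1, ← e2, h1]
        refine ⟨e3, ?_⟩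
        rw [e3] at h1
        omega
      have hab : a = b := funext fun i => Fin.ext (key i).1
      rw [hab, ih v hl (funext fun i => (key i).2)]

lemma corner_eq (hn : 1 ≤ n) (w : List (Fin d → Fin n)) (i : Fin d) :
    corner w i * (n : ℝ) ^ w.length = (J w i : ℝ) := by
  have hn0 : (n : ℝ) ≠ 0 := by positivity
  induction w with
  | nil => simp [corner, J]
  | cons a w ih =>
    simp only [corner, J, List.length_cons]
    push_cast
    rw [← ih, pow_succ]
    field_simp

lemma cube_cons (hn : 1 ≤ n) (a : Fin d → Fin n) (w : List (Fin d → Fin n))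
    (x y : EuclideanSpace ℝ (Fin d)) (hy : y ∈ cube w)
    (hx : ∀ i, x i = (((a i : ℕ) : ℝ) + y i) / n) : x ∈ cube (a :: w) := by
  have hn0 : (0 : ℝ) < n := by positivity
  intro i
  obtain ⟨h1, h2⟩ := hy i
  rw [hx i]
  simp only [corner, List.length_cons]
  constructor
  · gcongr
  · have : (((a i : ℕ) : ℝ) + corner w i) / (n : ℝ) + 1 / (n : ℝ) ^ (w.length + 1)
        = (((a i : ℕ) : ℝ) + (corner w i + 1 / (n : ℝ) ^ w.length)) / (n : ℝ) := by
      rw [pow_succ]
      field_simp
      ring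
    rw [this]
    gcongr

/-- the surviving words -/
lemma words (hn : 1 ≤ n)
    (hne : ∀ ω : Conf d n, (F ω).Nonempty ↔ surv ω)
    (hstep : ∀ (ω : Conf d n) (x : EuclideanSpace ℝ (Fin d)),
      x ∈ F ω ↔ ∃ (a : Fin d → Fin n) (y : EuclideanSpace ℝ (Fin d)), ω [] a = true ∧
      y ∈ F (shift a ω) ∧ ∀ i, x i = (((a i : ℕ) : ℝ) + y i) / n) (k : ℕ) :
    ∀ ω : Conf d n, ∃ W : Finset (List (Fin d → Fin n)), W.card = Zs k ω ∧
      ∀ w ∈ W, w.length = k ∧ ∃ x ∈ F ω, x ∈ cube w := by
  classical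
  induction k with
  | zero =>
    intro ω
    by_cases hs : surv ω
    · refine ⟨{[]}, by simp [Zs, hs], ?_⟩
      intro w hw
      rw [Finset.mem_singleton] at hw
      subst hw
      obtain ⟨x, hx⟩ := (hne ω).2 hs
      refine ⟨rfl, x, hx, ?_⟩
      have h0 := Set.mem_iInter.1 hx 0
      simp only [level, Set.mem_iUnion] at h0
      obtain ⟨w, hw, hxw⟩ := h0
      have : w = [] := List.length_eq_zero_iff.1 hw.1
      rw [this] at hxw
      exact hxw
    · exact ⟨∅, by simp [Zs, hs], by simp⟩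
  | succ k ih =>
    intro ω
    choose W hW1 hW2 using fun a => ih (shift a ω)
    refine ⟨Finset.univ.biUnion (fun a : Fin d → Fin n =>
      if ω [] a = true then (W a).image (fun w => a :: w) else ∅), ?_, ?_⟩
    · rw [Finset.card_biUnion]
      · simp only [Zs]
        refine Finset.sum_congr rfl fun a _ => ?_
        split_ifs with h
        · rw [Finset.card_image_of_injective _ (fun u v huv => by simpa using huv), hW1]
        · simp
      · intro a _ b _ hab
        change Disjoint (if ω [] a = true then (W a).image (fun w => a :: w) else ∅)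
          (if ω [] b = true then (W b).image (fun w => b :: w) else ∅)
        rw [Finset.disjoint_left]
        intro w h1 h2
        split_ifs at h1 h2 with h3 h4
        · obtain ⟨u, -, rfl⟩ := Finset.mem_image.1 h1
          obtain ⟨v, -, h5⟩ := Finset.mem_image.1 h2
          rw [List.cons.injEq] at h5
          exact hab h5.1.symm
        all_goals simp at h1 h2
    · intro w hw
      rw [Finset.mem_biUnion] at hw
      obtain ⟨a, -, ha⟩ := hw
      split_ifs at ha with h
      · obtain ⟨v, hv, rfl⟩ := Finset.mem_image.1 ha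
        obtain ⟨h1, y, hy, hyv⟩ := hW2 a v hv
        refine ⟨by rw [List.length_cons, h1], ?_⟩
        let x : EuclideanSpace ℝ (Fin d) :=
          (WithLp.toLp 2 fun i => (((a i : ℕ) : ℝ) + y i) / n)
        have hx : ∀ i, x i = (((a i : ℕ) : ℝ) + y i) / n := fun i => rfl
        exact ⟨x, (hstep ω x).2 ⟨a, y, h, hy, hx⟩, cube_cons hn a v x y hyv hx⟩
      · simp at ha

lemma coord_dist (x y : EuclideanSpace ℝ (Fin d)) (i : Fin d) : |x i - y i| ≤ dist x y := by
  rw [EuclideanSpace.dist_eq]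
  apply Real.le_sqrt_of_sq_le
  rw [← Real.dist_eq]
  exact Finset.single_le_sum (f := fun i => dist (x i) (y i) ^ 2) (fun j _ => sq_nonneg _)
    (Finset.mem_univ i)

lemma fiber_card (hn : 1 ≤ n) (k : ℕ) (z : EuclideanSpace ℝ (Fin d))
    (V : Finset (List (Fin d → Fin n))) (hV : ∀ w ∈ V, w.length = k ∧
      ∃ x : EuclideanSpace ℝ (Fin d), x ∈ cube w ∧ dist x z ≤ 1 / (n : ℝ) ^ k) :
    V.card ≤ 4 ^ d := by
  classical
  have hpow : (0 : ℝ) < (n : ℝ) ^ k := by positivity
  let T : Finset (Fin d → ℤ) := Fintype.piFinset fun i =>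
    Finset.Icc ⌈(n : ℝ) ^ k * z i - 2⌉ ⌊(n : ℝ) ^ k * z i + 1⌋
  have hT : T.card ≤ 4 ^ d := by
    rw [Fintype.card_piFinset]
    calc ∏ i, (Finset.Icc ⌈(n : ℝ) ^ k * z i - 2⌉ ⌊(n : ℝ) ^ k * z i + 1⌋).card
        ≤ ∏ _i : Fin d, 4 := by
          apply Finset.prod_le_prod'
          intro i _
          rw [Int.card_Icc]
          have h1 : ⌊(n : ℝ) ^ k * z i + 1⌋ = ⌊(n : ℝ) ^ k * z i⌋ + 1 := Int.floor_add_one _
          have h2 : ⌊(n : ℝ) ^ k * z i⌋ - 2 ≤ ⌈(n : ℝ) ^ k * z i - 2⌉ := by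
            have : ⌈(n : ℝ) ^ k * z i - 2⌉ = ⌈(n : ℝ) ^ k * z i⌉ - 2 := by
              have := Int.ceil_sub_intCast ((n : ℝ) ^ k * z i) 2
              push_cast at this
              exact this
            rw [this]
            have := Int.floor_le_ceil ((n : ℝ) ^ k * z i)
            omega
          rw [h1]
          omega
      _ = 4 ^ d := by simp
  refine le_trans ?_ hT
  apply Finset.card_le_card_of_injOn (fun w => fun i => (J w i : ℤ))
  · intro w hw
    obtain ⟨hl, x, hx, hd⟩ := hV w hw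
    rw [Finset.mem_coe, Fintype.mem_piFinset]
    intro i
    rw [Finset.mem_Icc]
    obtain ⟨h1, h2⟩ := hx i
    have h3 := (coord_dist x z i).trans hd
    have h4 := corner_eq hn w i
    rw [hl] at h2 h4
    have h5 : (J w i : ℝ) ≤ (n : ℝ) ^ k * x i := by
      rw [← h4, mul_comm]
      exact mul_le_mul_of_nonneg_left h1 hpow.le
    have h6 : (n : ℝ) ^ k * x i ≤ J w i + 1 := by
      have := mul_le_mul_of_nonneg_left h2 hpow.le
      rw [mul_add, mul_one_div_cancel hpow.ne', mul_comm _ (corner w i), h4] at this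
      exact this
    have h7 : |(n : ℝ) ^ k * x i - (n : ℝ) ^ k * z i| ≤ 1 := by
      rw [← mul_sub, abs_mul, abs_of_pos hpow]
      calc (n : ℝ) ^ k * |x i - z i| ≤ (n : ℝ) ^ k * (1 / (n : ℝ) ^ k) :=
            mul_le_mul_of_nonneg_left h3 hpow.le
        _ = 1 := mul_one_div_cancel hpow.ne'
    obtain ⟨h8, h9⟩ := abs_le.1 h7
    constructor
    · apply Int.ceil_le.2
      push_cast
      linarith
    · apply Int.le_floor.2
      push_cast
      linarith
  · intro w hw v hv h
    obtain ⟨hl, -⟩ := hV w hw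
    obtain ⟨hl', -⟩ := hV v hv
    apply J_inj w v (hl.trans hl'.symm)
    funext i
    exact Nat.cast_injective (R := ℤ) (congrFun h i)

theorem T9_of (hn : 1 ≤ n)
    (hne : ∀ ω : Conf d n, (F ω).Nonempty ↔ surv ω)
    (hstep : ∀ (ω : Conf d n) (x : EuclideanSpace ℝ (Fin d)),
      x ∈ F ω ↔ ∃ (a : Fin d → Fin n) (y : EuclideanSpace ℝ (Fin d)), ω [] a = true ∧
      y ∈ F (shift a ω) ∧ ∀ i, x i = (((a i : ℕ) : ℝ) + y i) / n) (ω : Conf d n) (k : ℕ) :
    ((Zs k ω : ℕ) : ℕ∞) ≤ 4 ^ d * coverNum (F ω) (1 / (n : ℝ) ^ k) := by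
  classical
  obtain ⟨W, hW1, hW2⟩ := words hn hne hstep k ω
  have key : ∀ s : Finset (F ω), (∀ y : F ω, ∃ z ∈ s, dist y z ≤ 1 / (n : ℝ) ^ k) →
      Zs k ω ≤ 4 ^ d * s.card := by
    intro s hs
    have hx : ∀ w ∈ W, ∃ x : F ω, (x : EuclideanSpace ℝ (Fin d)) ∈ cube w := by
      intro w hw
      obtain ⟨-, x, hxF, hxw⟩ := hW2 w hw
      exact ⟨⟨x, hxF⟩, hxw⟩
    rcases W.eq_empty_or_nonempty with h0 | ⟨w0, hw0⟩
    · rw [← hW1, h0]; simp
    have hz : ∀ w, ∃ z : F ω, w ∈ W → z ∈ s ∧ ∃ x : F ω,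
        (x : EuclideanSpace ℝ (Fin d)) ∈ cube w ∧ dist x z ≤ 1 / (n : ℝ) ^ k := by
      intro w
      by_cases hw : w ∈ W
      · obtain ⟨x, hxw⟩ := hx w hw
        obtain ⟨z, hz, hd⟩ := hs x
        exact ⟨z, fun _ => ⟨hz, x, hxw, hd⟩⟩
      · obtain ⟨x, -⟩ := hx w0 hw0
        exact ⟨x, fun h => absurd h hw⟩
    choose z hz using hz
    rw [← hW1]
    apply Finset.card_le_mul_card_image_of_maps_to (f := z) (fun w hw => (hz w hw).1)
    intro b _
    apply fiber_card hn k (b : EuclideanSpace ℝ (Fin d))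
    intro w hw
    rw [Finset.mem_filter] at hw
    refine ⟨(hW2 w hw.1).1, ?_⟩
    obtain ⟨-, x, hxw, hd⟩ := hz w hw.1
    rw [hw.2] at hd
    exact ⟨x, hxw, hd⟩
  unfold coverNum
  have h4 : (4 : ℕ∞) ^ d ≠ 0 := by
    have : (4 : ℕ∞) ^ d = ((4 ^ d : ℕ) : ℕ∞) := by push_cast; rfl
    rw [this]
    exact_mod_cast (pow_pos (by norm_num : 0 < 4) d).ne'
  rw [ENat.mul_iInf_of_ne h4]
  refine le_iInf fun s => ?_
  by_cases hs : ∀ y : F ω, ∃ z ∈ s, dist y z ≤ 1 / (n : ℝ) ^ k
  · rw [iInf_pos hs]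
    exact_mod_cast key s hs
  · rw [iInf_neg hs, ENat.mul_top h4]
    exact le_top

end T9aux

theorem T9 {d n : ℕ} (hn : 1 ≤ n) (ω : Conf d n) (k : ℕ) :
    ((Zs k ω : ℕ) : ℕ∞) ≤ 4 ^ d * coverNum (F ω) (1 / (n : ℝ) ^ k) :=
  T9aux.T9_of hn (fun ω => F_nonempty_iff hn ω) (fun ω x => F_step hn ω x) ω k

end Pool.Agent.R671.MP
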