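import Pool.Agent.R671.MP.T2
import Pool.Agent.R671.MP.T3
import Pool.Agent.R671.MP.T4
import Pool.Agent.R671.MP.T5
import Pool.Agent.R671.MP.T6
import Pool.Agent.R671.MP.T7
import Pool.Agent.R671.MP.T8
import Pool.Agent.R671.MP.T9
import Pool.Agent.R671.MP.T10
import Pool.Agent.R671.MP.T11
import Pool.Agent.R671.MP.T12

open MeasureTheory Set Filter Topology
open scoped ENNReal NNReal

namespace Pool.Agent.R671.MP

theorem dist_le_of_mem_cube {d n : ℕ} {w : List (Fin d → Fin n)} {x y : EuclideanSpace ℝ (Fin d)}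
    (hx : x ∈ cube w) (hy : y ∈ cube w) : dist x y ≤ (d + 1) * (1 / (n : ℝ) ^ w.length) := by
  set r : ℝ := 1 / (n : ℝ) ^ w.length with hr
  have hr0 : 0 ≤ r := by positivity
  have hi : ∀ i, |x i - y i| ≤ r := by
    intro i
    have h1 := hx i
    have h2 := hy i
    rw [abs_le]
    constructor <;> linarith [h1.1, h1.2, h2.1, h2.2]
  rw [EuclideanSpace.dist_eq]
  have h1 : ∑ i, dist (x i) (y i) ^ 2 ≤ (((d : ℝ) + 1) * r) ^ 2 := by
    calc ∑ i, dist (x i) (y i) ^ 2 ≤ ∑ _i : Fin d, r ^ 2 := by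
          refine Finset.sum_le_sum fun i _ => ?_
          rw [Real.dist_eq]
          exact pow_le_pow_left₀ (abs_nonneg _) (hi i) 2
      _ = d * r ^ 2 := by simp
      _ ≤ (((d : ℝ) + 1) * r) ^ 2 := by
          have hd : (0 : ℝ) ≤ d := Nat.cast_nonneg d
          nlinarith [sq_nonneg r, mul_nonneg hd (sq_nonneg r), mul_nonneg (mul_nonneg hd hd) (sq_nonneg r)]
  calc √(∑ i, dist (x i) (y i) ^ 2) ≤ √((((d : ℝ) + 1) * r) ^ 2) := Real.sqrt_le_sqrt h1
    _ = ((d : ℝ) + 1) * r := Real.sqrt_sq (by positivity)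

theorem conf_le {d n : ℕ} (hn : 3 ≤ n) (β : Fin d → Fin n)
    (hβ : ∀ i, 1 ≤ (β i : ℕ) ∧ (β i : ℕ) + 2 ≤ n) (κ : Conf d n) (s : ℝ) (hs : 0 < s)
    (hW : ∑' k : ℕ, Ssum β s k κ < ⊤) : confUpperBoxDim (F κ) ≤ (s : EReal) := by
  classical
  have : CompactSpace (F κ) := isCompact_iff_compactSpace.mp (isCompact_F κ)
  obtain ⟨S, hS⟩ := T7 hn β hβ κ
  obtain ⟨Y, hY, f, hf, C, hC, hb⟩ := T6 S
  have h1 : confUpperBoxDim (F κ) ≤ upperBoxDim Y :=
    iInf_le_of_le Y (iInf_le_of_le hY (iInf_le_of_le f (iInf_le _ hf)))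
  refine h1.trans ?_
  set W : ℝ≥0∞ := ∑' k : ℕ, Ssum β s k κ with hWdef
  set B : ℝ := C * (d + 1) with hB
  have hBpos : 0 < B := by positivity
  have hn0 : (0 : ℝ) < n := by
    have : 0 < n := by omega
    exact_mod_cast this
  refine upperBoxDim_le s ((2 * n * B) ^ s * W.toReal + 1) ?_ ?_
  · have : 0 ≤ (2 * n * B) ^ s * W.toReal := by positivity
    linarith
  have hev : ∀ᶠ ε : ℝ in 𝓝[>] (0 : ℝ), ε ∈ Ioc 0 B := Ioc_mem_nhdsGT hBpos
  filter_upwards [hev] with ε hε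
  have hε0 : 0 < ε := hε.1
  set ε' : ℝ := ε / B with hε'
  have hε'0 : 0 < ε' := by positivity
  have hε'1 : ε' ≤ 1 := by rw [hε', div_le_one hBpos]; exact hε.2
  obtain ⟨T, hT1, hT2, hT3⟩ := T11 (by omega : 2 ≤ n) β s hs ε' hε'0 hε'1 κ
  -- coverNum ≤ card T
  have hcov : coverNum Y ε ≤ (T.card : ℕ∞) := by
    by_cases hne : Nonempty (F κ)
    swap
    · -- empty
      rw [coverNum]
      refine (iInf_le_of_le (∅ : Finset Y) (iInf_le_of_le ?_ le_rfl)).trans (by simp)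
      intro y
      exact absurd ⟨f.symm y⟩ hne
    let g : List (Fin d → Fin n) → F κ := fun w =>
      if h : ∃ x : F κ, (x : EuclideanSpace ℝ (Fin d)) ∈ cube w then h.choose else hne.some
    have hcard : (T.image fun w => f (g w)).card ≤ T.card := Finset.card_image_le
    rw [coverNum]
    refine (iInf_le_of_le (T.image fun w => f (g w)) (iInf_le_of_le ?_ le_rfl)).trans ?_
    · intro y
      obtain ⟨w, hwT, hxw⟩ := hT2 (f.symm y : F κ) (f.symm y).2
      refine ⟨f (g w), Finset.mem_image.2 ⟨w, hwT, rfl⟩, ?_⟩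
      have hex : ∃ x : F κ, (x : EuclideanSpace ℝ (Fin d)) ∈ cube w := ⟨f.symm y, hxw⟩
      have hgw : ((g w : F κ) : EuclideanSpace ℝ (Fin d)) ∈ cube w := by
        simp only [g, dif_pos hex]; exact hex.choose_spec
      obtain ⟨hk, hrad⟩ := hT1 w hwT
      have h2 := hb (f.symm y) (g w) (gcount β κ w) (hS w hk _ _ hxw hgw)
      rw [f.apply_symm_apply] at h2
      have h3 : dist (f.symm y : F κ) (g w) ≤ (d + 1) * (1 / (n : ℝ) ^ w.length) :=
        dist_le_of_mem_cube hxw hgw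
      calc dist y (f (g w)) ≤ C * (1 / 2) ^ gcount β κ w * dist (f.symm y) (g w) := h2
        _ ≤ C * (1 / 2) ^ gcount β κ w * ((d + 1) * (1 / (n : ℝ) ^ w.length)) :=
            mul_le_mul_of_nonneg_left h3 (by positivity)
        _ = B * rad β κ w := by rw [hB, rad]; ring
        _ ≤ B * ε' := mul_le_mul_of_nonneg_left hrad hBpos.le
        _ = ε := by rw [hε']; field_simp
    · exact_mod_cast hcard
  have hcov' : ((coverNum Y ε : ℕ∞) : ℝ≥0∞) ≤ (T.card : ℝ≥0∞) := by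
    have := ENat.toENNReal_le.2 hcov
    simpa using this
  refine hcov'.trans (hT3.trans ?_)
  rw [← hWdef]
  have hWr : W = ENNReal.ofReal W.toReal := (ENNReal.ofReal_toReal hW.ne).symm
  rw [hWr, ← ENNReal.ofReal_mul (by positivity)]
  rw [← hWr]
  refine ENNReal.ofReal_le_ofReal ?_
  have he : (2 * n / ε') ^ s = (2 * n * B) ^ s * ε ^ (-s) := by
    rw [hε', Real.rpow_neg hε0.le, ← Real.inv_rpow hε0.le, ← Real.mul_rpow (by positivity) (by positivity)]
    congr 1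
    field_simp
  rw [he]
  have hεs : 0 < ε ^ (-s) := Real.rpow_pos_of_pos hε0 _
  nlinarith

theorem Tame_of_upperBoxDim_lt {d n : ℕ} (hn : 2 ≤ n) (ω : Conf d n) (s : ℝ)
    (h : upperBoxDim (F ω) < (s : EReal)) : Tame s ω := by
  have hn0 : (0 : ℝ) < n := by
    have : 0 < n := by omega
    exact_mod_cast this
  have hn1 : (1 : ℝ) < n := by
    have : 1 < n := by omega
    exact_mod_cast this
  have hev := coverNum_le_of_upperBoxDim_lt s h
  have ht : Tendsto (fun k : ℕ => 1 / (n : ℝ) ^ k) atTop (𝓝[>] (0 : ℝ)) := by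
    rw [tendsto_nhdsWithin_iff]
    constructor
    · have := tendsto_pow_atTop_nhds_zero_of_lt_one (r := (1 / (n : ℝ))) (by positivity)
        (by rw [div_lt_one hn0]; exact hn1)
      simpa [one_div, inv_pow] using this
    · exact Eventually.of_forall fun k => by
        have : (0 : ℝ) < (n : ℝ) ^ k := by positivity
        simp only [mem_Ioi]; positivity
  have hev2 := ht.eventually hev
  obtain ⟨K, hK⟩ := eventually_atTop.1 hev2
  have hpos : (0 : ℝ) < (n : ℝ) ^ s := Real.rpow_pos_of_pos hn0 s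
  have hbig : ∀ k, K ≤ k → (Zs k ω : ℝ) ≤ 4 ^ d * ((n : ℝ) ^ s) ^ k := by
    intro k hk
    have h1 := T9 (by omega : 1 ≤ n) ω k
    have h2 := hK k hk
    have h3 : ((Zs k ω : ℕ) : ℝ≥0∞) ≤ 4 ^ d * ((coverNum (F ω) (1 / (n : ℝ) ^ k) : ℕ∞) : ℝ≥0∞) := by
      have := ENat.toENNReal_le.2 h1
      simpa using this
    have h4 : ((Zs k ω : ℕ) : ℝ≥0∞) ≤ ENNReal.ofReal (4 ^ d * ((n : ℝ) ^ s) ^ k) := by
      refine h3.trans ?_
      rw [ENNReal.ofReal_mul (by positivity)]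
      have : ENNReal.ofReal (4 ^ d) = 4 ^ d := by
        rw [ENNReal.ofReal_pow (by norm_num)]; norm_num
      rw [this]
      refine mul_le_mul_right ?_ _
      refine h2.trans (le_of_eq ?_)
      congr 1
      rw [one_div, Real.inv_rpow (by positivity), Real.rpow_neg (by positivity), inv_inv,
        ← Real.rpow_natCast, ← Real.rpow_natCast, ← Real.rpow_mul hn0.le, ← Real.rpow_mul hn0.le,
        mul_comm]
    have h5 : ((Zs k ω : ℕ) : ℝ≥0∞) = ENNReal.ofReal (Zs k ω : ℝ) := by simp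
    rw [h5] at h4
    exact (ENNReal.ofReal_le_ofReal_iff (by positivity)).1 h4
  refine ⟨4 ^ d + ∑ k ∈ Finset.range K, (Zs k ω : ℝ) / ((n : ℝ) ^ s) ^ k, fun k => ?_⟩
  have hS : 0 ≤ ∑ k ∈ Finset.range K, (Zs k ω : ℝ) / ((n : ℝ) ^ s) ^ k :=
    Finset.sum_nonneg fun k _ => by positivity
  by_cases hk : K ≤ k
  · refine (hbig k hk).trans (mul_le_mul_of_nonneg_right (by linarith) (by positivity))
  · have hmem : k ∈ Finset.range K := Finset.mem_range.2 (by omega)
    have h1 : (Zs k ω : ℝ) / ((n : ℝ) ^ s) ^ k ≤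
        ∑ k ∈ Finset.range K, (Zs k ω : ℝ) / ((n : ℝ) ^ s) ^ k :=
      Finset.single_le_sum (f := fun k : ℕ => (Zs k ω : ℝ) / ((n : ℝ) ^ s) ^ k)
        (fun k _ => by positivity) hmem
    have h2 : (Zs k ω : ℝ) = (Zs k ω : ℝ) / ((n : ℝ) ^ s) ^ k * ((n : ℝ) ^ s) ^ k := by
      field_simp
    calc (Zs k ω : ℝ) = (Zs k ω : ℝ) / ((n : ℝ) ^ s) ^ k * ((n : ℝ) ^ s) ^ k := h2
      _ ≤ (4 ^ d + ∑ k ∈ Finset.range K, (Zs k ω : ℝ) / ((n : ℝ) ^ s) ^ k) * ((n : ℝ) ^ s) ^ k :=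
        mul_le_mul_of_nonneg_right (by have : (0:ℝ) ≤ 4 ^ d := by positivity
                                       linarith) (by positivity)

theorem main (d n : ℕ) (hd : 1 ≤ d) (hn : 2 ≤ n) (p : unitInterval) (hp : (p : ℝ) < 1)
    (hp' : 1 / (n : ℝ) ^ d < p) :
    ∀ᵐ ω ∂(law d n p), (F ω).Nonempty → confUpperBoxDim (F ω) < upperBoxDim (F ω) := by
  have hn0 : (0 : ℝ) < n := by
    have : 0 < n := by omega
    exact_mod_cast this
  have hp0 : (0 : ℝ) < p := lt_trans (by positivity) hp'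
  have h4 : 4 ≤ n * n := by nlinarith
  let β : Fin d → Fin (n * n) := fun _ => ⟨1, by omega⟩
  have hβ : ∀ i, 1 ≤ (β i : ℕ) ∧ (β i : ℕ) + 2 ≤ n * n := fun i => ⟨le_rfl, by simp [β]; omega⟩
  obtain ⟨s, hs0, hsD, hfin⟩ := T3_of d n hd hn p hp hp' β
    (fun s k => measurable_Ssum_blk β s k) (fun s k => T2 d n (by omega) p β s k)
  obtain ⟨s', hs', hs'D⟩ := exists_between hsD
  have hgrow : ∀ᵐ ω ∂(law d n p), surv ω → ¬ Tame s' ω := by
    by_cases h0 : law d n p {ω | surv ω} = 0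
    · have : ∀ᵐ ω ∂(law d n p), ¬ surv ω := by
        rw [ae_iff]; simpa using h0
      filter_upwards [this] with ω hω h
      exact absurd h hω
    · exact T5 d n hd hn p hp0 s' (T4 d n hd hn p hp hp' s' hs'D h0)
  filter_upwards [hfin, hgrow] with ω h1 h2 hne
  have hsurv : surv ω := (F_nonempty_iff (by omega) ω).1 hne
  have hnt := h2 hsurv
  have hlow : (s' : EReal) ≤ upperBoxDim (F ω) := by
    by_contra hcon
    push Not at hcon
    exact hnt (Tame_of_upperBoxDim_lt hn ω s' hcon)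
  have hup : confUpperBoxDim (F (blk ω)) ≤ (s : EReal) :=
    conf_le (by omega) β hβ (blk ω) s hs0 h1
  rw [T10 (by omega : 1 ≤ n) ω] at hup
  calc confUpperBoxDim (F ω) ≤ (s : EReal) := hup
    _ < (s' : EReal) := by exact_mod_cast hs'
    _ ≤ upperBoxDim (F ω) := hlow

end Pool.Agent.R671.MP
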