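import Pool.Agent.R671.MP.Defs

/-! Measurability of survival, of the surviving-cube counts, and their one-step recursions. -/

open MeasureTheory Set Filter Topology
open scoped ENNReal NNReal

namespace Pool.Agent.R671.MP

variable {d n : ℕ}

theorem measurable_shift (a : Fin d → Fin n) : Measurable (shift a : Conf d n → Conf d n) := by
  unfold shift
  exact measurable_pi_lambda _ fun v => measurable_pi_apply (a :: v)

theorem measurable_root (a : Fin d → Fin n) : Measurable fun ω : Conf d n => ω [] a :=
  (measurable_pi_apply a).comp (measurable_pi_apply ([] : List (Fin d → Fin n)))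

theorem measurableSet_root (a : Fin d → Fin n) : MeasurableSet {ω : Conf d n | ω [] a = true} :=
  measurableSet_eq_fun (measurable_root a) measurable_const

theorem measurableSet_kept (w : List (Fin d → Fin n)) : MeasurableSet {ω : Conf d n | kept ω w} := by
  induction w with
  | nil => simp [kept]
  | cons a w ih =>
    have : {ω : Conf d n | kept ω (a :: w)} =
        {ω | ω [] a = true} ∩ (shift a) ⁻¹' {ω | kept ω w} := by
      ext ω; simp [kept]
    rw [this]
    exact (measurableSet_root a).inter (measurable_shift a ih)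

theorem measurableSet_surv : MeasurableSet {ω : Conf d n | surv ω} := by
  have : {ω : Conf d n | surv ω} = ⋂ k : ℕ, ⋃ w : List (Fin d → Fin n), ⋃ _ : w.length = k,
      {ω | kept ω w} := by
    ext ω; simp [surv]
  rw [this]
  exact MeasurableSet.iInter fun k => MeasurableSet.iUnion fun w => MeasurableSet.iUnion fun _ =>
    measurableSet_kept w

/-- A prefix of a kept word is kept. -/
theorem kept_append {ω : Conf d n} {u v : List (Fin d → Fin n)} (h : kept ω (u ++ v)) :
    kept ω u := by
  induction u generalizing ω with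
  | nil => trivial
  | cons a u ih => exact ⟨h.1, ih h.2⟩

theorem surv_iff (ω : Conf d n) : surv ω ↔ ∃ a, ω [] a = true ∧ surv (shift a ω) := by
  constructor
  · intro h
    by_contra hcon
    push Not at hcon
    -- for each retained a there is a level with no kept word
    have h1 : ∀ a : Fin d → Fin n, ∃ k : ℕ, ∀ w : List (Fin d → Fin n), w.length = k →
        ω [] a = true → ¬ kept (shift a ω) w := by
      intro a
      by_cases ha : ω [] a = true
      · have := hcon a ha
        unfold surv at this
        push Not at this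
        obtain ⟨k, hk⟩ := this
        exact ⟨k, fun w hw _ => hk w hw⟩
      · exact ⟨0, fun w _ h' => absurd h' ha⟩
    choose K hK using h1
    obtain ⟨w, hw, hkw⟩ := h ((Finset.univ.sup K) + 1)
    cases w with
    | nil => simp at hw
    | cons a w =>
      have hlen : w.length = Finset.univ.sup K := by simpa using hw
      have hle : K a ≤ w.length := by rw [hlen]; exact Finset.le_sup (Finset.mem_univ a)
      refine hK a (w.take (K a)) (by simp [hle]) hkw.1 ?_
      have := hkw.2
      rw [← List.take_append_drop (K a) w] at this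
      exact kept_append this
  · rintro ⟨a, ha, hs⟩ k
    cases k with
    | zero => exact ⟨[], rfl, trivial⟩
    | succ k =>
      obtain ⟨w, hw, hkw⟩ := hs k
      exact ⟨a :: w, by simp [hw], ha, hkw⟩

theorem not_surv_iff (ω : Conf d n) :
    ¬ surv ω ↔ ∀ a, ω [] a = true → ¬ surv (shift a ω) := by
  rw [surv_iff]; push Not; rfl

theorem measurable_Zs (k : ℕ) : Measurable fun ω : Conf d n => Zs k ω := by
  classical
  induction k with
  | zero =>
    have : (fun ω : Conf d n => Zs 0 ω) = fun ω => if ω ∈ {ω : Conf d n | surv ω} then 1 else 0 := by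
      ext ω; simp [Zs]
    rw [this]
    exact Measurable.ite measurableSet_surv measurable_const measurable_const
  | succ k ih =>
    have : (fun ω : Conf d n => Zs (k + 1) ω) = fun ω => ∑ a : Fin d → Fin n,
        if ω ∈ {ω : Conf d n | ω [] a = true} then Zs k (shift a ω) else 0 := by
      ext ω; simp [Zs]
    rw [this]
    refine Finset.measurable_sum _ fun a _ => ?_
    exact Measurable.ite (measurableSet_root a) (ih.comp (measurable_shift a)) measurable_const

theorem Zs_eq_zero {ω : Conf d n} (h : ¬ surv ω) (k : ℕ) : Zs k ω = 0 := by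
  classical
  induction k generalizing ω with
  | zero => simp [Zs, h]
  | succ k ih =>
    rw [not_surv_iff] at h
    simp only [Zs]
    refine Finset.sum_eq_zero fun a _ => ?_
    by_cases ha : ω [] a = true
    · rw [if_pos ha]; exact ih (h a ha)
    · rw [if_neg ha]

theorem Tame_of_not_surv {ω : Conf d n} (s : ℝ) (h : ¬ surv ω) : Tame s ω :=
  ⟨0, fun k => by simp [Zs_eq_zero h k]⟩

theorem Tame_iff_nat (s : ℝ) (ω : Conf d n) :
    Tame s ω ↔ ∃ C : ℕ, ∀ k : ℕ, (Zs k ω : ℝ) ≤ C * ((n : ℝ) ^ s) ^ k := by
  constructor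
  · rintro ⟨C, hC⟩
    obtain ⟨N, hN⟩ := exists_nat_ge C
    refine ⟨N, fun k => (hC k).trans ?_⟩
    exact mul_le_mul_of_nonneg_right hN (by positivity)
  · rintro ⟨C, hC⟩
    exact ⟨C, hC⟩

theorem measurableSet_Tame (s : ℝ) : MeasurableSet {ω : Conf d n | Tame s ω} := by
  have : {ω : Conf d n | Tame s ω} =
      ⋃ C : ℕ, ⋂ k : ℕ, {ω | (Zs k ω : ℝ) ≤ C * ((n : ℝ) ^ s) ^ k} := by
    ext ω; simp [Tame_iff_nat]
  rw [this]
  refine MeasurableSet.iUnion fun C => MeasurableSet.iInter fun k => ?_
  have hm : Measurable fun ω : Conf d n => ((Zs k ω : ℕ) : ℝ) :=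
    (measurable_from_nat (f := fun m : ℕ => (m : ℝ))).comp (measurable_Zs k)
  exact measurableSet_le hm measurable_const

theorem Tame_iff (hn : 1 ≤ n) (s : ℝ) (ω : Conf d n) :
    Tame s ω ↔ ∀ a, ω [] a = true → Tame s (shift a ω) := by
  classical
  have hn0 : (0 : ℝ) < n := by exact_mod_cast hn
  have hpos : (0 : ℝ) < (n : ℝ) ^ s := Real.rpow_pos_of_pos hn0 s
  constructor
  · rintro ⟨C, hC⟩ a ha
    refine ⟨C * (n : ℝ) ^ s, fun k => ?_⟩
    have h1 : Zs k (shift a ω) ≤ Zs (k + 1) ω := by
      have : Zs k (shift a ω) = (fun a : Fin d → Fin n =>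
          if ω [] a = true then Zs k (shift a ω) else 0) a := by simp [ha]
      rw [this]
      simp only [Zs]
      exact Finset.single_le_sum (f := fun a : Fin d → Fin n =>
        if ω [] a = true then Zs k (shift a ω) else 0) (fun _ _ => Nat.zero_le _) (Finset.mem_univ a)
    have h2 : (Zs k (shift a ω) : ℝ) ≤ Zs (k + 1) ω := by exact_mod_cast h1
    calc (Zs k (shift a ω) : ℝ) ≤ Zs (k + 1) ω := h2
      _ ≤ C * ((n : ℝ) ^ s) ^ (k + 1) := hC _
      _ = C * (n : ℝ) ^ s * ((n : ℝ) ^ s) ^ k := by ring
  · intro h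
    have h' : ∀ a : Fin d → Fin n, ∃ C : ℝ, 0 ≤ C ∧ ∀ k : ℕ,
        (if ω [] a = true then (Zs k (shift a ω) : ℝ) else 0) ≤ C * ((n : ℝ) ^ s) ^ k := by
      intro a
      by_cases ha : ω [] a = true
      · obtain ⟨C, hC⟩ := h a ha
        refine ⟨max C 0, le_max_right _ _, fun k => ?_⟩
        rw [if_pos ha]
        exact (hC k).trans (mul_le_mul_of_nonneg_right (le_max_left _ _) (by positivity))
      · refine ⟨0, le_rfl, fun k => ?_⟩
        rw [if_neg ha]; simp
    choose C hC0 hC using h'
    refine ⟨1 + (∑ a, C a) / (n : ℝ) ^ s, fun k => ?_⟩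
    have hS : 0 ≤ (∑ a, C a) / (n : ℝ) ^ s := div_nonneg (Finset.sum_nonneg fun a _ => hC0 a) hpos.le
    cases k with
    | zero =>
      have : Zs 0 ω ≤ 1 := by simp only [Zs]; split_ifs <;> simp
      have h1 : (Zs 0 ω : ℝ) ≤ 1 := by exact_mod_cast this
      simp only [pow_zero, mul_one]
      linarith
    | succ k =>
      have h1 : (Zs (k + 1) ω : ℝ) = ∑ a : Fin d → Fin n,
          (if ω [] a = true then (Zs k (shift a ω) : ℝ) else 0) := by
        simp only [Zs]
        push_cast
        rfl
      rw [h1]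
      calc ∑ a : Fin d → Fin n, (if ω [] a = true then (Zs k (shift a ω) : ℝ) else 0)
          ≤ ∑ a : Fin d → Fin n, C a * ((n : ℝ) ^ s) ^ k := Finset.sum_le_sum fun a _ => hC a k
        _ = (∑ a, C a) / (n : ℝ) ^ s * ((n : ℝ) ^ s) ^ (k + 1) := by
            rw [← Finset.sum_mul, pow_succ]; field_simp
        _ ≤ (1 + (∑ a, C a) / (n : ℝ) ^ s) * ((n : ℝ) ^ s) ^ (k + 1) :=
            mul_le_mul_of_nonneg_right (by linarith) (by positivity)

end Pool.Agent.R671.MP
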