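import Pool.Agent.R671.MP.Defs

/-! MP_c03e51_gt: elementary facts on cubes, kept words and levels. -/

open MeasureTheory Set Filter Topology
open scoped ENNReal NNReal

namespace Pool.Agent.R671.MP.CubeAux

variable {d n : ℕ}

/-- the configuration seen inside the cube `w` -/
def drp (κ : Conf d n) (w : List (Fin d → Fin n)) : Conf d n := fun v => κ (w ++ v)

theorem drp_cons (κ : Conf d n) (a : Fin d → Fin n) (w : List (Fin d → Fin n)) :
    drp κ (a :: w) = drp (shift a κ) w := rfl

theorem drp_nil (κ : Conf d n) : drp κ [] = κ := rfl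

theorem kept_append (w u : List (Fin d → Fin n)) : ∀ κ : Conf d n,
    kept κ (w ++ u) ↔ kept κ w ∧ kept (drp κ w) u := by
  induction w with
  | nil =>
    intro κ
    rw [drp_nil]
    simp [kept]
  | cons a w ih =>
    intro κ
    rw [drp_cons, List.cons_append, kept, kept, ih, and_assoc]

theorem gcount_append (β : Fin d → Fin n) (w u : List (Fin d → Fin n)) : ∀ κ : Conf d n,
    gcount β κ (w ++ u) = gcount β κ w + gcount β (drp κ w) u := by
  induction w with
  | nil =>
    intro κ
    rw [drp_nil]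
    simp [gcount]
  | cons a w ih =>
    intro κ
    rw [drp_cons, List.cons_append, gcount, gcount, ih, add_assoc]

/-- membership in a cube, coordinatewise, for plain functions -/
def inC (x : Fin d → ℝ) (w : List (Fin d → Fin n)) : Prop :=
  ∀ i, corner w i ≤ x i ∧ x i ≤ corner w i + 1 / (n : ℝ) ^ w.length

theorem mem_cube (x : EuclideanSpace ℝ (Fin d)) (w : List (Fin d → Fin n)) :
    x ∈ cube w ↔ inC (fun i => x i) w := Iff.rfl

theorem inC_cons (hn : 1 ≤ n) (x : Fin d → ℝ) (a : Fin d → Fin n) (w : List (Fin d → Fin n)) :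
    inC x (a :: w) ↔ inC (fun i => n * x i - (a i : ℕ)) w := by
  have h0 : (0 : ℝ) < n := by exact_mod_cast hn
  unfold inC
  refine forall_congr' fun i => ?_
  have e1 : corner (a :: w) i = (((a i : ℕ) : ℝ) + corner w i) / (n : ℝ) := rfl
  rw [e1, List.length_cons, pow_succ]
  have e2 : (((a i : ℕ) : ℝ) + corner w i) / (n : ℝ) + 1 / ((n : ℝ) ^ w.length * n) =
      (((a i : ℕ) : ℝ) + corner w i + 1 / (n : ℝ) ^ w.length) / n := by
    field_simp
  rw [e2, div_le_iff₀ h0, le_div_iff₀ h0]
  constructor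
  · rintro ⟨h1, h2⟩
    constructor <;> linarith
  · rintro ⟨h1, h2⟩
    constructor <;> linarith

theorem corner_bd (hn : 1 ≤ n) (w : List (Fin d → Fin n)) (i : Fin d) :
    0 ≤ corner w i ∧ corner w i + 1 / (n : ℝ) ^ w.length ≤ 1 := by
  have h0 : (0 : ℝ) < n := by exact_mod_cast hn
  induction w with
  | nil => simp [corner]
  | cons a w ih =>
    have e1 : corner (a :: w) i = (((a i : ℕ) : ℝ) + corner w i) / (n : ℝ) := rfl
    have h1 : ((a i : ℕ) : ℝ) + 1 ≤ n := by exact_mod_cast (a i).2
    have h2 : (0 : ℝ) ≤ ((a i : ℕ) : ℝ) := Nat.cast_nonneg _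
    rw [e1, List.length_cons, pow_succ]
    have e2 : (((a i : ℕ) : ℝ) + corner w i) / (n : ℝ) + 1 / ((n : ℝ) ^ w.length * n) =
        (((a i : ℕ) : ℝ) + corner w i + 1 / (n : ℝ) ^ w.length) / n := by
      field_simp
    rw [e2, div_le_one h0]
    refine ⟨div_nonneg (by linarith [ih.1]) h0.le, by linarith [ih.2]⟩

theorem inC_nil_iff (x : Fin d → ℝ) :
    inC x ([] : List (Fin d → Fin n)) ↔ ∀ i, 0 ≤ x i ∧ x i ≤ 1 := by
  unfold inC
  simp [corner]

theorem inC_unit (hn : 1 ≤ n) {x : Fin d → ℝ} {w : List (Fin d → Fin n)} (h : inC x w) (i : Fin d) :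
    0 ≤ x i ∧ x i ≤ 1 := by
  have h1 := corner_bd hn w i
  have h2 := h i
  constructor <;> linarith [h1.1, h1.2, h2.1, h2.2]

theorem inC_append (hn : 1 ≤ n) (w u : List (Fin d → Fin n)) : ∀ x : Fin d → ℝ,
    inC x (w ++ u) → inC x w := by
  induction w with
  | nil =>
    intro x h
    rw [inC_nil_iff]
    exact fun i => inC_unit hn h i
  | cons a w ih =>
    intro x h
    rw [List.cons_append, inC_cons hn] at h
    rw [inC_cons hn]
    exact ih _ h

theorem level_mem (ω : Conf d n) (k : ℕ) (x : EuclideanSpace ℝ (Fin d)) :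
    x ∈ level ω k ↔ ∃ w : List (Fin d → Fin n), w.length = k ∧ kept ω w ∧ x ∈ cube w := by
  unfold level
  simp only [mem_iUnion, mem_ofPred_eq, exists_prop, and_assoc]

theorem level_succ (hn : 1 ≤ n) (ω : Conf d n) (k : ℕ) : level ω (k + 1) ⊆ level ω k := by
  intro x hx
  rw [level_mem] at hx ⊢
  obtain ⟨w, hw, hk, hx⟩ := hx
  refine ⟨w.take k, by rw [List.length_take]; omega, ?_, ?_⟩
  · rw [← List.take_append_drop k w] at hk
    exact ((kept_append _ _ _).1 hk).1
  · rw [mem_cube] at hx ⊢
    rw [← List.take_append_drop k w] at hx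
    exact inC_append hn _ _ _ hx

theorem level_anti (hn : 1 ≤ n) (ω : Conf d n) {k l : ℕ} (h : k ≤ l) : level ω l ⊆ level ω k := by
  induction l with
  | zero =>
    have : k = 0 := by omega
    subst this
    exact subset_rfl
  | succ l ih =>
    rcases Nat.lt_or_ge l k with h1 | h1
    · have : k = l + 1 := by omega
      subst this
      exact subset_rfl
    · exact (level_succ hn ω l).trans (ih h1)

end Pool.Agent.R671.MP.CubeAux
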