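import Mathlib

/-!
# MP_c03e51_gt: conformal upper box dimension of Mandelbrot percolation — definitions

A *letter* is an element of `Fin d → Fin n` (it names one of the `n ^ d` subcubes of a cube) and a
*word* is a list of letters; the word `[a₁, …, a_k]` names the cube reached from `[0,1]^d` by taking
first subcube `a₁`, then subcube `a₂` of it, and so on.
-/

open MeasureTheory Set Filter Topology
open scoped ENNReal NNReal

namespace Pool.Agent.R671.MP

section Percolation

variable {d n : ℕ}

/-- A configuration: `ω v a = true` iff subcube `a` of the cube `v` is retained. -/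
abbrev Conf (d n : ℕ) : Type := List (Fin d → Fin n) → (Fin d → Fin n) → Bool

/-- The configuration seen inside subcube `a` of the unit cube. -/
def shift (a : Fin d → Fin n) (ω : Conf d n) : Conf d n := fun v => ω (a :: v)

/-- The cube `w` is kept: every step along `w` goes to a retained subcube. -/
def kept : Conf d n → List (Fin d → Fin n) → Prop
  | _, [] => True
  | ω, a :: w => ω [] a = true ∧ kept (shift a ω) w

/-- The lower corner of the cube `w`. -/
noncomputable def corner : List (Fin d → Fin n) → Fin d → ℝ
  | [] => fun _ => 0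
  | a :: w => fun i => (((a i : ℕ) : ℝ) + corner w i) / (n : ℝ)

/-- The closed cube named by `w`, of side `n ^ (-|w|)`. -/
def cube (w : List (Fin d → Fin n)) : Set (EuclideanSpace ℝ (Fin d)) :=
  {x | ∀ i, corner w i ≤ x i ∧ x i ≤ corner w i + 1 / (n : ℝ) ^ w.length}

/-- The union `F_k` of the cubes kept at level `k`. -/
def level (ω : Conf d n) (k : ℕ) : Set (EuclideanSpace ℝ (Fin d)) :=
  ⋃ w ∈ {w : List (Fin d → Fin n) | w.length = k ∧ kept ω w}, cube w

/-- The limit set `F = ⋂ F_k`. -/
def F (ω : Conf d n) : Set (EuclideanSpace ℝ (Fin d)) := ⋂ k, level ω k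

/-- The law of the retained subcubes of one cube: independent Bernoulli(`p`) variables. -/
noncomputable def off (d n : ℕ) (p : unitInterval) : Measure ((Fin d → Fin n) → Bool) :=
  Measure.pi fun _ : Fin d → Fin n => ProbabilityTheory.bernoulliMeasure true false p

instance (d n : ℕ) (p : unitInterval) : IsProbabilityMeasure (off d n p) := by
  unfold off; infer_instance

/-- The law of Mandelbrot percolation: the variables `ω v a` are i.i.d. Bernoulli(`p`). -/
noncomputable def law (d n : ℕ) (p : unitInterval) : Measure (Conf d n) :=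
  Measure.infinitePi fun _ : List (Fin d → Fin n) => off d n p

instance (d n : ℕ) (p : unitInterval) : IsProbabilityMeasure (law d n p) := by
  unfold law; infer_instance

/-! ### Survival and the number of surviving cubes -/

/-- The tree of kept cubes is infinite. -/
def surv (ω : Conf d n) : Prop := ∀ k : ℕ, ∃ w : List (Fin d → Fin n), w.length = k ∧ kept ω w

open Classical in
/-- The number of kept words of length `k` below which the kept tree is infinite. -/
noncomputable def Zs : ℕ → Conf d n → ℕ
  | 0, ω => if surv ω then 1 else 0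
  | k + 1, ω => ∑ a : Fin d → Fin n, if ω [] a = true then Zs k (shift a ω) else 0

/-- The numbers of surviving cubes grow at most like `C * (n ^ s) ^ k`. -/
def Tame (s : ℝ) (ω : Conf d n) : Prop :=
  ∃ C : ℝ, ∀ k : ℕ, (Zs k ω : ℝ) ≤ C * ((n : ℝ) ^ s) ^ k

/-! ### Good cubes, radii and their sums -/

/-- The only retained subcube of the unit cube is `β`. -/
def Good (β : Fin d → Fin n) (κ : Conf d n) : Prop := ∀ c, κ [] c = true ↔ c = β

open Classical in
/-- The number of strict prefixes of a word that are good. -/
noncomputable def gcount (β : Fin d → Fin n) : Conf d n → List (Fin d → Fin n) → ℕ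
  | _, [] => 0
  | κ, c :: w => (if Good β κ then 1 else 0) + gcount β (shift c κ) w

/-- The radius `2 ^ (-#good strict prefixes) * n ^ (-|w|)` of a word. -/
noncomputable def rad (β : Fin d → Fin n) (κ : Conf d n) (w : List (Fin d → Fin n)) : ℝ :=
  (1 / 2) ^ gcount β κ w / (n : ℝ) ^ w.length

open Classical in
/-- The factor by which `rad` drops from the root to its children. -/
noncomputable def fac (β : Fin d → Fin n) (κ : Conf d n) : ℝ :=
  (if Good β κ then 1 / 2 else 1) / (n : ℝ)

/-- `Ssum β s k κ = ∑ (rad β κ w) ^ s` over the kept words `w` of length `k` (given recursively). -/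
noncomputable def Ssum (β : Fin d → Fin n) (s : ℝ) : ℕ → Conf d n → ℝ≥0∞
  | 0, _ => 1
  | k + 1, κ => ∑ c : Fin d → Fin n,
      if κ [] c = true then ENNReal.ofReal (fac β κ ^ s) * Ssum β s k (shift c κ) else 0

/-! ### Two levels at once -/

/-- First letter of the two-level letter `c`; `c i = n * fstL c i + sndL c i`. -/
def fstL (c : Fin d → Fin (n * n)) : Fin d → Fin n := fun i => (c i).divNat

/-- Second letter of the two-level letter `c`. -/
def sndL (c : Fin d → Fin (n * n)) : Fin d → Fin n := fun i => (c i).modNat

/-- The configuration `ω` read two levels at a time. -/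
def blk : Conf d n → List (Fin d → Fin (n * n)) → (Fin d → Fin (n * n)) → Bool
  | ω, [], c => ω [] (fstL c) && ω [fstL c] (sndL c)
  | ω, c' :: w, c => blk (shift (sndL c') (shift (fstL c') ω)) w c

end Percolation

/-! ### Box dimension, quasisymmetric maps, conformal box dimension -/

/-- The least number of closed balls of radius `ε` with centres in `Y` that cover `Y`
(`⊤` if there is no finite cover). -/
noncomputable def coverNum (Y : Type*) [MetricSpace Y] (ε : ℝ) : ℕ∞ :=
  ⨅ (s : Finset Y) (_ : ∀ y, ∃ z ∈ s, dist y z ≤ ε), (s.card : ℕ∞)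

/-- The upper box-counting dimension `limsup_{ε → 0+} log N(ε) / log (1/ε)`. -/
noncomputable def upperBoxDim (Y : Type*) [MetricSpace Y] : EReal :=
  limsup (fun ε : ℝ => ENNReal.log ((coverNum Y ε : ℕ∞) : ℝ≥0∞) / ((Real.log (1 / ε) : ℝ) : EReal))
    (𝓝[>] (0 : ℝ))

/-- A homeomorphism is quasisymmetric if some homeomorphism `η` of `[0, ∞)` controls the distortion
of relative distances. -/
def IsQuasisymmetric {X Y : Type*} [MetricSpace X] [MetricSpace Y] (f : X ≃ₜ Y) : Prop :=
  ∃ η : ℝ≥0 ≃ₜ ℝ≥0, ∀ (x a b : X) (t : ℝ≥0), 0 < t → dist x a ≤ t * dist x b →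
    dist (f x) (f a) ≤ η t * dist (f x) (f b)

/-- Conformal upper box dimension: the infimum of the upper box dimensions of the metric spaces
quasisymmetrically equivalent to `X`. -/
noncomputable def confUpperBoxDim (X : Type) [MetricSpace X] : EReal :=
  ⨅ (Y : Type) (_ : MetricSpace Y) (f : X ≃ₜ Y) (_ : IsQuasisymmetric f), upperBoxDim Y

/-- A system of isolated nested pieces of a metric space. -/
structure PieceSystem (X : Type) [MetricSpace X] where
  ι : Type
  piece : ι → Set X
  rank : ι → ℕ
  scale : ι → ℝ
  D : ℝ
  one_le_D : 1 ≤ D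
  scale_pos : ∀ i, 0 < scale i
  dist_le : ∀ i, ∀ x ∈ piece i, ∀ y ∈ piece i, dist x y ≤ D * scale i
  sep : ∀ i, ∀ x ∈ piece i, ∀ y ∉ piece i, scale i ≤ dist x y
  unique : ∀ i j, rank i = rank j → (piece i ∩ piece j).Nonempty → i = j
  nest : ∀ i k, rank i = k + 1 → ∃ j, rank j = k ∧ piece i ⊆ piece j ∧ scale i ≤ scale j / 2

end Pool.Agent.R671.MP
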