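import Pool.Agent.R671.MP.Defs

/-!
# MP_c03e51_gt, piece T2: the expectation of `Ssum` on two-level configurations
-/

open MeasureTheory Set Filter Topology
open scoped ENNReal NNReal

namespace Pool.Agent.R671.MP

namespace T2aux

variable {d n : ℕ}

/-- words of length at most one -/
def S (d n : ℕ) : Set (List (Fin d → Fin n)) := {v | v.length ≤ 1}
/-- words of length at least two -/
def T (d n : ℕ) : Set (List (Fin d → Fin n)) := {v | 2 ≤ v.length}

/-- the sigma-algebra of the coordinate `v` -/
abbrev mc (d n : ℕ) (v : List (Fin d → Fin n)) : MeasurableSpace (Conf d n) :=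
  MeasurableSpace.comap (fun ω : Conf d n => ω v) inferInstance

theorem indep_ST (p : unitInterval) :
    ProbabilityTheory.Indep (⨆ v ∈ S d n, mc d n v) (⨆ v ∈ T d n, mc d n v) (law d n p) := by
  have h : ProbabilityTheory.iIndepFun (fun (v : List (Fin d → Fin n)) (ω : Conf d n) => ω v)
      (law d n p) :=
    ProbabilityTheory.iIndepFun_infinitePi (P := fun _ : List (Fin d → Fin n) => off d n p)
      (X := fun _ x => x) (fun _ => measurable_id)
  refine ProbabilityTheory.indep_iSup_of_disjoint (fun v => ?_) h ?_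
  · exact measurable_iff_comap_le.1 (measurable_pi_apply v)
  · rw [Set.disjoint_left]
    intro v hv hv'
    have h1 : v.length ≤ 1 := hv
    have h2 : 2 ≤ v.length := hv'
    omega

theorem meas_coord {U : Set (List (Fin d → Fin n))} {v : List (Fin d → Fin n)} (hv : v ∈ U) :
    Measurable[⨆ v ∈ U, mc d n v] (fun ω : Conf d n => ω v) :=
  measurable_iff_comap_le.2 (le_iSup₂ (f := fun v (_ : v ∈ U) => mc d n v) v hv)

theorem le_pi (U : Set (List (Fin d → Fin n))) :
    (⨆ v ∈ U, mc d n v) ≤ (inferInstance : MeasurableSpace (Conf d n)) :=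
  iSup₂_le (fun v _ => measurable_iff_comap_le.1 (measurable_pi_apply v))

/-- the first two levels -/
def r (ω : Conf d n) : ((Fin d → Fin n) → Bool) × ((Fin d → Fin n) → ((Fin d → Fin n) → Bool)) :=
  (ω [], fun a => ω [a])

theorem meas_r : Measurable[⨆ v ∈ S d n, mc d n v] (r (d := d) (n := n)) := by
  have h1 : Measurable[⨆ v ∈ S d n, mc d n v] (fun ω : Conf d n => ω []) :=
    meas_coord (U := S d n) (show ([] : List (Fin d → Fin n)).length ≤ 1 by simp)
  have h2 : Measurable[⨆ v ∈ S d n, mc d n v]
      (fun (ω : Conf d n) (a : Fin d → Fin n) => ω [a]) :=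
    @measurable_pi_lambda _ _ _ (⨆ v ∈ S d n, mc d n v) _ _ (fun a =>
      meas_coord (U := S d n) (show ([a] : List (Fin d → Fin n)).length ≤ 1 by simp))
  exact Measurable.prodMk h1 h2

theorem mp_shift (p : unitInterval) (a b : Fin d → Fin n) :
    Measure.map (fun ω : Conf d n => shift b (shift a ω)) (law d n p) = law d n p := by
  have h := Measure.map_infinitePi_infinitePi_of_inj
    (P := fun _ : List (Fin d → Fin n) => off d n p)
    (f := fun v : List (Fin d → Fin n) => a :: b :: v) (fun v w h => by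
      simpa using h)
  exact h

theorem meas_shift (a : Fin d → Fin n) : Measurable (fun ω : Conf d n => shift a ω) :=
  measurable_pi_lambda _ (fun v => measurable_pi_apply (a :: v))

theorem key (p : unitInterval) (a b : Fin d → Fin n)
    (Ψ : ((Fin d → Fin n) → Bool) × ((Fin d → Fin n) → ((Fin d → Fin n) → Bool)) → ℝ≥0∞)
    (g : Conf d n → ℝ≥0∞) (hg : Measurable g) :
    ∫⁻ ω, Ψ (r ω) * g (shift b (shift a ω)) ∂(law d n p) =
      (∫⁻ ω, Ψ (r ω) ∂(law d n p)) * ∫⁻ ω, g ω ∂(law d n p) := by
  have h := ProbabilityTheory.lintegral_mul_eq_lintegral_mul_lintegral_of_independent_measurableSpace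
    (f := fun ω => Ψ (r ω)) (g := fun ω : Conf d n => g (shift b (shift a ω)))
    (le_pi (S d n)) (le_pi (T d n)) (indep_ST p)
    ((measurable_of_countable Ψ).comp meas_r)
    (hg.comp (@measurable_pi_lambda _ _ _ (⨆ v ∈ T d n, mc d n v) _ _ (fun v =>
      meas_coord (U := T d n) (v := a :: b :: v)
        (show 2 ≤ (a :: b :: v).length by simp))))
  rw [h]
  congr 1
  have h2 := lintegral_map (μ := law d n p) (f := g)
    (g := fun ω : Conf d n => shift b (shift a ω)) hg ((meas_shift b).comp (meas_shift a))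
  rw [mp_shift] at h2
  exact h2.symm

/-- the coefficient of the letter `c` -/
noncomputable def Ps (β : Fin d → Fin (n * n)) (s : ℝ) (c : Fin d → Fin (n * n))
    (x : ((Fin d → Fin n) → Bool) × ((Fin d → Fin n) → ((Fin d → Fin n) → Bool))) : ℝ≥0∞ :=
  if (x.1 (fstL c) && x.2 (fstL c) (sndL c)) = true then
    ENNReal.ofReal (((@ite ℝ (∀ c', (x.1 (fstL c') && x.2 (fstL c') (sndL c')) = true ↔ c' = β)
      (Classical.propDecidable _) (1 / 2 : ℝ) 1) / ((n * n : ℕ) : ℝ)) ^ s) else 0

theorem Ps_r (β : Fin d → Fin (n * n)) (s : ℝ) (c : Fin d → Fin (n * n)) (ω : Conf d n) :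
    Ps β s c (r ω) = if blk ω [] c = true then ENNReal.ofReal (fac β (blk ω) ^ s) else 0 := rfl

theorem Ssum_succ (β : Fin d → Fin (n * n)) (s : ℝ) (k : ℕ) (ω : Conf d n) :
    Ssum β s (k + 1) (blk ω) = ∑ c : Fin d → Fin (n * n),
      Ps β s c (r ω) * Ssum β s k (blk (shift (sndL c) (shift (fstL c) ω))) := by
  show (∑ c : Fin d → Fin (n * n), if blk ω [] c = true then
    ENNReal.ofReal (fac β (blk ω) ^ s) * Ssum β s k (shift c (blk ω)) else 0) = _
  refine Finset.sum_congr rfl (fun c _ => ?_)
  rw [Ps_r]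
  have e : shift c (blk ω) = blk (shift (sndL c) (shift (fstL c) ω)) := rfl
  rw [e]
  split_ifs
  · rfl
  · rw [zero_mul]

end T2aux

open T2aux

theorem measurable_Ssum_blk {d n : ℕ} (β : Fin d → Fin (n * n)) (s : ℝ) (k : ℕ) :
    Measurable fun ω : Conf d n => Ssum β s k (blk ω) := by
  induction k with
  | zero => exact measurable_const
  | succ k ih =>
    simp_rw [Ssum_succ]
    refine Finset.measurable_sum _ (fun c _ => ?_)
    refine Measurable.fun_mul ?_ ?_
    · exact (measurable_of_countable (Ps β s c)).comp (meas_r.mono (le_pi _) le_rfl)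
    · exact ih.comp ((meas_shift _).comp (meas_shift _))

namespace T2aux

variable {d n : ℕ}

theorem off_eval (p : unitInterval) (a : Fin d → Fin n) :
    (off d n p) {x | x a = true} = (unitInterval.toNNReal p : ℝ≥0∞) := by
  have h := (measurePreserving_eval (fun _ : Fin d → Fin n =>
    (ProbabilityTheory.bernoulliMeasure true false p : Measure Bool)) a).measure_preimage
      (s := ({true} : Set Bool)) (measurableSet_singleton true).nullMeasurableSet
  have e : (Function.eval a ⁻¹' {true} : Set ((Fin d → Fin n) → Bool)) = {x | x a = true} := rfl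
  rw [e] at h
  unfold off
  rw [h, ProbabilityTheory.bernoulliMeasure_apply p (measurableSet_singleton _)]
  simp

theorem law_two (p : unitInterval) (a b : Fin d → Fin n) :
    (law d n p).real {ω | ω [] a = true ∧ ω [a] b = true} = (p : ℝ) ^ 2 := by
  classical
  have hne : ([] : List (Fin d → Fin n)) ≠ [a] := by simp
  have h := Measure.infinitePi_pi (fun _ : List (Fin d → Fin n) => off d n p)
    (s := {[], [a]}) (t := fun v => if v = [] then {x | x a = true} else {x | x b = true})
    (fun v _ => by
      split_ifs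
      · exact measurableSet_eq_fun (measurable_pi_apply a) measurable_const
      · exact measurableSet_eq_fun (measurable_pi_apply b) measurable_const)
  rw [Finset.prod_pair hne, if_pos rfl, if_neg hne.symm, off_eval, off_eval] at h
  have e : ((({[], [a]} : Finset (List (Fin d → Fin n))) : Set (List (Fin d → Fin n))).pi
      (fun v => if v = [] then {x : (Fin d → Fin n) → Bool | x a = true} else {x | x b = true})) =
      {ω : Conf d n | ω [] a = true ∧ ω [a] b = true} := by
    ext ω
    simp
  rw [e] at h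
  unfold law
  rw [measureReal_def, h]
  rw [ENNReal.toReal_mul, ENNReal.coe_toReal, unitInterval.coe_toNNReal, pow_two]

theorem meas_blk (c : Fin d → Fin (n * n)) :
    MeasurableSet {ω : Conf d n | blk ω [] c = true} := by
  have h : Measurable (fun ω : Conf d n => (r ω)) := meas_r.mono (le_pi _) le_rfl
  exact h (t := {x | (x.1 (fstL c) && x.2 (fstL c) (sndL c)) = true})
    (Set.to_countable _).measurableSet

theorem meas_good (β : Fin d → Fin (n * n)) :
    MeasurableSet {ω : Conf d n | Good β (blk ω)} := by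
  have h : Measurable (fun ω : Conf d n => (r ω)) := meas_r.mono (le_pi _) le_rfl
  exact h (t := {x | ∀ c', (x.1 (fstL c') && x.2 (fstL c') (sndL c')) = true ↔ c' = β})
    (Set.to_countable _).measurableSet

theorem law_blk (p : unitInterval) (c : Fin d → Fin (n * n)) :
    (law d n p).real {ω | blk ω [] c = true} = (p : ℝ) ^ 2 := by
  rw [← law_two p (fstL c) (sndL c)]
  congr 1
  ext ω
  show (ω [] (fstL c) && ω [fstL c] (sndL c)) = true ↔ _
  rw [Bool.and_eq_true]
  rfl

/-- number of retained two-level letters minus the correction -/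
noncomputable def ff (β : Fin d → Fin (n * n)) (s : ℝ) (ω : Conf d n) : ℝ :=
  ((∑ c : Fin d → Fin (n * n), {ω : Conf d n | blk ω [] c = true}.indicator (fun _ => (1 : ℝ)) ω) -
    (1 - (1 / 2 : ℝ) ^ s) * {ω : Conf d n | Good β (blk ω)}.indicator (fun _ => (1 : ℝ)) ω) /
      ((n : ℝ) * n) ^ s

open Classical in
theorem sum_Ps (β : Fin d → Fin (n * n)) (s : ℝ) (ω : Conf d n) :
    0 ≤ ff β s ω ∧ ∑ c : Fin d → Fin (n * n), Ps β s c (r ω) = ENNReal.ofReal (ff β s ω) := by
  have h1 : ∑ c : Fin d → Fin (n * n), Ps β s c (r ω) =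
      ENNReal.ofReal ((∑ c : Fin d → Fin (n * n),
        {ω : Conf d n | blk ω [] c = true}.indicator (fun _ => (1 : ℝ)) ω) *
          fac β (blk ω) ^ s) := by
    rw [Finset.sum_mul, ENNReal.ofReal_sum_of_nonneg]
    · refine Finset.sum_congr rfl (fun c _ => ?_)
      rw [Ps_r]
      by_cases h : blk ω [] c = true
      · rw [if_pos h, Set.indicator_of_mem (show ω ∈ {ω : Conf d n | blk ω [] c = true} from h),
          one_mul]
      · rw [if_neg h, Set.indicator_of_notMem
          (show ω ∉ {ω : Conf d n | blk ω [] c = true} from h), zero_mul, ENNReal.ofReal_zero]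
    · intro c _
      refine mul_nonneg (Set.indicator_nonneg (fun _ _ => zero_le_one) _) ?_
      refine Real.rpow_nonneg ?_ _
      unfold fac
      split_ifs <;> positivity
  have h2 : (∑ c : Fin d → Fin (n * n),
        {ω : Conf d n | blk ω [] c = true}.indicator (fun _ => (1 : ℝ)) ω) *
          fac β (blk ω) ^ s = ff β s ω := by
    unfold ff fac
    have hnn : ((n * n : ℕ) : ℝ) = (n : ℝ) * n := by push_cast; ring
    rw [hnn]
    have hnn0 : (0 : ℝ) ≤ (n : ℝ) * n := by positivity
    by_cases hG : Good β (blk ω)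
    · rw [if_pos hG, Set.indicator_of_mem (show ω ∈ {ω : Conf d n | Good β (blk ω)} from hG)]
      have hs : (∑ c : Fin d → Fin (n * n),
          {ω : Conf d n | blk ω [] c = true}.indicator (fun _ => (1 : ℝ)) ω) = 1 := by
        rw [Finset.sum_eq_single β]
        · exact Set.indicator_of_mem (show ω ∈ {ω : Conf d n | blk ω [] β = true} from
            (hG β).2 rfl) _
        · intro c _ hc
          exact Set.indicator_of_notMem (show ω ∉ {ω : Conf d n | blk ω [] c = true} from
            fun h => hc ((hG c).1 h)) _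
        · intro h
          exact absurd (Finset.mem_univ _) h
      rw [hs, Real.div_rpow (by norm_num) hnn0]
      ring
    · rw [if_neg hG, Set.indicator_of_notMem (show ω ∉ {ω : Conf d n | Good β (blk ω)} from hG),
        Real.div_rpow (by norm_num) hnn0, Real.one_rpow]
      ring
  refine ⟨?_, by rw [h1, h2]⟩
  rw [← h2]
  refine mul_nonneg (Finset.sum_nonneg (fun c _ => Set.indicator_nonneg
    (fun _ _ => zero_le_one) _)) (Real.rpow_nonneg ?_ _)
  unfold fac
  split_ifs <;> positivity

theorem theta (p : unitInterval) (β : Fin d → Fin (n * n)) (s : ℝ) :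
    ∫⁻ ω, ∑ c : Fin d → Fin (n * n), Ps β s c (r ω) ∂(law d n p) =
      ENNReal.ofReal ((((n : ℝ) ^ d * p) ^ 2
        - (1 - (1 / 2 : ℝ) ^ s) * (law d n p).real {ω | Good β (blk ω)}) / ((n : ℝ) * n) ^ s) := by
  have hi1 : ∀ c : Fin d → Fin (n * n), Integrable
      ({ω : Conf d n | blk ω [] c = true}.indicator (fun _ => (1 : ℝ))) (law d n p) :=
    fun c => (integrable_const 1).indicator (meas_blk c)
  have hi2 : Integrable
      ({ω : Conf d n | Good β (blk ω)}.indicator (fun _ => (1 : ℝ))) (law d n p) :=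
    (integrable_const 1).indicator (meas_good β)
  have hi3 : Integrable (fun ω : Conf d n => ∑ c : Fin d → Fin (n * n),
      {ω : Conf d n | blk ω [] c = true}.indicator (fun _ => (1 : ℝ)) ω) (law d n p) :=
    integrable_finsetSum _ (fun c _ => hi1 c)
  have hff : Integrable (ff β s) (law d n p) :=
    (hi3.sub (hi2.const_mul _)).div_const _
  have h1 : ∫⁻ ω, ∑ c : Fin d → Fin (n * n), Ps β s c (r ω) ∂(law d n p) =
      ∫⁻ ω, ENNReal.ofReal (ff β s ω) ∂(law d n p) :=
    lintegral_congr (fun ω => (sum_Ps β s ω).2)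
  rw [h1, ← ofReal_integral_eq_lintegral_ofReal hff
    (Filter.Eventually.of_forall (fun ω => (sum_Ps β s ω).1))]
  congr 1
  unfold ff
  rw [integral_div, integral_sub hi3 (hi2.const_mul _), integral_finsetSum _ (fun c _ => hi1 c),
    integral_const_mul, integral_indicator (meas_good β)]
  have e1 : ∀ c : Fin d → Fin (n * n), (∫ ω, {ω : Conf d n | blk ω [] c = true}.indicator
      (fun _ => (1 : ℝ)) ω ∂(law d n p)) = (p : ℝ) ^ 2 := by
    intro c
    rw [integral_indicator (meas_blk c), setIntegral_const, law_blk]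
    simp
  simp_rw [e1]
  rw [setIntegral_const]
  simp only [smul_eq_mul, mul_one, Finset.sum_const, Finset.card_univ, Fintype.card_fun,
    Fintype.card_fin, nsmul_eq_mul]
  push_cast
  ring

end T2aux

theorem T2 (d n : ℕ) (hn : 1 ≤ n) (p : unitInterval) (β : Fin d → Fin (n * n)) (s : ℝ) (k : ℕ) :
    ∫⁻ ω, Ssum β s k (blk ω) ∂(law d n p) =
      ENNReal.ofReal ((((n : ℝ) ^ d * p) ^ 2
        - (1 - (1 / 2 : ℝ) ^ s) * (law d n p).real {ω | Good β (blk ω)}) / ((n : ℝ) * n) ^ s) ^ k := by
  induction k with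
  | zero =>
    show ∫⁻ _, (1 : ℝ≥0∞) ∂(law d n p) = _
    simp
  | succ k ih =>
    have hmeas : ∀ c : Fin d → Fin (n * n), Measurable (fun ω : Conf d n => Ps β s c (r ω)) :=
      fun c => (measurable_of_countable (Ps β s c)).comp (meas_r.mono (le_pi _) le_rfl)
    simp_rw [Ssum_succ]
    rw [lintegral_finsetSum _ (fun c _ => ?_)]
    · have h : ∀ c : Fin d → Fin (n * n), ∫⁻ ω, Ps β s c (r ω) *
          Ssum β s k (blk (shift (sndL c) (shift (fstL c) ω))) ∂(law d n p) =
          (∫⁻ ω, Ps β s c (r ω) ∂(law d n p)) * ∫⁻ ω, Ssum β s k (blk ω) ∂(law d n p) := by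
        intro c
        exact key p (fstL c) (sndL c) (Ps β s c) (fun ω => Ssum β s k (blk ω))
          (measurable_Ssum_blk β s k)
      simp_rw [h]
      rw [← Finset.sum_mul, ← lintegral_finsetSum _ (fun c _ => hmeas c), theta, ih,
        mul_comm, ← pow_succ]
    · exact (hmeas c).fun_mul
        ((measurable_Ssum_blk β s k).comp ((meas_shift _).comp (meas_shift _)))

end Pool.Agent.R671.MP
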